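import Mathlib

set_option autoImplicit false

namespace Pool.Agent.Helper761.Om

open Set Cardinal

/-- There is a well-ordered set all of whose initial segments are countable and all of whose
countable subsets are strictly bounded. -/
theorem exists_omega1 : ∃ (ι : Type) (_ : LinearOrder ι) (_ : WellFoundedLT ι),
    (∀ a : ι, (Iio a).Countable) ∧
      (∀ A : Set ι, A.Countable → ∃ b, ∀ a ∈ A, a < b) := by
  let ι : Type := (Cardinal.aleph 1).ord.ToType
  have h1 : ∀ a : ι, (Iio a).Countable := by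
    intro a
    have h := Cardinal.mk_Iio_toType_ord_lt (c := Cardinal.aleph 1) a
    have h2 : Cardinal.mk (Iio a) ≤ Cardinal.aleph0 := by
      have h3 : Cardinal.aleph 1 = Order.succ Cardinal.aleph0 := by
        rw [← Cardinal.succ_aleph0]
      exact Order.lt_succ_iff.1 (lt_of_lt_of_eq h h3)
    exact Cardinal.le_aleph0_iff_set_countable.1 h2
  refine ⟨ι, inferInstance, inferInstance, h1, ?_⟩
  intro A hA
  by_contra hcon
  push Not at hcon
  have h2 : (univ : Set ι) = ⋃ a ∈ A, insert a (Iio a) := by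
    apply Subset.antisymm _ (subset_univ _)
    intro b _
    obtain ⟨a, ha, hba⟩ := hcon b
    rw [mem_iUnion₂]
    refine ⟨a, ha, ?_⟩
    rcases eq_or_lt_of_le hba with h | h
    · exact Or.inl h
    · exact Or.inr h
  have h3 : (univ : Set ι).Countable := by
    rw [h2]
    exact hA.biUnion (fun a _ => (h1 a).insert a)
  have h4 : Cardinal.mk ι = Cardinal.aleph 1 := by
    simp [ι]
  have h5 : Cardinal.mk ι ≤ Cardinal.aleph0 := by
    have := Cardinal.le_aleph0_iff_set_countable.2 h3
    rwa [Cardinal.mk_univ] at this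
  rw [h4] at h5
  exact absurd h5 (not_le.2 Cardinal.aleph0_lt_aleph_one)

variable {ι : Type} [LinearOrder ι] [WellFoundedLT ι]

/-- Limit element. -/
def Lim (δ : ι) : Prop := (∃ a, a < δ) ∧ ∀ a < δ, ∃ b, a < b ∧ b < δ

/-- The least upper bound of a strictly increasing sequence. -/
theorem exists_lub (hu : ∀ A : Set ι, A.Countable → ∃ b, ∀ a ∈ A, a < b)
    (s : ℕ → ι) (hs : ∀ n, s n < s (n + 1)) :
    ∃ δ, Lim δ ∧ (∀ n, s n < δ) ∧ ∀ a < δ, ∃ n, a ≤ s n := by
  have hne : {δ : ι | ∀ n, s n < δ}.Nonempty := by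
    obtain ⟨b, hb⟩ := hu (range s) (countable_range s)
    exact ⟨b, fun n => hb _ ⟨n, rfl⟩⟩
  obtain ⟨δ, hδ, hmin⟩ := WellFounded.has_min (wellFounded_lt (α := ι)) _ hne
  have h1 : ∀ a < δ, ∃ n, a ≤ s n := by
    intro a ha
    by_contra hcon
    push Not at hcon
    exact hmin a hcon ha
  refine ⟨δ, ⟨⟨s 0, hδ 0⟩, ?_⟩, hδ, h1⟩
  intro a ha
  obtain ⟨n, hn⟩ := h1 a ha
  exact ⟨s (n + 1), lt_of_le_of_lt hn (hs n), hδ (n + 1)⟩

/-- Pressing down: a function that at every limit takes a value in a countable set attached to an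
earlier index is constant on an unbounded set of limits. -/
theorem pressing [Nonempty ι] (hc : ∀ a : ι, (Iio a).Countable)
    (hu : ∀ A : Set ι, A.Countable → ∃ b, ∀ a ∈ A, a < b)
    {E : Type*} (Es : ι → Set E) (hEs : ∀ a, (Es a).Countable) (R : ι → E → Prop)
    (hf : ∀ δ, Lim δ → ∃ β < δ, ∃ e ∈ Es β, R δ e) :
    ∃ e, ∀ b, ∃ δ, b < δ ∧ Lim δ ∧ R δ e := by
  by_contra hcon
  push Not at hcon
  choose B hB using hcon
  have hg : ∀ β : ι, ∃ g : ι, β < g ∧ ∀ β' ≤ β, ∀ e ∈ Es β', B e < g := by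
    intro β
    have hcount : (insert β (⋃ β' ∈ insert β (Iio β), B '' Es β')).Countable := by
      apply Countable.insert
      exact ((hc β).insert β).biUnion (fun a _ => (hEs a).image B)
    obtain ⟨g, hg⟩ := hu _ hcount
    refine ⟨g, hg β (mem_insert _ _), ?_⟩
    intro β' hβ' e he
    apply hg
    right
    rw [mem_iUnion₂]
    refine ⟨β', ?_, mem_image_of_mem B he⟩
    rcases eq_or_lt_of_le hβ' with h | h
    · exact Or.inl h
    · exact Or.inr h
  choose g hg1 hg2 using hg
  let s : ℕ → ι := fun n => g^[n] (Classical.arbitrary ι)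
  have hs : ∀ n, s (n + 1) = g (s n) := fun n => Function.iterate_succ_apply' g n _
  obtain ⟨δ, hL, hlt, hcof⟩ := exists_lub hu s (fun n => by rw [hs]; exact hg1 _)
  obtain ⟨β, hβ, e, he, hR⟩ := hf δ hL
  obtain ⟨n, hn⟩ := hcof β hβ
  have h1 : B e < s (n + 1) := by
    rw [hs]
    exact hg2 (s n) β hn e he
  exact hB e δ (h1.trans (hlt _)) hL hR

/-- Transfinite recursion: a sequence of points each chosen from the union of the sets attached to
the earlier ones. -/
theorem exists_rec {X : Type*} (nb : X → Set X) (P : Set X → X) :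
    ∃ p : ι → X, ∀ α, p α = P (⋃ β ∈ Iio α, nb (p β)) := by
  let F : (α : ι) → ((β : ι) → β < α → X) → X :=
    fun α ih => P (⋃ (β : ι) (h : β < α), nb (ih β h))
  refine ⟨(wellFounded_lt (α := ι)).fix F, ?_⟩
  intro α
  rw [WellFounded.fix_eq]
  rfl

end Pool.Agent.Helper761.Om
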