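import Mathlib
import Pool.Agent.Helper761.BaloghBennett

set_option autoImplicit false

namespace Pool.Agent.Helper761.BB

open Set Topology TopologicalSpace

/-- A locally connected space all of whose components are second countable and regular is
metrizable. -/
theorem metrizable_of_components {X : Type*} [TopologicalSpace X] [T3Space X]
    [LocallyConnectedSpace X]
    (h : ∀ x : X, SecondCountableTopology (connectedComponent x)) : MetrizableSpace X := by
  let E : ConnectedComponents X → Type _ := fun c => {y : X // ConnectedComponents.mk y = c}
  have hE : ∀ c, MetrizableSpace (E c) := by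
    intro c
    obtain ⟨x, rfl⟩ := ConnectedComponents.surjective_coe c
    have h1 : {y : X | ConnectedComponents.mk y = ConnectedComponents.mk x} =
        connectedComponent x := by
      ext y
      rw [mem_setOf_eq]
      change ((y : ConnectedComponents X) = x) ↔ _
      rw [ConnectedComponents.coe_eq_coe]
      constructor
      · intro h
        rw [← h]
        exact mem_connectedComponent
      · intro h
        exact (connectedComponent_eq h).symm
    have h2 : SecondCountableTopology (E (ConnectedComponents.mk x)) := by
      change SecondCountableTopology {y : X | ConnectedComponents.mk y = ConnectedComponents.mk x}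
      rw [h1]
      exact h x
    infer_instance
  letI : ∀ c, MetricSpace (E c) := fun c => TopologicalSpace.metrizableSpaceMetric (E c)
  letI : MetricSpace (Σ c, E c) := Metric.Sigma.metricSpace
  have hopen : ∀ c : ConnectedComponents X, IsOpen {y : X | ConnectedComponents.mk y = c} := by
    intro c
    obtain ⟨x, rfl⟩ := ConnectedComponents.surjective_coe c
    have h1 : {y : X | ConnectedComponents.mk y = ConnectedComponents.mk x} =
        connectedComponent x := by
      ext y
      rw [mem_setOf_eq]
      change ((y : ConnectedComponents X) = x) ↔ _
      rw [ConnectedComponents.coe_eq_coe]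
      constructor
      · intro h
        rw [← h]
        exact mem_connectedComponent
      · intro h
        exact (connectedComponent_eq h).symm
    change IsOpen {y : X | ConnectedComponents.mk y = ConnectedComponents.mk x}
    rw [h1]
    exact isOpen_connectedComponent
  let g : (Σ c, E c) → X := fun z => z.2.1
  have hgc : Continuous g := by
    apply continuous_sigma
    intro c
    exact continuous_subtype_val
  have hgo : IsOpenMap g := by
    rw [isOpenMap_sigma]
    intro c
    exact (hopen c).isOpenMap_subtype_val
  let e : (Σ c, E c) ≃ X :=
    { toFun := g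
      invFun := fun x => ⟨ConnectedComponents.mk x, ⟨x, rfl⟩⟩
      left_inv := by
        rintro ⟨c, ⟨x, rfl⟩⟩
        rfl
      right_inv := fun x => rfl }
  let H : (Σ c, E c) ≃ₜ X := e.toHomeomorphOfContinuousOpen hgc hgo
  exact H.symm.isEmbedding.metrizableSpace

/-- A Hausdorff, locally compact, locally connected, locally second countable, hereditarily normal
space with a point-countable open cover that is separating in the T1 sense is metrizable. -/
theorem main {X : Type*} [TopologicalSpace X] [T2Space X] [LocallyCompactSpace X]
    [LocallyConnectedSpace X] [CompletelyNormalSpace X]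
    (hsc : ∀ x : X, ∃ G : Set X, IsOpen G ∧ x ∈ G ∧ SecondCountableTopology G)
    (𝒰 : Set (Set X)) (hUo : ∀ U ∈ 𝒰, IsOpen U)
    (hUc : ∀ x, {U : Set X | U ∈ 𝒰 ∧ x ∈ U}.Countable)
    (hUs : ∀ x y : X, x ≠ y → ∃ U ∈ 𝒰, x ∈ U ∧ y ∉ U) : MetrizableSpace X := by
  apply metrizable_of_components
  intro x
  choose G hGo hGm hGs using hsc
  have hCo : IsOpen (connectedComponent x) := isOpen_connectedComponent
  haveI : LocallyConnectedSpace (connectedComponent x) := hCo.locallyConnectedSpace
  haveI : LocallyCompactSpace (connectedComponent x) := hCo.locallyCompactSpace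
  haveI : ConnectedSpace (connectedComponent x) :=
    isConnected_iff_connectedSpace.1 isConnected_connectedComponent
  let nb : connectedComponent x → Set (connectedComponent x) := fun y => Subtype.val ⁻¹' (G y.1)
  have hno : ∀ y, IsOpen (nb y) := fun y => (hGo y.1).preimage continuous_subtype_val
  have hnm : ∀ y, y ∈ nb y := fun y => hGm y.1
  have hns : ∀ y, SecondCountableTopology (nb y) := by
    intro y
    let f : nb y → G y.1 := fun z => ⟨z.1.1, z.2⟩
    have hf : Continuous f := by
      apply Continuous.subtype_mk
      exact continuous_subtype_val.comp continuous_subtype_val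
    have hgf : IsInducing ((Subtype.val : G y.1 → X) ∘ f) := by
      change IsInducing (fun z : nb y => z.1.1)
      exact IsInducing.subtypeVal.comp IsInducing.subtypeVal
    have hfi : IsInducing f := IsInducing.of_comp hf continuous_subtype_val hgf
    haveI := hGs y.1
    exact hfi.secondCountableTopology
  have hnd : ∀ y, ∃ D : Set (connectedComponent x), D.Countable ∧ nb y ⊆ closure D := by
    intro y
    haveI := hns y
    obtain ⟨D, hDc, hD⟩ := TopologicalSpace.exists_countable_dense (nb y)
    exact ⟨Subtype.val '' D, hDc.image _, Subtype.dense_iff.1 hD⟩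
  let 𝒲 : Set (Set (connectedComponent x)) := (fun U : Set X => Subtype.val ⁻¹' U) '' 𝒰
  obtain ⟨A, hA, hcov⟩ := connected_case nb hno hnm hnd 𝒲
    (by
      rintro _ ⟨U, hU, rfl⟩
      exact (hUo U hU).preimage continuous_subtype_val)
    (by
      intro y
      refine ((hUc y.1).image (fun U : Set X => Subtype.val ⁻¹' U)).mono ?_
      rintro _ ⟨⟨U, hU, rfl⟩, hy⟩
      exact ⟨U, ⟨hU, hy⟩, rfl⟩)
    (by
      intro y z hyz
      obtain ⟨U, hU, hy, hz⟩ := hUs y.1 z.1 (fun h => hyz (Subtype.ext h))
      exact ⟨Subtype.val ⁻¹' U, ⟨U, hU, rfl⟩, hy, hz⟩)
  haveI : Countable A := hA.to_subtype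
  haveI : ∀ a : A, SecondCountableTopology (nb a.1) := fun a => hns a.1
  refine TopologicalSpace.secondCountableTopology_of_countable_cover (U := fun a : A => nb a.1)
    (fun a => hno a.1) ?_
  rw [← hcov, biUnion_eq_iUnion]

end Pool.Agent.Helper761.BB
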