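import Mathlib

set_option autoImplicit false

open Set Metric

namespace Pool.Agent.Helper761

/-- A connected set joining `w` to the real point `a`, staying away from real points of `[0,1]`. -/
theorem exists_base (w : ℂ) (a : ℝ) :
    ∃ C : Set ℂ, IsPreconnected C ∧ w ∈ C ∧ (a : ℂ) ∈ C ∧
      ∀ y ∈ C, ∀ ξ : ℝ, 0 ≤ ξ → ξ ≤ 1 →
        min (min (dist w (ξ : ℂ)) 1) |a - ξ| ≤ dist y (ξ : ℂ) := by
  -- sign of the imaginary part
  obtain ⟨σ, hσ, hσw⟩ : ∃ σ : ℝ, (σ = 1 ∨ σ = -1) ∧ σ * w.im = |w.im| := by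
    by_cases h : 0 ≤ w.im
    · exact ⟨1, Or.inl rfl, by rw [abs_of_nonneg h]; ring⟩
    · exact ⟨-1, Or.inr rfl, by rw [abs_of_neg (not_le.mp h)]; ring⟩
  have hσ2 : σ * σ = 1 := by
    rcases hσ with h | h <;> rw [h] <;> norm_num
  have hσabs : |σ| = 1 := by
    rcases hσ with h | h <;> rw [h] <;> norm_num
  set H1 : Set ℂ := {p | p.re = w.re ∧ |w.im| ≤ σ * p.im} with hH1
  set H2 : Set ℂ := {p | 1 ≤ σ * p.im} with hH2
  set H3 : Set ℂ := {p | p.re ≤ -1} with hH3
  set H4 : Set ℂ := {p | 1 ≤ p.im} with hH4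
  set H5 : Set ℂ := {p | p.re = a ∧ 0 ≤ p.im} with hH5
  have c1 : Convex ℝ H1 := by
    intro p hp q hq s t hs ht hst
    simp only [hH1, mem_setOf_eq] at hp hq ⊢
    simp only [Complex.add_re, Complex.add_im, Complex.real_smul, Complex.mul_re, Complex.mul_im,
      Complex.ofReal_re, Complex.ofReal_im, zero_mul, sub_zero, add_zero]
    refine ⟨by rw [hp.1, hq.1, ← add_mul, hst, one_mul], ?_⟩
    have e1 : σ * (s * p.im + t * q.im) = s * (σ * p.im) + t * (σ * q.im) := by ring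
    rw [e1]
    have e2 : |w.im| = s * |w.im| + t * |w.im| := by rw [← add_mul, hst, one_mul]
    rw [e2]
    exact add_le_add (mul_le_mul_of_nonneg_left hp.2 hs) (mul_le_mul_of_nonneg_left hq.2 ht)
  have c2 : Convex ℝ H2 := by
    intro p hp q hq s t hs ht hst
    simp only [hH2, mem_setOf_eq] at hp hq ⊢
    simp only [Complex.add_im, Complex.real_smul, Complex.mul_im,
      Complex.ofReal_re, Complex.ofReal_im, zero_mul, add_zero]
    have e1 : σ * (s * p.im + t * q.im) = s * (σ * p.im) + t * (σ * q.im) := by ring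
    rw [e1]
    nlinarith
  have c3 : Convex ℝ H3 := by
    intro p hp q hq s t hs ht hst
    simp only [hH3, mem_setOf_eq] at hp hq ⊢
    simp only [Complex.add_re, Complex.real_smul, Complex.mul_re,
      Complex.ofReal_re, Complex.ofReal_im, zero_mul, sub_zero]
    nlinarith
  have c4 : Convex ℝ H4 := by
    intro p hp q hq s t hs ht hst
    simp only [hH4, mem_setOf_eq] at hp hq ⊢
    simp only [Complex.add_im, Complex.real_smul, Complex.mul_im,
      Complex.ofReal_re, Complex.ofReal_im, zero_mul, add_zero]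
    nlinarith
  have c5 : Convex ℝ H5 := by
    intro p hp q hq s t hs ht hst
    simp only [hH5, mem_setOf_eq] at hp hq ⊢
    simp only [Complex.add_re, Complex.add_im, Complex.real_smul, Complex.mul_re, Complex.mul_im,
      Complex.ofReal_re, Complex.ofReal_im, zero_mul, sub_zero, add_zero]
    refine ⟨by rw [hp.1, hq.1, ← add_mul, hst, one_mul], ?_⟩
    have := mul_nonneg hs hp.2
    have := mul_nonneg ht hq.2
    linarith
  have p12 : (⟨w.re, σ * (|w.im| + 1)⟩ : ℂ) ∈ H1 ∧ (⟨w.re, σ * (|w.im| + 1)⟩ : ℂ) ∈ H2 := by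
    refine ⟨⟨rfl, ?_⟩, ?_⟩
    · show |w.im| ≤ σ * (σ * (|w.im| + 1))
      rw [← mul_assoc, hσ2]; linarith
    · show 1 ≤ σ * (σ * (|w.im| + 1))
      rw [← mul_assoc, hσ2]; linarith [abs_nonneg w.im]
  have p23 : (⟨-1, σ⟩ : ℂ) ∈ H2 ∧ (⟨-1, σ⟩ : ℂ) ∈ H3 := by
    refine ⟨?_, ?_⟩
    · show 1 ≤ σ * σ
      rw [hσ2]
    · show (-1 : ℝ) ≤ -1
      exact le_rfl
  have p34 : (⟨-1, 1⟩ : ℂ) ∈ H3 ∧ (⟨-1, 1⟩ : ℂ) ∈ H4 := by
    refine ⟨?_, ?_⟩
    · show (-1 : ℝ) ≤ -1
      exact le_rfl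
    · show (1 : ℝ) ≤ 1
      exact le_rfl
  have p45 : (⟨a, 1⟩ : ℂ) ∈ H4 ∧ (⟨a, 1⟩ : ℂ) ∈ H5 := by
    refine ⟨?_, rfl, ?_⟩
    · show (1 : ℝ) ≤ 1
      exact le_rfl
    · show (0 : ℝ) ≤ 1
      exact zero_le_one
  refine ⟨(((H1 ∪ H2) ∪ H3) ∪ H4) ∪ H5, ?_, ?_, ?_, ?_⟩
  · have q2 : IsPreconnected (H1 ∪ H2) :=
      IsPreconnected.union _ p12.1 p12.2 c1.isPreconnected c2.isPreconnected
    have q3 : IsPreconnected ((H1 ∪ H2) ∪ H3) :=
      IsPreconnected.union _ (Or.inr p23.1) p23.2 q2 c3.isPreconnected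
    have q4 : IsPreconnected (((H1 ∪ H2) ∪ H3) ∪ H4) :=
      IsPreconnected.union _ (Or.inr p34.1) p34.2 q3 c4.isPreconnected
    exact IsPreconnected.union _ (Or.inr p45.1) p45.2 q4 c5.isPreconnected
  · exact Or.inl (Or.inl (Or.inl (Or.inl ⟨rfl, hσw.ge⟩)))
  · refine Or.inr ⟨?_, ?_⟩
    · simp
    · simp
  · intro y hy ξ hξ0 hξ1
    have hre : |y.re - ξ| ≤ dist y (ξ : ℂ) := by
      rw [dist_eq_norm]
      have := Complex.abs_re_le_norm (y - (ξ : ℂ))
      simpa using this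
    have him : |y.im| ≤ dist y (ξ : ℂ) := by
      rw [dist_eq_norm]
      have := Complex.abs_im_le_norm (y - (ξ : ℂ))
      simpa using this
    rcases hy with (((hy | hy) | hy) | hy) | hy
    · refine (min_le_left _ _).trans ((min_le_left _ _).trans ?_)
      obtain ⟨h1, h2⟩ := hy
      have h3 : |w.im| ≤ |y.im| := by
        calc |w.im| ≤ σ * y.im := h2
          _ ≤ |σ * y.im| := le_abs_self _
          _ = |y.im| := by rw [abs_mul, hσabs, one_mul]
      rw [dist_eq_norm, dist_eq_norm]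
      apply le_of_sq_le_sq _ (norm_nonneg _)
      rw [Complex.sq_norm, Complex.sq_norm, Complex.normSq_apply, Complex.normSq_apply]
      simp only [Complex.sub_re, Complex.sub_im, Complex.ofReal_re, Complex.ofReal_im, sub_zero]
      rw [h1]
      have h4 : w.im * w.im ≤ y.im * y.im := by
        have := sq_le_sq' (by linarith [abs_nonneg y.im, abs_nonneg w.im]) h3
        rw [sq_abs, sq_abs] at this
        nlinarith
      linarith
    · refine (min_le_left _ _).trans ((min_le_right _ _).trans ?_)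
      have h2 : 1 ≤ σ * y.im := hy
      calc (1 : ℝ) ≤ σ * y.im := h2
          _ ≤ |σ * y.im| := le_abs_self _
          _ = |y.im| := by rw [abs_mul, hσabs, one_mul]
          _ ≤ _ := him
    · refine (min_le_left _ _).trans ((min_le_right _ _).trans ?_)
      have h2 : y.re ≤ -1 := hy
      refine le_trans ?_ hre
      rw [abs_of_neg (by linarith)]
      linarith
    · refine (min_le_left _ _).trans ((min_le_right _ _).trans ?_)
      have h2 : 1 ≤ y.im := hy
      exact (h2.trans (le_abs_self _)).trans him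
    · refine (min_le_right _ _).trans ?_
      rw [← hy.1]
      exact hre

end Pool.Agent.Helper761
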