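import Mathlib

set_option autoImplicit false

open Set Metric

namespace Pool.Agent.Helper761

/-- Radius of a moving ball that stays at home, at time `t`. -/
noncomputable def Rad (t : ℝ) : ℝ := 1 / max t 1

/-- Radii of the travelling balls of the slab `n`. -/
noncomputable def eps (n i : ℕ) : ℝ := (1 / (16 * (n : ℝ))) ^ (i + 1) / ((n : ℝ) + 1)

/-- Cut-off function, equal to `1` at both ends of `[n, n+1]` and `0` in the middle. -/
noncomputable def chi (n : ℕ) (δ t : ℝ) : ℝ :=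
  max 0 (min 1 (max (1 - (t - n) / δ) (1 - (n + 1 - t) / δ)))

/-- Radius function of the `i`-th travelling ball. -/
noncomputable def rad (n i : ℕ) (δ t : ℝ) : ℝ := eps n i + chi n δ t * (Rad t - eps n i)

theorem Rad_continuous : Continuous Rad := by
  unfold Rad
  refine continuous_const.div (continuous_id.max continuous_const) ?_
  intro t
  have : (1 : ℝ) ≤ max t 1 := le_max_right _ _
  have h2 : (0 : ℝ) < max t 1 := by linarith
  exact h2.ne'

theorem Rad_pos (t : ℝ) : 0 < Rad t := by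
  unfold Rad
  have : (1 : ℝ) ≤ max t 1 := le_max_right _ _
  positivity

theorem Rad_le {n : ℕ} (hn : 1 ≤ n) {t : ℝ} (h : (n : ℝ) ≤ t) : Rad t ≤ 1 / n := by
  unfold Rad
  have hn' : (1 : ℝ) ≤ n := by exact_mod_cast hn
  have : (n : ℝ) ≤ max t 1 := h.trans (le_max_left _ _)
  exact one_div_le_one_div_of_le (by linarith) this

theorem le_Rad {n : ℕ} {t : ℝ} (h : t ≤ n + 1) : 1 / ((n : ℝ) + 1) ≤ Rad t := by
  unfold Rad
  have h1 : (1 : ℝ) ≤ max t 1 := le_max_right _ _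
  have hn' : (0 : ℝ) ≤ n := Nat.cast_nonneg n
  refine one_div_le_one_div_of_le (by linarith) (max_le h (by linarith))

theorem eps_pos {n : ℕ} (hn : 1 ≤ n) (i : ℕ) : 0 < eps n i := by
  unfold eps
  have hn' : (1 : ℝ) ≤ n := by exact_mod_cast hn
  positivity

theorem eps_succ (n i : ℕ) : eps n (i + 1) = (1 / (16 * (n : ℝ))) * eps n i := by
  unfold eps
  rw [pow_succ]
  ring

theorem eps_succ_le {n : ℕ} (hn : 1 ≤ n) (i : ℕ) : 16 * eps n (i + 1) ≤ eps n i := by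
  rw [eps_succ]
  have hn' : (1 : ℝ) ≤ n := by exact_mod_cast hn
  have h1 : (1 / (16 * (n : ℝ))) ≤ 1 / 16 := by
    apply one_div_le_one_div_of_le (by norm_num)
    linarith
  have := mul_le_mul_of_nonneg_right h1 (eps_pos hn i).le
  linarith

theorem eps_anti {n : ℕ} (hn : 1 ≤ n) {i j : ℕ} (h : i ≤ j) : eps n j ≤ eps n i := by
  induction j, h using Nat.le_induction with
  | base => exact le_rfl
  | succ k hk ih => linarith [eps_succ_le hn k, eps_pos hn (k + 1)]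

theorem eps_lt {n : ℕ} (hn : 1 ≤ n) {i j : ℕ} (h : i < j) : 16 * eps n j ≤ eps n i :=
  le_trans (by linarith [eps_anti hn (show i + 1 ≤ j from h)]) (eps_succ_le hn i)

theorem sum_eps_Ico {n : ℕ} (hn : 1 ≤ n) (j k : ℕ) (hjk : j ≤ k) :
    ∑ i ∈ Finset.Ico j k, eps n i + 2 * eps n k ≤ 2 * eps n j := by
  induction k, hjk using Nat.le_induction with
  | base => simp
  | succ k hk ih =>
    rw [Finset.sum_Ico_succ_top hk]
    linarith [eps_succ_le hn k, eps_pos hn (k + 1), eps_pos hn k]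

theorem four_n_eps_succ {n : ℕ} (hn : 1 ≤ n) (j : ℕ) :
    4 * (n * (2 * eps n (j + 1))) = eps n j / 2 := by
  rw [eps_succ]
  have hn' : (1 : ℝ) ≤ n := by exact_mod_cast hn
  have : (n : ℝ) ≠ 0 := by positivity
  field_simp
  ring

theorem sum_after {n : ℕ} (hn : 1 ≤ n) (j k : ℕ) :
    4 * (n * ∑ i ∈ Finset.Ico (j + 1) k, eps n i) ≤ eps n j / 2 := by
  rw [← four_n_eps_succ hn j]
  have hn' : (0 : ℝ) ≤ n := Nat.cast_nonneg n
  by_cases h : j + 1 ≤ k
  · have := sum_eps_Ico hn (j + 1) k h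
    have h2 : ∑ i ∈ Finset.Ico (j + 1) k, eps n i ≤ 2 * eps n (j + 1) := by
      linarith [eps_pos hn k]
    have := mul_le_mul_of_nonneg_left h2 hn'
    linarith
  · rw [Finset.Ico_eq_empty (by omega)]
    simp only [Finset.sum_empty, mul_zero]
    have := eps_pos hn (j + 1)
    positivity

theorem eps_zero {n : ℕ} : eps n 0 = 1 / (16 * (n : ℝ)) / ((n : ℝ) + 1) := by
  unfold eps
  simp

theorem sum_all {n : ℕ} (hn : 1 ≤ n) (k : ℕ) :
    4 * (n * ∑ i ∈ Finset.range k, eps n i) ≤ 1 / (2 * ((n : ℝ) + 1)) := by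
  have hn' : (1 : ℝ) ≤ n := by exact_mod_cast hn
  have h := sum_eps_Ico hn 0 k (Nat.zero_le k)
  rw [← Finset.range_eq_Ico] at h
  have h2 : ∑ i ∈ Finset.range k, eps n i ≤ 2 * eps n 0 := by linarith [eps_pos hn k]
  have h3 := mul_le_mul_of_nonneg_left h2 (show (0 : ℝ) ≤ n by linarith)
  have h4 : 4 * (n * (2 * eps n 0)) = 1 / (2 * ((n : ℝ) + 1)) := by
    rw [eps_zero]
    have : (n : ℝ) ≠ 0 := by positivity
    field_simp
    ring
  linarith

theorem eps_small {n : ℕ} (hn : 1 ≤ n) (i : ℕ) : n * eps n i ≤ 1 / (16 * ((n : ℝ) + 1)) := by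
  have hn' : (1 : ℝ) ≤ n := by exact_mod_cast hn
  have h1 := eps_anti hn (Nat.zero_le i)
  have h2 := mul_le_mul_of_nonneg_left h1 (show (0 : ℝ) ≤ n by linarith)
  have h4 : n * eps n 0 = 1 / (16 * ((n : ℝ) + 1)) := by
    rw [eps_zero]
    have : (n : ℝ) ≠ 0 := by positivity
    field_simp
  linarith

theorem eps_le {n : ℕ} (hn : 1 ≤ n) (i : ℕ) : eps n i ≤ 1 / (16 * ((n : ℝ) + 1)) := by
  have hn' : (1 : ℝ) ≤ n := by exact_mod_cast hn
  have h1 := eps_small hn i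
  have h2 := mul_le_mul_of_nonneg_right hn' (eps_pos hn i).le
  linarith

theorem eps_le_inv {n : ℕ} (hn : 1 ≤ n) (i : ℕ) : eps n i ≤ 1 / ((n : ℝ) + 1) := by
  refine (eps_le hn i).trans ?_
  have hn' : (1 : ℝ) ≤ n := by exact_mod_cast hn
  apply one_div_le_one_div_of_le <;> linarith

theorem eps_le_Rad {n : ℕ} (hn : 1 ≤ n) (i : ℕ) {t : ℝ} (h : t ≤ n + 1) : eps n i ≤ Rad t :=
  (eps_le_inv hn i).trans (le_Rad h)

theorem chi_nonneg (n : ℕ) (δ t : ℝ) : 0 ≤ chi n δ t := le_max_left _ _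

theorem chi_le_one (n : ℕ) (δ t : ℝ) : chi n δ t ≤ 1 :=
  max_le zero_le_one (min_le_left _ _)

theorem chi_continuous (n : ℕ) (δ : ℝ) : Continuous (chi n δ) := by
  unfold chi
  fun_prop

theorem chi_left (n : ℕ) {δ : ℝ} : chi n δ n = 1 := by
  unfold chi
  have : (1 : ℝ) ≤ max (1 - ((n : ℝ) - n) / δ) (1 - ((n : ℝ) + 1 - n) / δ) := by
    refine le_trans ?_ (le_max_left _ _)
    simp
  rw [min_eq_left this]
  simp

theorem chi_right (n : ℕ) {δ : ℝ} : chi n δ (n + 1) = 1 := by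
  unfold chi
  have : (1 : ℝ) ≤ max (1 - ((n : ℝ) + 1 - n) / δ) (1 - ((n : ℝ) + 1 - (n + 1)) / δ) := by
    refine le_trans ?_ (le_max_right _ _)
    simp
  rw [min_eq_left this]
  simp

theorem chi_eq_zero {n : ℕ} {δ t : ℝ} (hδ : 0 < δ) (h1 : n + δ ≤ t) (h2 : t ≤ n + 1 - δ) :
    chi n δ t = 0 := by
  unfold chi
  apply max_eq_left
  refine (min_le_right _ _).trans (max_le ?_ ?_)
  · have : 1 ≤ (t - n) / δ := by rw [le_div_iff₀ hδ]; linarith
    linarith
  · have : 1 ≤ (n + 1 - t) / δ := by rw [le_div_iff₀ hδ]; linarith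
    linarith

theorem chi_mono {n : ℕ} {δ δ' t : ℝ} (hδ : 0 < δ) (h : δ ≤ δ') (h1 : (n : ℝ) ≤ t)
    (h2 : t ≤ n + 1) : chi n δ t ≤ chi n δ' t := by
  unfold chi
  refine max_le_max le_rfl (min_le_min le_rfl (max_le_max ?_ ?_))
  · have : (t - n) / δ' ≤ (t - n) / δ := div_le_div_of_nonneg_left (by linarith) hδ h
    linarith
  · have : (n + 1 - t) / δ' ≤ (n + 1 - t) / δ := div_le_div_of_nonneg_left (by linarith) hδ h
    linarith

theorem rad_continuous (n i : ℕ) (δ : ℝ) : Continuous (rad n i δ) := by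
  unfold rad
  exact continuous_const.add ((chi_continuous n δ).mul (Rad_continuous.sub continuous_const))

theorem eps_le_rad {n : ℕ} (hn : 1 ≤ n) (i : ℕ) (δ : ℝ) {t : ℝ} (h : t ≤ n + 1) :
    eps n i ≤ rad n i δ t := by
  unfold rad
  have := mul_nonneg (chi_nonneg n δ t) (sub_nonneg.mpr (eps_le_Rad hn i h))
  linarith

theorem rad_pos {n : ℕ} (hn : 1 ≤ n) (i : ℕ) (δ : ℝ) {t : ℝ} (h : t ≤ n + 1) :
    0 < rad n i δ t := lt_of_lt_of_le (eps_pos hn i) (eps_le_rad hn i δ h)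

theorem rad_le_Rad {n : ℕ} (hn : 1 ≤ n) (i : ℕ) (δ : ℝ) {t : ℝ} (h : t ≤ n + 1) :
    rad n i δ t ≤ Rad t := by
  unfold rad
  have := mul_le_mul_of_nonneg_right (chi_le_one n δ t) (sub_nonneg.mpr (eps_le_Rad hn i h))
  linarith

theorem rad_le {n : ℕ} (hn : 1 ≤ n) (i : ℕ) (δ : ℝ) {t : ℝ} (h0 : (n : ℝ) ≤ t) (h : t ≤ n + 1) :
    rad n i δ t ≤ 1 / n := (rad_le_Rad hn i δ h).trans (Rad_le hn h0)

theorem chi_mul_le_rad {n : ℕ} (hn : 1 ≤ n) (i : ℕ) (δ : ℝ) {t : ℝ} (h : t ≤ n + 1) :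
    chi n δ t * (1 / ((n : ℝ) + 1)) ≤ rad n i δ t := by
  have h1 := mul_le_mul_of_nonneg_left (le_Rad (n := n) h) (chi_nonneg n δ t)
  have h2 : chi n δ t * Rad t ≤ rad n i δ t := by
    unfold rad
    have := mul_le_mul_of_nonneg_right (chi_le_one n δ t) (eps_pos hn i).le
    linarith
  linarith

theorem rad_of_chi_zero {n i : ℕ} {δ t : ℝ} (h : chi n δ t = 0) : rad n i δ t = eps n i := by
  unfold rad; rw [h]; ring

theorem rad_left {n i : ℕ} {δ : ℝ} : rad n i δ n = Rad n := by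
  unfold rad; rw [chi_left]; ring

theorem rad_right {n i : ℕ} {δ : ℝ} : rad n i δ (n + 1) = Rad (n + 1) := by
  unfold rad; rw [chi_right]; ring

end Pool.Agent.Helper761
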