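import Mathlib

set_option autoImplicit false

namespace Pool.Agent.Helper761

/-- Dependent choice where every step sees all previous values. -/
theorem exists_seq {α : Type*} [Inhabited α] (G : ℕ → (ℕ → α) → Prop)
    (hloc : ∀ i f g, (∀ j, j ≤ i → f j = g j) → G i f → G i g)
    (hstep : ∀ i f, (∀ j, j < i → G j f) → ∃ a, G i (Function.update f i a)) :
    ∃ f : ℕ → α, ∀ i, G i f := by
  classical
  have key : ∀ i (f : {f : ℕ → α // ∀ j, j < i → G j f}),
      ∃ g : {f : ℕ → α // ∀ j, j < i + 1 → G j f}, ∀ j, j < i → g.1 j = f.1 j := by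
    intro i f
    obtain ⟨a, ha⟩ := hstep i f.1 f.2
    refine ⟨⟨Function.update f.1 i a, ?_⟩, ?_⟩
    · intro j hj
      rcases Nat.lt_succ_iff_lt_or_eq.mp hj with h | h
      · refine hloc j f.1 _ ?_ (f.2 j h)
        intro k hk
        rw [Function.update_of_ne (by omega)]
      · rw [h]; exact ha
    · intro j hj
      show Function.update f.1 i a j = f.1 j
      rw [Function.update_of_ne (by omega)]
  choose next hnext using key
  let F : ∀ i : ℕ, {f : ℕ → α // ∀ j, j < i → G j f} := fun i =>
    Nat.rec (motive := fun i => {f : ℕ → α // ∀ j, j < i → G j f})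
      ⟨fun _ => default, fun j hj => absurd hj (Nat.not_lt_zero j)⟩ (fun i f => next i f) i
  have hF : ∀ i j, j < i → (F (i + 1)).1 j = (F i).1 j := fun i j hj => hnext i (F i) j hj
  have hF2 : ∀ j d, (F (j + 1 + d)).1 j = (F (j + 1)).1 j := by
    intro j d
    induction d with
    | zero => rfl
    | succ d ih =>
      rw [← add_assoc, hF (j + 1 + d) j (by omega), ih]
  refine ⟨fun j => (F (j + 1)).1 j, fun i => ?_⟩
  refine hloc i (F (i + 1)).1 _ ?_ ((F (i + 1)).2 i (Nat.lt_succ_self i))
  intro j hj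
  obtain ⟨d, hd⟩ := Nat.exists_eq_add_of_le (show j + 1 ≤ i + 1 by omega)
  rw [hd, hF2]

end Pool.Agent.Helper761
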