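import Mathlib
import Pool.Agent.Helper761.Seq

set_option autoImplicit false

open Set Filter Topology TopologicalSpace

namespace Pool.Agent.Helper761

/-- A dense sequence in `ℂ × (0,1)` with pairwise distinct times. -/
theorem exists_dense_points :
    ∃ (w : ℕ → ℂ) (τ : ℕ → ℝ), Function.Injective τ ∧ (∀ i, 0 < τ i ∧ τ i < 1) ∧
      ∀ U : Set (ℂ × ℝ), IsOpen U → (∃ p ∈ U, 0 < p.2 ∧ p.2 < 1) → ∃ i, (w i, τ i) ∈ U := by
  classical
  let O : Set (ℂ × ℝ) := {p | 0 < p.2 ∧ p.2 < 1}
  have hO : IsOpen O :=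
    (isOpen_lt continuous_const continuous_snd).inter (isOpen_lt continuous_snd continuous_const)
  have hOne : (((0 : ℂ), (1 / 2 : ℝ)) : ℂ × ℝ) ∈ O := ⟨by norm_num, by norm_num⟩
  have hcb : (countableBasis (ℂ × ℝ)).Countable := countable_countableBasis _
  have hne : (countableBasis (ℂ × ℝ)).Nonempty := by
    have := (isBasis_countableBasis (ℂ × ℝ)).exists_subset_of_mem_open hOne hO
    obtain ⟨v, hv, -⟩ := this
    exact ⟨v, hv⟩
  obtain ⟨b, hb⟩ := hcb.exists_eq_range hne
  let V : ℕ → Set (ℂ × ℝ) := fun k => if (b k ∩ O).Nonempty then b k ∩ O else O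
  have hbo : ∀ k, IsOpen (b k) := fun k =>
    (isBasis_countableBasis (ℂ × ℝ)).isOpen (by rw [hb]; exact ⟨k, rfl⟩)
  have hVo : ∀ k, IsOpen (V k) := by
    intro k
    simp only [V]
    split_ifs
    · exact (hbo k).inter hO
    · exact hO
  have hVne : ∀ k, (V k).Nonempty := by
    intro k
    simp only [V]
    split_ifs with h
    · exact h
    · exact ⟨_, hOne⟩
  have hVO : ∀ k, V k ⊆ O := by
    intro k
    simp only [V]
    split_ifs with h
    · exact inter_subset_right
    · exact subset_rfl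
  obtain ⟨f, hf⟩ := exists_seq (α := ℂ × ℝ)
    (fun k f => f k ∈ V k ∧ ∀ j, j < k → (f j).2 ≠ (f k).2)
    (by
      intro i f g h hfg
      rw [← h i le_rfl]
      refine ⟨hfg.1, fun j hj => ?_⟩
      rw [← h j hj.le]
      exact hfg.2 j hj)
    (by
      intro i f _
      obtain ⟨⟨z, s⟩, hz⟩ := hVne i
      have hopen : IsOpen ((fun s : ℝ => ((z, s) : ℂ × ℝ)) ⁻¹' V i) :=
        (hVo i).preimage (by fun_prop)
      have hinf : ((fun s : ℝ => ((z, s) : ℂ × ℝ)) ⁻¹' V i).Infinite :=
        infinite_of_mem_nhds s (hopen.mem_nhds hz)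
      obtain ⟨s', hs', hs2⟩ := hinf.exists_notMem_finset ((Finset.range i).image fun j => (f j).2)
      refine ⟨(z, s'), ?_, ?_⟩
      · rw [Function.update_self]
        exact hs'
      · intro j hj heq
        rw [Function.update_self, Function.update_of_ne hj.ne] at heq
        apply hs2
        rw [Finset.mem_image]
        exact ⟨j, Finset.mem_range.mpr hj, heq⟩)
  refine ⟨fun i => (f i).1, fun i => (f i).2, ?_, ?_, ?_⟩
  · intro i j hij
    by_contra hne'
    rcases Nat.lt_or_gt_of_ne hne' with h | h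
    · exact (hf j).2 i h hij
    · exact (hf i).2 j h hij.symm
  · intro i
    exact hVO i (hf i).1
  · rintro U hU ⟨p, hpU, hp⟩
    obtain ⟨v, hv, hpv, hvU⟩ := (isBasis_countableBasis (ℂ × ℝ)).exists_subset_of_mem_open
      (show p ∈ U ∩ O from ⟨hpU, hp⟩) (hU.inter hO)
    rw [hb] at hv
    obtain ⟨k, rfl⟩ := hv
    have hk : (b k ∩ O).Nonempty := ⟨p, hpv, hp⟩
    refine ⟨k, ?_⟩
    have h1 := (hf k).1
    simp only [V] at h1
    rw [if_pos hk] at h1
    exact (hvU h1.1).1

end Pool.Agent.Helper761
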