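import Mathlib

set_option autoImplicit false

open Set Filter

namespace Pool.Agent.Helper761

/-- A well-ordered scale of monotone functions: increasing modulo finite sets with a prescribed
growth, without last element, and bounded on no infinite set. -/
theorem exists_scale (Φ : ℕ → ℕ → ℕ) (hΦ : ∀ n, Monotone (Φ n)) (hΦ' : ∀ n k, k ≤ Φ n k) :
    ∃ (Λ : Set (ℕ → ℕ)) (r : Λ → Λ → Prop) (f : Λ → ℕ → ℕ), IsWellOrder Λ r ∧
      (∀ a b, r a b → ∀ᶠ n in atTop, Φ n (f a n) ≤ f b n) ∧
      (∀ a, ∃ b, r a b) ∧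
      (∀ S : Set ℕ, S.Infinite → ∀ q : ℕ → ℕ, ∃ a, ∃ᶠ n in atTop, n ∈ S ∧ q n ≤ f a n) := by
  classical
  let R : (ℕ → ℕ) → (ℕ → ℕ) → Prop := WellOrderingRel
  have hR : IsWellOrder (ℕ → ℕ) R := WellOrderingRel.isWellOrder
  have hwf : WellFounded R := hR.wf
  let step : ∀ g : ℕ → ℕ, (∀ g', R g' g → (ℕ → ℕ)) → (ℕ → ℕ) := fun g ih =>
    if h : ∃ m : ℕ → ℕ, Monotone m ∧
        (∀ g' (hg : R g' g), ∀ᶠ n in atTop, Φ n (ih g' hg n) ≤ m n) ∧ (∀ n, g n ≤ m n)
    then h.choose else fun _ => 0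
  let F : (ℕ → ℕ) → (ℕ → ℕ) := hwf.fix step
  have hF : ∀ g, F g = step g (fun g' _ => F g') := fun g => hwf.fix_eq step g
  let P : (ℕ → ℕ) → Prop := fun g => ∃ m : ℕ → ℕ, Monotone m ∧
        (∀ g', R g' g → ∀ᶠ n in atTop, Φ n (F g' n) ≤ m n) ∧ (∀ n, g n ≤ m n)
  have hFP : ∀ g, P g → Monotone (F g) ∧
        (∀ g', R g' g → ∀ᶠ n in atTop, Φ n (F g' n) ≤ F g n) ∧ (∀ n, g n ≤ F g n) := by
    intro g hg
    have h1 : F g = hg.choose := by
      rw [hF g]
      show dite _ _ _ = _
      rw [dif_pos hg]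
    rw [h1]
    exact hg.choose_spec
  let Λ : Set (ℕ → ℕ) := {g | ∀ g', (R g' g ∨ g' = g) → P g'}
  have hΛP : ∀ g ∈ Λ, P g := fun g hg => hg g (Or.inr rfl)
  -- unboundedness
  have hunb : ∀ S : Set ℕ, S.Infinite → ∀ q : ℕ → ℕ,
      ∃ a : Λ, ∃ᶠ n in atTop, n ∈ S ∧ q n ≤ F a.1 n := by
    intro S hS q
    by_contra hcon
    push Not at hcon
    have hS' : ∀ n, ∃ m, n ≤ m ∧ m ∈ S := by
      intro n
      obtain ⟨m, hm, hnm⟩ := hS.exists_gt n
      exact ⟨m, hnm.le, hm⟩
    choose ν hν1 hν2 using hS'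
    have hνt : Tendsto ν atTop atTop := tendsto_atTop_mono hν1 tendsto_id
    have hbd : ∀ a ∈ Λ, ∀ᶠ n in atTop, F a n < q (ν n) := by
      intro a ha
      have h1 := hcon ⟨a, ha⟩
      have h2 := hνt.eventually h1
      filter_upwards [h2] with n hn
      have h3 := hn (hν2 n)
      exact lt_of_le_of_lt ((hFP a (hΛP a ha)).1 (hν1 n)) h3
    have hall : ∀ g, g ∈ Λ := by
      intro g
      induction g using hwf.induction with
      | _ g ih =>
        have hPg : P g := by
          refine ⟨fun n => ∑ k ∈ Finset.range (n + 1), (Φ k (q (ν k)) + g k), ?_, ?_, ?_⟩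
          · intro a b hab
            exact Finset.sum_le_sum_of_subset (Finset.range_mono (by omega))
          · intro g' hg'
            have h1 := hbd g' (ih g' hg')
            filter_upwards [h1] with n hn
            have h2 : Φ n (F g' n) ≤ Φ n (q (ν n)) := hΦ n hn.le
            have h3 : Φ n (q (ν n)) + g n
                ≤ ∑ k ∈ Finset.range (n + 1), (Φ k (q (ν k)) + g k) :=
              Finset.single_le_sum (f := fun k => Φ k (q (ν k)) + g k)
                (fun _ _ => Nat.zero_le _) (Finset.mem_range.mpr (Nat.lt_succ_self n))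
            omega
          · intro n
            have h3 : Φ n (q (ν n)) + g n
                ≤ ∑ k ∈ Finset.range (n + 1), (Φ k (q (ν k)) + g k) :=
              Finset.single_le_sum (f := fun k => Φ k (q (ν k)) + g k)
                (fun _ _ => Nat.zero_le _) (Finset.mem_range.mpr (Nat.lt_succ_self n))
            show g n ≤ ∑ k ∈ Finset.range (n + 1), (Φ k (q (ν k)) + g k)
            omega
        intro g' hg'
        rcases hg' with h | h
        · exact hΛP g' (ih g' h)
        · rw [h]; exact hPg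
    have h1 := hbd (fun n => q (ν n)) (hall _)
    obtain ⟨n, hn⟩ := h1.exists
    have h2 := (hFP _ (hΛP _ (hall (fun n => q (ν n))))).2.2 n
    exact absurd hn (not_lt.mpr h2)
  refine ⟨Λ, fun a b => R a.1 b.1, fun a => F a.1, ?_, ?_, ?_, hunb⟩
  · exact (Subrel.relEmbedding R (· ∈ Λ)).isWellOrder
  · intro a b hab
    exact (hFP b.1 (hΛP b.1 b.2)).2.1 a.1 hab
  · intro a
    by_contra hcon
    push Not at hcon
    obtain ⟨b, hb⟩ := hunb univ infinite_univ (fun n => F a.1 n + 1)
    have hle : ∀ᶠ n in atTop, F b.1 n ≤ F a.1 n := by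
      rcases trichotomous_of R a.1 b.1 with h | h | h
      · exact absurd h (hcon b)
      · rw [h]; exact Eventually.of_forall fun n => le_rfl
      · have := (hFP a.1 (hΛP a.1 a.2)).2.1 b.1 h
        filter_upwards [this] with n hn
        exact (hΦ' n _).trans hn
    obtain ⟨n, ⟨-, hn1⟩, hn2⟩ := (hb.and_eventually hle).exists
    omega

end Pool.Agent.Helper761
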