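import Mathlib

set_option autoImplicit false

open Set Metric

namespace Pool.Agent.Helper761

/-- If a connected set meets an open ball, removing the ball and adding the bounding sphere
keeps it connected (one of the two separating open sets contains the sphere). -/
theorem push_aux {C : Set ℂ} (hC : IsPreconnected C) {p : ℂ} {r : ℝ}
    (hmeet : (C ∩ ball p r).Nonempty) {u v : Set ℂ} (hu : IsOpen u) (hv : IsOpen v)
    (hsub : (C \ ball p r) ∪ sphere p r ⊆ u ∪ v) (hSu : sphere p r ⊆ u)
    (hDv : (((C \ ball p r) ∪ sphere p r) ∩ v).Nonempty) :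
    (((C \ ball p r) ∪ sphere p r) ∩ (u ∩ v)).Nonempty := by
  obtain ⟨y, hyD, hyv⟩ := hDv
  by_cases hyS : y ∈ sphere p r
  · exact ⟨y, hyD, hSu hyS, hyv⟩
  have hyC : y ∈ C \ ball p r := by
    rcases hyD with h | h
    · exact h
    · exact absurd h hyS
  have hycl : y ∉ closedBall p r := by
    intro h
    have h1 : dist y p ≤ r := mem_closedBall.mp h
    have h2 : ¬ dist y p < r := fun h3 => hyC.2 (mem_ball.mpr h3)
    exact hyS (mem_sphere.mpr (le_antisymm h1 (not_lt.mp h2)))
  have hu' : IsOpen (u ∪ ball p r) := hu.union isOpen_ball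
  have hv' : IsOpen (v \ closedBall p r) := hv.sdiff isClosed_closedBall
  have hcov : C ⊆ (u ∪ ball p r) ∪ (v \ closedBall p r) := by
    intro c hc
    by_cases hcb : c ∈ ball p r
    · exact Or.inl (Or.inr hcb)
    · have hcD : c ∈ (C \ ball p r) ∪ sphere p r := Or.inl ⟨hc, hcb⟩
      rcases hsub hcD with h | h
      · exact Or.inl (Or.inl h)
      · by_cases hcc : c ∈ closedBall p r
        · have h1 : dist c p ≤ r := mem_closedBall.mp hcc
          have h2 : ¬ dist c p < r := fun h3 => hcb (mem_ball.mpr h3)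
          exact Or.inl (Or.inl (hSu (mem_sphere.mpr (le_antisymm h1 (not_lt.mp h2)))))
        · exact Or.inr ⟨h, hcc⟩
  have h1 : (C ∩ (u ∪ ball p r)).Nonempty := by
    obtain ⟨z, hz, hzb⟩ := hmeet
    exact ⟨z, hz, Or.inr hzb⟩
  have h2 : (C ∩ (v \ closedBall p r)).Nonempty := ⟨y, hyC.1, hyv, hycl⟩
  obtain ⟨z, hzC, hzu, hzv⟩ := hC _ _ hu' hv' hcov h1 h2
  have hznb : z ∉ ball p r := fun h => hzv.2 (ball_subset_closedBall h)
  have hzu' : z ∈ u := by
    rcases hzu with h | h
    · exact h
    · exact absurd h hznb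
  exact ⟨z, Or.inl ⟨hzC, hznb⟩, hzu', hzv.1⟩

theorem push_preconnected {C : Set ℂ} (hC : IsPreconnected C) {p : ℂ} {r : ℝ}
    (hmeet : (C ∩ ball p r).Nonempty) :
    IsPreconnected ((C \ ball p r) ∪ sphere p r) := by
  have hS : IsPreconnected (sphere p r) := by
    apply isPreconnected_sphere
    rw [Complex.rank_real_complex]
    exact_mod_cast one_lt_two
  intro u v hu hv hsub hDu hDv
  by_cases h1 : (sphere p r ∩ u).Nonempty
  · by_cases h2 : (sphere p r ∩ v).Nonempty
    · obtain ⟨z, hz, hzuv⟩ := hS u v hu hv (subset_union_right.trans hsub) h1 h2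
      exact ⟨z, Or.inr hz, hzuv⟩
    · have hSu : sphere p r ⊆ u := by
        intro z hz
        rcases hsub (Or.inr hz) with h | h
        · exact h
        · exact absurd ⟨z, hz, h⟩ h2
      exact push_aux hC hmeet hu hv hsub hSu hDv
  · have hSv : sphere p r ⊆ v := by
      intro z hz
      rcases hsub (Or.inr hz) with h | h
      · exact absurd ⟨z, hz, h⟩ h1
      · exact h
    have := push_aux hC hmeet hv hu (by rwa [union_comm v u]) hSv hDu
    rwa [inter_comm v u] at this

/-- Pushing a connected set off finitely many balls. -/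
theorem exists_pushed {C0 : Set ℂ} (h0 : IsPreconnected C0) {w x : ℂ} (hw : w ∈ C0) (hx : x ∈ C0)
    (p : ℕ → ℂ) (ρ : ℕ → ℝ) (hρ : ∀ j, 0 ≤ ρ j) (k : ℕ)
    (hwp : ∀ j < k, 2 * ρ j ≤ dist w (p j)) (hxp : ∀ j < k, 2 * ρ j ≤ dist x (p j)) :
    ∃ C : Set ℂ, IsPreconnected C ∧ w ∈ C ∧ x ∈ C ∧
      (∀ y ∈ C, ∃ f ∈ C0, dist y f ≤ 4 * ∑ j ∈ Finset.range k, ρ j) ∧
      (∀ y ∈ C, ∀ j < k, 2 * ρ j - 4 * ∑ i ∈ Finset.Ico (j + 1) k, ρ i ≤ dist y (p j)) := by
  induction k with
  | zero =>
    refine ⟨C0, h0, hw, hx, ?_, ?_⟩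
    · intro y hy
      exact ⟨y, hy, by simp⟩
    · intro y hy j hj
      exact absurd hj (Nat.not_lt_zero j)
  | succ k ih =>
    obtain ⟨C, hC, hwC, hxC, h1, h2⟩ := ih (fun j hj => hwp j (hj.trans (Nat.lt_succ_self k)))
      (fun j hj => hxp j (hj.trans (Nat.lt_succ_self k)))
    by_cases hmeet : (C ∩ ball (p k) (2 * ρ k)).Nonempty
    · refine ⟨(C \ ball (p k) (2 * ρ k)) ∪ sphere (p k) (2 * ρ k), push_preconnected hC hmeet,
        ?_, ?_, ?_, ?_⟩
      · refine Or.inl ⟨hwC, fun h => ?_⟩
        have := hwp k (Nat.lt_succ_self k)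
        have h3 := mem_ball.mp h
        linarith
      · refine Or.inl ⟨hxC, fun h => ?_⟩
        have := hxp k (Nat.lt_succ_self k)
        have h3 := mem_ball.mp h
        linarith
      · intro y hy
        rw [Finset.sum_range_succ]
        rcases hy with hy | hy
        · obtain ⟨f, hf, hd⟩ := h1 y hy.1
          exact ⟨f, hf, by linarith [hρ k]⟩
        · obtain ⟨z, hzC, hzb⟩ := hmeet
          obtain ⟨f, hf, hd⟩ := h1 z hzC
          refine ⟨f, hf, ?_⟩
          have h3 : dist y (p k) = 2 * ρ k := mem_sphere.mp hy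
          have h4 : dist z (p k) < 2 * ρ k := mem_ball.mp hzb
          have h5 : dist y f ≤ dist y (p k) + dist (p k) z + dist z f := dist_triangle4 _ _ _ _
          rw [dist_comm (p k) z] at h5
          linarith
      · intro y hy j hj
        rcases Nat.lt_succ_iff_lt_or_eq.mp hj with hj' | hj'
        · rw [Finset.sum_Ico_succ_top (by omega)]
          rcases hy with hy | hy
          · have := h2 y hy.1 j hj'
            linarith [hρ k]
          · obtain ⟨z, hzC, hzb⟩ := hmeet
            have h3 : dist y (p k) = 2 * ρ k := mem_sphere.mp hy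
            have h4 : dist z (p k) < 2 * ρ k := mem_ball.mp hzb
            have h5 := h2 z hzC j hj'
            have h6 : dist z (p j) ≤ dist z (p k) + dist (p k) y + dist y (p j) :=
              dist_triangle4 _ _ _ _
            rw [dist_comm (p k) y] at h6
            linarith
        · subst hj'
          simp only [Finset.Ico_self, Finset.sum_empty, mul_zero, sub_zero]
          rcases hy with hy | hy
          · have h3 : ¬ dist y (p j) < 2 * ρ j := fun h => hy.2 (mem_ball.mpr h)
            exact not_lt.mp h3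
          · exact (mem_sphere.mp hy).ge
    · refine ⟨C, hC, hwC, hxC, ?_, ?_⟩
      · intro y hy
        obtain ⟨f, hf, hd⟩ := h1 y hy
        refine ⟨f, hf, ?_⟩
        rw [Finset.sum_range_succ]
        linarith [hρ k]
      · intro y hy j hj
        rcases Nat.lt_succ_iff_lt_or_eq.mp hj with hj' | hj'
        · rw [Finset.sum_Ico_succ_top (by omega)]
          have := h2 y hy j hj'
          linarith [hρ k]
        · subst hj'
          simp only [Finset.Ico_self, Finset.sum_empty, mul_zero, sub_zero]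
          have h3 : ¬ dist y (p j) < 2 * ρ j := fun h => hmeet ⟨y, hy, mem_ball.mpr h⟩
          exact not_lt.mp h3

/-- A path inside a small thickening of a connected set. -/
theorem exists_path_near {C : Set ℂ} (hC : IsPreconnected C) {w x : ℂ} (hw : w ∈ C) (hx : x ∈ C)
    {e : ℝ} (he : 0 < e) :
    ∃ P : ℝ → ℂ, Continuous P ∧ P 0 = w ∧ (∀ s, 1 ≤ s → P s = x) ∧
      ∀ s, ∃ y ∈ C, dist (P s) y < e := by
  have hO : IsOpen (thickening e C) := isOpen_thickening
  have hpre : IsPreconnected (thickening e C) := by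
    have : thickening e C = (fun q : ℂ × ℂ => q.1 + q.2) '' (C ×ˢ ball (0 : ℂ) e) := by
      ext z
      rw [mem_thickening_iff]
      constructor
      · rintro ⟨y, hy, hd⟩
        refine ⟨(y, z - y), ⟨hy, ?_⟩, by simp⟩
        simpa [dist_eq_norm] using hd
      · rintro ⟨⟨y, d⟩, ⟨hy, hd⟩, rfl⟩
        refine ⟨y, hy, ?_⟩
        simpa [dist_eq_norm] using hd
    rw [this]
    refine (hC.prod (convex_ball (0 : ℂ) e).isPreconnected).image _ ?_
    exact (continuous_fst.add continuous_snd).continuousOn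
  have hsub : C ⊆ thickening e C := self_subset_thickening he C
  have hconn : IsConnected (thickening e C) := ⟨⟨w, hsub hw⟩, hpre⟩
  have hpath : IsPathConnected (thickening e C) := hO.isConnected_iff_isPathConnected.mp hconn
  obtain ⟨γ, hγ⟩ := hpath.joinedIn w (hsub hw) x (hsub hx)
  refine ⟨γ.extend, γ.continuous_extend, γ.extend_zero, fun s hs => γ.extend_of_one_le hs, ?_⟩
  intro s
  have : γ.extend s ∈ thickening e C := by
    have h1 : γ.extend s ∈ range γ.extend := ⟨s, rfl⟩
    rw [γ.extend_range] at h1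
    obtain ⟨t, ht⟩ := h1
    rw [← ht]
    exact hγ t
  exact mem_thickening_iff.mp this

end Pool.Agent.Helper761
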