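import Mathlib
import Pool.Agent.Helper761.Push
import Pool.Agent.Helper761.Base
import Pool.Agent.Helper761.Seq
import Pool.Agent.Helper761.Basic

set_option autoImplicit false

open Set Metric Filter Topology

namespace Pool.Agent.Helper761

/-- The requirements on the `i`-th travelling ball of slab `n`: `(D i).1` is its centre and
`(D i).2` the width of its cut-off zone. -/
structure Good (n : ℕ) (w : ℕ → ℂ) (t x σ : ℕ → ℝ) (i : ℕ) (D : ℕ → (ℝ → ℂ) × ℝ) : Prop where
  cont : Continuous (D i).1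
  hit : (D i).1 (t i) = w i
  home : ∀ s, σ i ≤ |s - t i| → (D i).1 s = (x i : ℂ)
  dpos : 0 < (D i).2
  dmono : ∀ j, j < i → (D i).2 ≤ (D j).2
  shrink : ∀ s, 0 < chi n (D i).2 s → (D i).1 s = (x i : ℂ)
  chi0 : chi n (D i).2 (t i) = 0
  far : ∀ s : ℝ, ∀ ξ : ℝ, 0 ≤ ξ → ξ ≤ 1 →
    min (min (dist (w i) (ξ : ℂ)) 1) |x i - ξ| - 1 / ((n : ℝ) + 1) ≤ dist ((D i).1 s) (ξ : ℂ)
  sep : ∀ j, j < i → ∀ M : ℝ, 2 ≤ M → M ≤ n →
    M * rad n j (D j).2 (t i) ≤ dist (w i) ((D j).1 (t i)) →
    M / n ≤ dist (w j) (x i : ℂ) → M / n ≤ |x j - x i| →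
    ∀ s : ℝ, (n : ℝ) ≤ s → s ≤ n + 1 →
      (M / 4 - 2) * max (rad n i (D i).2 s) (rad n j (D j).2 s) ≤ dist ((D i).1 s) ((D j).1 s)

theorem Good.congr {n : ℕ} {w : ℕ → ℂ} {t x σ : ℕ → ℝ} {i : ℕ} {D E : ℕ → (ℝ → ℂ) × ℝ}
    (h : ∀ j, j ≤ i → D j = E j) (g : Good n w t x σ i D) : Good n w t x σ i E := by
  have hi := h i le_rfl
  refine ⟨?_, ?_, ?_, ?_, ?_, ?_, ?_, ?_, ?_⟩
  · rw [← hi]; exact g.cont
  · rw [← hi]; exact g.hit
  · rw [← hi]; exact g.home
  · rw [← hi]; exact g.dpos
  · intro j hj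
    rw [← hi, ← h j hj.le]; exact g.dmono j hj
  · rw [← hi]; exact g.shrink
  · rw [← hi]; exact g.chi0
  · rw [← hi]; exact g.far
  · intro j hj
    rw [← hi, ← h j hj.le]; exact g.sep j hj

theorem exists_small_delta (i : ℕ) (d : ℕ → ℝ) (hd : ∀ j, j < i → 0 < d j) {a : ℝ} (ha : 0 < a) :
    ∃ δ : ℝ, 0 < δ ∧ δ ≤ a ∧ ∀ j, j < i → δ ≤ d j := by
  induction i with
  | zero => exact ⟨a, ha, le_rfl, fun j hj => absurd hj (Nat.not_lt_zero j)⟩
  | succ i ih =>
    obtain ⟨δ, h0, h1, h2⟩ := ih (fun j hj => hd j (hj.trans (Nat.lt_succ_self i)))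
    refine ⟨min δ (d i), lt_min h0 (hd i (Nat.lt_succ_self i)), (min_le_left _ _).trans h1, ?_⟩
    intro j hj
    rcases Nat.lt_succ_iff_lt_or_eq.mp hj with h | h
    · exact (min_le_left _ _).trans (h2 j h)
    · rw [h]; exact min_le_right _ _

theorem step (n : ℕ) (hn : 1 ≤ n) (w : ℕ → ℂ) (t x σ : ℕ → ℝ)
    (ht : ∀ i, (n : ℝ) < t i ∧ t i < n + 1) (hx : ∀ i, 0 ≤ x i ∧ x i ≤ 1) (hσ : ∀ i, 0 < σ i)
    (i : ℕ) (D : ℕ → (ℝ → ℂ) × ℝ) (hD : ∀ j, j < i → Good n w t x σ j D) :
    ∃ d, Good n w t x σ i (Function.update D i d) := by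
  classical
  have hn' : (1 : ℝ) ≤ n := by exact_mod_cast hn
  have hn0 : (0 : ℝ) < n := by linarith
  obtain ⟨ht1, ht2⟩ := ht i
  set p : ℕ → ℂ := fun j => (D j).1 (t i) with hp
  set S : ℕ → ℝ := fun j => rad n j (D j).2 (t i) with hS
  have hSpos : ∀ j, 0 < S j := fun j => rad_pos hn j _ ht2.le
  have hSeps : ∀ j, eps n j ≤ S j := fun j => eps_le_rad hn j _ ht2.le
  have hSle : ∀ j, S j ≤ 1 / n := fun j => rad_le hn j _ ht1.le ht2.le
  set ρ : ℕ → ℝ := fun j =>
    if chi n (D j).2 (t i) = 0 ∧ 2 * (n * eps n j) ≤ dist (x i : ℂ) (p j) then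
      min (n * eps n j) (dist (w i) (p j) / 2) else 0 with hρdef
  have hneps : ∀ j, 0 < n * eps n j := fun j => mul_pos hn0 (eps_pos hn j)
  have hρ : ∀ j, 0 ≤ ρ j := by
    intro j
    simp only [hρdef]
    split_ifs
    · exact le_min (hneps j).le (by positivity)
    · exact le_rfl
  have hρle : ∀ j, ρ j ≤ n * eps n j := by
    intro j
    simp only [hρdef]
    split_ifs
    · exact min_le_left _ _
    · exact (hneps j).le
  have hwp : ∀ j, j < i → 2 * ρ j ≤ dist (w i) (p j) := by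
    intro j _
    simp only [hρdef]
    split_ifs
    · have := min_le_right ((n : ℝ) * eps n j) (dist (w i) (p j) / 2)
      linarith
    · simp
  have hxp : ∀ j, j < i → 2 * ρ j ≤ dist (x i : ℂ) (p j) := by
    intro j _
    simp only [hρdef]
    split_ifs with h
    · have := min_le_left ((n : ℝ) * eps n j) (dist (w i) (p j) / 2)
      linarith [h.2]
    · simp
  obtain ⟨C0, hC0, hwC0, hxC0, hC0far⟩ := exists_base (w i) (x i)
  obtain ⟨C, hC, hwC, hxC, hCnear, hCfar⟩ := exists_pushed hC0 hwC0 hxC0 p ρ hρ i hwp hxp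
  obtain ⟨P, hPc, hP0, hP1, hPnear⟩ := exists_path_near hC hwC hxC (eps_pos hn i)
  have hsum_all : 4 * ∑ j ∈ Finset.range i, ρ j ≤ 1 / (2 * ((n : ℝ) + 1)) := by
    refine le_trans ?_ (sum_all hn i)
    have : ∑ j ∈ Finset.range i, ρ j ≤ n * ∑ j ∈ Finset.range i, eps n j := by
      rw [Finset.mul_sum]
      exact Finset.sum_le_sum (fun j _ => hρle j)
    linarith
  have hsum_after : ∀ j, 4 * ∑ k ∈ Finset.Ico (j + 1) i, ρ k ≤ eps n j / 2 := by
    intro j
    refine le_trans ?_ (sum_after hn j i)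
    have : ∑ k ∈ Finset.Ico (j + 1) i, ρ k ≤ n * ∑ k ∈ Finset.Ico (j + 1) i, eps n k := by
      rw [Finset.mul_sum]
      exact Finset.sum_le_sum (fun j _ => hρle j)
    linarith
  -- the path avoids all previous balls
  have key : ∀ j, j < i → ∀ M : ℝ, 2 ≤ M → M ≤ n → M * S j ≤ dist (w i) (p j) →
      M / n ≤ dist (w j) (x i : ℂ) → M / n ≤ |x j - x i| → ∀ l : ℝ,
      (M - 3 / 4) * S j ≤ dist (P l) (p j) := by
    intro j hj M hM1 hM2 h1 h2 h3 l
    obtain ⟨y, hyC, hy⟩ := hPnear l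
    have hei : 16 * eps n i ≤ eps n j := eps_lt hn hj
    have hej := eps_pos hn j
    have hG := hD j hj
    have htri : dist y (p j) ≤ dist (P l) y + dist (P l) (p j) := by
      have := dist_triangle y (P l) (p j)
      rwa [dist_comm y (P l)] at this
    by_cases hchi : chi n (D j).2 (t i) = 0
    · have hSj : S j = eps n j := rad_of_chi_zero hchi
      have hMn : M / n ≤ 1 := by rw [div_le_one hn0]; exact hM2
      have hfar := hG.far (t i) (x i) (hx i).1 (hx i).2
      have h4 : M / n - 1 / ((n : ℝ) + 1) ≤ dist (p j) (x i : ℂ) := by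
        refine le_trans ?_ hfar
        have : M / n ≤ min (min (dist (w j) (x i : ℂ)) 1) |x j - x i| :=
          le_min (le_min h2 hMn) h3
        linarith
      have h5 : 2 * (n * eps n j) ≤ dist (x i : ℂ) (p j) := by
        rw [dist_comm]
        refine le_trans ?_ h4
        have h6 := eps_small hn j
        have h7 : 2 / (n : ℝ) ≤ M / n := div_le_div_of_nonneg_right hM1 hn0.le
        have h8 : 1 / ((n : ℝ) + 1) ≤ 1 / n := one_div_le_one_div_of_le hn0 (by linarith)
        have h9 : 1 / (16 * ((n : ℝ) + 1)) ≤ 1 / (2 * n) :=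
          one_div_le_one_div_of_le (by linarith) (by linarith)
        have h10 : 1 / (2 * (n : ℝ)) = 1 / n / 2 := by
          field_simp
        have h11 : 2 / (n : ℝ) = 2 * (1 / n) := by ring
        linarith
      have hρj : ρ j = min (n * eps n j) (dist (w i) (p j) / 2) := by
        simp only [hρdef]
        rw [if_pos ⟨hchi, h5⟩]
      have h6 : M * eps n j ≤ 2 * ρ j := by
        rw [hρj]
        rw [hSj] at h1
        have h7 : M * eps n j / 2 ≤ min (n * eps n j) (dist (w i) (p j) / 2) := by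
          refine le_min ?_ (by linarith)
          have := mul_le_mul_of_nonneg_right hM2 hej.le
          have := mul_nonneg (show (0 : ℝ) ≤ M by linarith) hej.le
          linarith
        linarith
      have h7 := hCfar y hyC j hj
      have h8 := hsum_after j
      rw [hSj]
      have e1 : (M - 3 / 4) * eps n j = M * eps n j - 3 / 4 * eps n j := by ring
      rw [e1]
      linarith
    · have hchi' : 0 < chi n (D j).2 (t i) := lt_of_le_of_ne (chi_nonneg _ _ _) (Ne.symm hchi)
      have hpj : p j = (x j : ℂ) := hG.shrink (t i) hchi'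
      have hzero : ∀ k, k ≤ j → ρ k = 0 := by
        intro k hk
        have hdk : (D j).2 ≤ (D k).2 := by
          rcases Nat.lt_or_ge k j with h | h
          · exact hG.dmono k h
          · rw [le_antisymm hk h]
        have h4 := chi_mono (n := n) hG.dpos hdk ht1.le ht2.le
        simp only [hρdef]
        rw [if_neg]
        rintro ⟨h5, -⟩
        linarith
      have hsplit : ∑ k ∈ Finset.range i, ρ k = ∑ k ∈ Finset.Ico (j + 1) i, ρ k := by
        rw [← Finset.sum_range_add_sum_Ico _ (show j + 1 ≤ i from hj)]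
        rw [Finset.sum_eq_zero (s := Finset.range (j + 1)), zero_add]
        intro k hk
        exact hzero k (Nat.lt_succ_iff.mp (Finset.mem_range.mp hk))
      obtain ⟨f, hf, hyf⟩ := hCnear y hyC
      rw [hsplit] at hyf
      have h5 := hC0far f hf (x j) (hx j).1 (hx j).2
      have h6 : M * S j ≤ min (min (dist (w i) (x j : ℂ)) 1) |x i - x j| := by
        refine le_min (le_min ?_ ?_) ?_
        · rw [← hpj]; exact h1
        · calc M * S j ≤ n * (1 / n) :=
                mul_le_mul hM2 (hSle j) (hSpos j).le hn0.le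
            _ = 1 := by field_simp
        · rw [abs_sub_comm]
          refine le_trans ?_ h3
          calc M * S j ≤ M * (1 / n) := mul_le_mul_of_nonneg_left (hSle j) (by linarith)
            _ = M / n := by ring
      have h7 : dist f (x j : ℂ) ≤ dist y f + dist (P l) y + dist (P l) (x j : ℂ) := by
        have := dist_triangle4 f y (P l) (x j : ℂ)
        rwa [dist_comm f y, dist_comm y (P l)] at this
      have h8 := hsum_after j
      rw [hpj]
      have e1 : (M - 3 / 4) * S j = M * S j - 3 / 4 * S j := by ring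
      rw [e1]
      have := hSeps j
      linarith
  have farP : ∀ l : ℝ, ∀ ξ : ℝ, 0 ≤ ξ → ξ ≤ 1 →
      min (min (dist (w i) (ξ : ℂ)) 1) |x i - ξ| - 1 / ((n : ℝ) + 1) ≤ dist (P l) (ξ : ℂ) := by
    intro l ξ h0 h1
    obtain ⟨y, hyC, hy⟩ := hPnear l
    obtain ⟨f, hf, hyf⟩ := hCnear y hyC
    have h5 := hC0far f hf ξ h0 h1
    have h7 : dist f (ξ : ℂ) ≤ dist y f + dist (P l) y + dist (P l) (ξ : ℂ) := by
      have := dist_triangle4 f y (P l) (ξ : ℂ)
      rwa [dist_comm f y, dist_comm y (P l)] at this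
    have h8 := eps_le hn i
    have e1 : 1 / (2 * ((n : ℝ) + 1)) = 1 / ((n : ℝ) + 1) / 2 := by
      field_simp
    have e2 : 1 / (16 * ((n : ℝ) + 1)) = 1 / ((n : ℝ) + 1) / 16 := by
      field_simp
    have e3 : 0 < 1 / ((n : ℝ) + 1) := by positivity
    rw [e1] at hsum_all
    rw [e2] at h8
    linarith
  -- choice of the window
  have hev : ∀ᶠ s in 𝓝 (t i), ∀ j ∈ Finset.range i,
      dist ((D j).1 s) (p j) ≤ S j / 4 ∧ rad n j (D j).2 s ≤ 2 * S j := by
    rw [Filter.eventually_all_finset]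
    intro j hj
    have hG := hD j (Finset.mem_range.mp hj)
    have hSj := hSpos j
    refine Filter.Eventually.and ?_ ?_
    · have h1 : Tendsto (fun s => dist ((D j).1 s) (p j)) (𝓝 (t i)) (𝓝 (dist (p j) (p j))) :=
        ((hG.cont.dist continuous_const).tendsto (t i))
      rw [dist_self] at h1
      exact (h1.eventually (ge_mem_nhds (show (0 : ℝ) < S j / 4 by linarith)))
    · have h1 : Tendsto (fun s => rad n j (D j).2 s) (𝓝 (t i)) (𝓝 (S j)) :=
        (rad_continuous n j (D j).2).tendsto (t i)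
      exact (h1.eventually (ge_mem_nhds (show S j < 2 * S j by linarith)))
  obtain ⟨ε, hε, hεall⟩ := Metric.eventually_nhds_iff.mp hev
  obtain ⟨τ, hτ0, hτσ, hτε, hτl, hτr⟩ : ∃ τ : ℝ, 0 < τ ∧ τ ≤ σ i ∧ τ < ε ∧ τ < t i - n ∧
      τ < n + 1 - t i := by
    have hσi := hσ i
    refine ⟨min (min (σ i) (ε / 2)) (min ((t i - n) / 2) ((n + 1 - t i) / 2)), ?_, ?_, ?_, ?_, ?_⟩
    · refine lt_min (lt_min hσi (by linarith)) (lt_min (by linarith) (by linarith))
    · exact (min_le_left _ _).trans (min_le_left _ _)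
    · exact lt_of_le_of_lt ((min_le_left _ _).trans (min_le_right _ _)) (by linarith)
    · exact lt_of_le_of_lt ((min_le_right _ _).trans (min_le_left _ _)) (by linarith)
    · exact lt_of_le_of_lt ((min_le_right _ _).trans (min_le_right _ _)) (by linarith)
  obtain ⟨δ, hδ0, hδa, hδj⟩ := exists_small_delta i (fun j => (D j).2)
    (fun j hj => (hD j hj).dpos)
    (show 0 < min (t i - τ - n) (n + 1 - t i - τ) from lt_min (by linarith) (by linarith))
  have hδl : δ ≤ t i - τ - n := hδa.trans (min_le_left _ _)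
  have hδr : δ ≤ n + 1 - t i - τ := hδa.trans (min_le_right _ _)
  have hwin : ∀ s, |s - t i| ≤ τ → chi n δ s = 0 := by
    intro s hs
    have := abs_le.mp hs
    exact chi_eq_zero hδ0 (by linarith [this.1]) (by linarith [this.2])
  have hout : ∀ s, τ ≤ |s - t i| → P (|s - t i| / τ) = (x i : ℂ) := by
    intro s hs
    apply hP1
    rw [le_div_iff₀ hτ0]
    linarith
  refine ⟨(fun s => P (|s - t i| / τ), δ), ?_⟩
  have hupd : Function.update D i (fun s => P (|s - t i| / τ), δ) i
      = (fun s => P (|s - t i| / τ), δ) := Function.update_self _ _ _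
  have hupdj : ∀ j, j < i → Function.update D i (fun s => P (|s - t i| / τ), δ) j = D j :=
    fun j hj => Function.update_of_ne hj.ne _ _
  refine ⟨?_, ?_, ?_, ?_, ?_, ?_, ?_, ?_, ?_⟩
  · rw [hupd]
    exact hPc.comp (((continuous_id.sub continuous_const).abs).div_const _)
  · rw [hupd]
    show P (|t i - t i| / τ) = w i
    rw [sub_self, abs_zero, zero_div, hP0]
  · rw [hupd]
    intro s hs
    exact hout s (hτσ.trans hs)
  · rw [hupd]
    exact hδ0
  · intro j hj
    rw [hupd, hupdj j hj]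
    exact hδj j hj
  · rw [hupd]
    intro s hs
    apply hout
    by_contra hcon
    have := hwin s (not_le.mp hcon).le
    simp only at hs
    linarith
  · rw [hupd]
    apply hwin
    rw [sub_self, abs_zero]
    exact hτ0.le
  · rw [hupd]
    intro s ξ h0 h1
    exact farP _ ξ h0 h1
  · intro j hj M hM1 hM2 h1 h2 h3 s hs1 hs2
    rw [hupdj j hj] at h1
    rw [hupd, hupdj j hj]
    show (M / 4 - 2) * max (rad n i δ s) (rad n j (D j).2 s)
      ≤ dist (P (|s - t i| / τ)) ((D j).1 s)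
    have hmaxpos : 0 < max (rad n i δ s) (rad n j (D j).2 s) :=
      lt_of_lt_of_le (rad_pos hn i δ hs2) (le_max_left _ _)
    by_cases hM8 : M / 4 - 2 ≤ 0
    · have := mul_nonpos_of_nonpos_of_nonneg hM8 hmaxpos.le
      exact this.trans dist_nonneg
    have hM8' : 0 < M / 4 - 2 := not_le.mp hM8
    by_cases hs : |s - t i| ≤ τ
    · have h4 : rad n i δ s = eps n i := rad_of_chi_zero (hwin s hs)
      have h5 : rad n i δ s ≤ rad n j (D j).2 s := by
        rw [h4]
        have := eps_le_rad hn j (D j).2 hs2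
        linarith [eps_lt hn hj, eps_pos hn i]
      rw [max_eq_right h5]
      have hds : dist s (t i) < ε := by
        rw [Real.dist_eq]
        exact lt_of_le_of_lt hs hτε
      obtain ⟨h6, h7⟩ := hεall hds j (Finset.mem_range.mpr hj)
      have h8 := key j hj M hM1 hM2 h1 h2 h3 (|s - t i| / τ)
      have h9 : dist (P (|s - t i| / τ)) (p j)
          ≤ dist (P (|s - t i| / τ)) ((D j).1 s) + dist ((D j).1 s) (p j) := dist_triangle _ _ _
      have h10 : (M / 4 - 2) * rad n j (D j).2 s ≤ (M / 4 - 2) * (2 * S j) :=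
        mul_le_mul_of_nonneg_left h7 hM8'.le
      have h11 : (M / 4 - 2) * (2 * S j) ≤ (M - 1) * S j := by
        have := hSpos j
        nlinarith
      have h12 : (M - 1) * S j = (M - 3 / 4) * S j - S j / 4 := by ring
      linarith
    · rw [hout s (not_le.mp hs).le]
      have hG := hD j hj
      have hMn : M / n ≤ 1 := by rw [div_le_one hn0]; exact hM2
      have hfar := hG.far s (x i) (hx i).1 (hx i).2
      have h4 : M / n - 1 / ((n : ℝ) + 1) ≤ dist ((D j).1 s) (x i : ℂ) := by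
        refine le_trans ?_ hfar
        have : M / n ≤ min (min (dist (w j) (x i : ℂ)) 1) |x j - x i| :=
          le_min (le_min h2 hMn) h3
        linarith
      rw [dist_comm]
      refine le_trans ?_ h4
      have h5 : max (rad n i δ s) (rad n j (D j).2 s) ≤ 1 / n :=
        max_le (rad_le hn i δ hs1 hs2) (rad_le hn j _ hs1 hs2)
      have h6 : (M / 4 - 2) * max (rad n i δ s) (rad n j (D j).2 s) ≤ (M / 4 - 2) * (1 / n) :=
        mul_le_mul_of_nonneg_left h5 hM8'.le
      have h8 : 1 / ((n : ℝ) + 1) ≤ 1 / n := one_div_le_one_div_of_le hn0 (by linarith)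
      have h9 : M / n = M * (1 / n) := by ring
      have h10 : 0 < 1 / (n : ℝ) := by positivity
      rw [h9]
      nlinarith

theorem exists_stock (n : ℕ) (hn : 1 ≤ n) (w : ℕ → ℂ) (t x σ : ℕ → ℝ)
    (ht : ∀ i, (n : ℝ) < t i ∧ t i < n + 1) (hx : ∀ i, 0 ≤ x i ∧ x i ≤ 1) (hσ : ∀ i, 0 < σ i) :
    ∃ D : ℕ → (ℝ → ℂ) × ℝ, ∀ i, Good n w t x σ i D :=
  exists_seq (fun i D => Good n w t x σ i D) (fun _ _ _ h g => g.congr h)
    (fun i D hD => step n hn w t x σ ht hx hσ i D hD)

end Pool.Agent.Helper761
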