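import Mathlib
import Pool.Agent.Helper761.Stock
import Pool.Agent.Helper761.Scale
import Pool.Agent.Helper761.Dense

set_option autoImplicit false

open Set Filter Topology

namespace Pool.Agent.Helper761

/-- code of a triple -/
def tri (k q a : ℕ) : ℕ := Nat.pair k (Nat.pair q a)

def dk (i : ℕ) : ℕ := (Nat.unpair i).1
def dq (i : ℕ) : ℕ := (Nat.unpair (Nat.unpair i).2).1
def da (i : ℕ) : ℕ := (Nat.unpair (Nat.unpair i).2).2

theorem dk_tri (k q a : ℕ) : dk (tri k q a) = k := by simp [dk, tri]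
theorem dq_tri (k q a : ℕ) : dq (tri k q a) = q := by simp [dq, tri]
theorem da_tri (k q a : ℕ) : da (tri k q a) = a := by simp [da, tri]

theorem pair_mono {a b c d : ℕ} (h1 : a ≤ c) (h2 : b ≤ d) : Nat.pair a b ≤ Nat.pair c d := by
  have e1 : Nat.pair a b ≤ Nat.pair c b := by
    rcases Nat.lt_or_ge a c with h | h
    · exact (Nat.pair_lt_pair_left b h).le
    · rw [le_antisymm h1 h]
  have e2 : Nat.pair c b ≤ Nat.pair c d := by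
    rcases Nat.lt_or_ge b d with h | h
    · exact (Nat.pair_lt_pair_right c h).le
    · rw [le_antisymm h2 h]
  exact e1.trans e2

def Phi (n k : ℕ) : ℕ := tri k k (n + 1) + 1

theorem Phi_mono (n : ℕ) : Monotone (Phi n) := by
  intro a b hab
  unfold Phi tri
  have := pair_mono hab (pair_mono hab (le_refl (n + 1)))
  omega

theorem le_Phi (n k : ℕ) : k ≤ Phi n k := by
  unfold Phi tri
  have := Nat.left_le_pair k (Nat.pair k (n + 1))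
  omega

theorem tri_lt_Phi {n k q a : ℕ} (hq : q ≤ k) (ha : a ≤ n + 1) : tri k q a < Phi n k := by
  unfold Phi tri
  have := pair_mono (le_refl k) (pair_mono hq ha)
  omega

theorem le_tri (k q a : ℕ) : k ≤ tri k q a := Nat.left_le_pair _ _

/-- discretised home -/
noncomputable def disc (n a : ℕ) : ℝ := min 1 ((a : ℝ) / ((n : ℝ) + 1))

theorem disc_mem (n a : ℕ) : 0 ≤ disc n a ∧ disc n a ≤ 1 := by
  unfold disc
  exact ⟨le_min zero_le_one (by positivity), min_le_left _ _⟩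

theorem disc_close {n : ℕ} {ξ : ℝ} (h0 : 0 ≤ ξ) (h1 : ξ ≤ 1) :
    |ξ - disc n ⌊ξ * ((n : ℝ) + 1)⌋₊| ≤ 1 / ((n : ℝ) + 1) := by
  have hn : (0 : ℝ) < (n : ℝ) + 1 := by positivity
  have hle : (⌊ξ * ((n : ℝ) + 1)⌋₊ : ℝ) ≤ ξ * (n + 1) := Nat.floor_le (by positivity)
  have hlt : ξ * ((n : ℝ) + 1) < ⌊ξ * ((n : ℝ) + 1)⌋₊ + 1 := Nat.lt_floor_add_one _
  have h2 : (⌊ξ * ((n : ℝ) + 1)⌋₊ : ℝ) / ((n : ℝ) + 1) ≤ ξ := by
    rw [div_le_iff₀ hn]; exact hle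
  have h3 : disc n ⌊ξ * ((n : ℝ) + 1)⌋₊ = (⌊ξ * ((n : ℝ) + 1)⌋₊ : ℝ) / ((n : ℝ) + 1) := by
    unfold disc
    exact min_eq_right (h2.trans h1)
  rw [h3, abs_of_nonneg (by linarith)]
  have h4 : ξ ≤ (⌊ξ * ((n : ℝ) + 1)⌋₊ : ℝ) / ((n : ℝ) + 1) + 1 / ((n : ℝ) + 1) := by
    rw [← add_div, le_div_iff₀ hn]; exact hlt.le
  linarith

theorem floor_le_type {n : ℕ} {ξ : ℝ} (h1 : ξ ≤ 1) :
    ⌊ξ * ((n : ℝ) + 1)⌋₊ ≤ n + 1 := by
  have hn : (0 : ℝ) < (n : ℝ) + 1 := by positivity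
  have : ξ * ((n : ℝ) + 1) ≤ ((n + 1 : ℕ) : ℝ) := by
    push_cast
    nlinarith
  calc ⌊ξ * ((n : ℝ) + 1)⌋₊ ≤ ⌊((n + 1 : ℕ) : ℝ)⌋₊ := Nat.floor_le_floor this
    _ = n + 1 := Nat.floor_natCast _

/-- All the auxiliary choices. -/
structure Setup where
  w : ℕ → ℂ
  τ : ℕ → ℝ
  τmem : ∀ i, 0 < τ i ∧ τ i < 1
  dense : ∀ U : Set (ℂ × ℝ), IsOpen U → (∃ p ∈ U, 0 < p.2 ∧ p.2 < 1) → ∃ i, (w i, τ i) ∈ U
  sg : ℕ → ℕ → ℝ
  sgle : ∀ k q q', q' ≤ k → q' ≠ q → sg k q ≤ |τ q' - τ q|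
  D : ℕ → ℕ → (ℝ → ℂ) × ℝ
  hD : ∀ n, 1 ≤ n → ∀ i, Good n (fun i => w (dq i)) (fun i => n + τ (dq i))
    (fun i => disc n (da i)) (fun i => sg (dk i) (dq i)) i (D n)
  Λ : Set (ℕ → ℕ)
  r : Λ → Λ → Prop
  f : Λ → ℕ → ℕ
  wo : IsWellOrder Λ r
  grow : ∀ a b, r a b → ∀ᶠ n in atTop, Phi n (f a n) ≤ f b n
  nomax : ∀ a, ∃ b, r a b
  unb : ∀ S : Set ℕ, S.Infinite → ∀ q : ℕ → ℕ, ∃ a, ∃ᶠ n in atTop, n ∈ S ∧ q n ≤ f a n
  ι : Λ × (Set ℕ × (ℕ → ℕ)) → ℝ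
  ιinj : Function.Injective ι
  ιmem : ∀ b, 0 ≤ ι b ∧ ι b ≤ 1

open Cardinal in
theorem exists_homes (Λ : Set (ℕ → ℕ)) :
    ∃ ι : Λ × (Set ℕ × (ℕ → ℕ)) → ℝ, Function.Injective ι ∧ ∀ b, 0 ≤ ι b ∧ ι b ≤ 1 := by
  have h1 : #Λ ≤ 𝔠 := by
    refine (mk_set_le Λ).trans ?_
    simp
  have h2 : #(Λ × (Set ℕ × (ℕ → ℕ))) ≤ #(Icc (0 : ℝ) 1) := by
    rw [mk_Icc_real zero_lt_one]
    have e1 : #(Λ × (Set ℕ × (ℕ → ℕ))) = #Λ * #(Set ℕ × (ℕ → ℕ)) := by simp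
    have e2 : #(Set ℕ × (ℕ → ℕ)) = 𝔠 := by
      have : #(Set ℕ × (ℕ → ℕ)) = #(Set ℕ) * #(ℕ → ℕ) := by simp
      rw [this]
      simp
    rw [e1, e2]
    calc #Λ * 𝔠 ≤ 𝔠 * 𝔠 := by gcongr
      _ = 𝔠 := continuum_mul_self
  obtain ⟨e⟩ := (Cardinal.le_def _ _).mp h2
  refine ⟨fun b => (e b).1, ?_, fun b => ⟨(e b).2.1, (e b).2.2⟩⟩
  intro a b hab
  exact e.injective (Subtype.ext hab)

theorem exists_sg (τ : ℕ → ℝ) (hτ : Function.Injective τ) (k q : ℕ) :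
    ∃ s : ℝ, 0 < s ∧ ∀ q', q' ≤ k → q' ≠ q → s ≤ |τ q' - τ q| := by
  classical
  obtain ⟨δ, h0, -, h2⟩ := exists_small_delta (k + 1)
    (fun q' => if q' = q then 1 else |τ q' - τ q|)
    (by
      intro j _
      split_ifs with h
      · exact zero_lt_one
      · exact abs_pos.mpr (sub_ne_zero.mpr fun h' => h (hτ h')))
    (zero_lt_one (α := ℝ))
  refine ⟨δ, h0, fun q' hq' hne => ?_⟩
  have := h2 q' (Nat.lt_succ_of_le hq')
  rwa [if_neg hne] at this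

theorem exists_setup : Nonempty Setup := by
  obtain ⟨w, τ, hτinj, hτmem, hdense⟩ := exists_dense_points
  choose sg hsgpos hsgle using exists_sg τ hτinj
  obtain ⟨Λ, r, f, wo, grow, nomax, unb⟩ := exists_scale Phi Phi_mono le_Phi
  obtain ⟨ι, ιinj, ιmem⟩ := exists_homes Λ
  have hstock : ∀ n : ℕ, ∃ D : ℕ → (ℝ → ℂ) × ℝ, 1 ≤ n → ∀ i,
      Good n (fun i => w (dq i)) (fun i => n + τ (dq i))
        (fun i => disc n (da i)) (fun i => sg (dk i) (dq i)) i D := by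
    intro n
    by_cases hn : 1 ≤ n
    · obtain ⟨D, hD⟩ := exists_stock n hn (fun i => w (dq i)) (fun i => n + τ (dq i))
        (fun i => disc n (da i)) (fun i => sg (dk i) (dq i))
        (fun i => by
          obtain ⟨h1, h2⟩ := hτmem (dq i)
          exact ⟨by linarith, by linarith⟩)
        (fun i => disc_mem n _) (fun i => hsgpos _ _)
      exact ⟨D, fun _ => hD⟩
    · exact ⟨fun _ => (fun _ => 0, 0), fun h => absurd h hn⟩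
  choose D hD using hstock
  exact ⟨{
    w := w, τ := τ, τmem := hτmem, dense := hdense, sg := sg, sgle := hsgle,
    D := D, hD := hD, Λ := Λ, r := r, f := f, wo := wo, grow := grow, nomax := nomax,
    unb := unb, ι := ι, ιinj := ιinj, ιmem := ιmem }⟩

end Pool.Agent.Helper761
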