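import Mathlib
import Pool.Agent.Helper761.Setup

set_option autoImplicit false

open Set Filter Topology

namespace Pool.Agent.Helper761

theorem dist_real (a b : ℝ) : dist (a : ℂ) (b : ℂ) = |a - b| := by
  rw [dist_eq_norm, ← Complex.ofReal_sub, Complex.norm_real, Real.norm_eq_abs]

namespace Setup

variable (E : Setup)

/-- index set of all candidates: stage, domain, sequence of points -/
abbrev B : Type := E.Λ × (Set ℕ × (ℕ → ℕ))

/-- type of the home of `b` in slab `n` -/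
noncomputable def ty (b : E.B) (n : ℕ) : ℕ := ⌊E.ι b * ((n : ℝ) + 1)⌋₊

/-- index of the travelling ball used by `b` in slab `n` -/
noncomputable def idx (b : E.B) (n : ℕ) : ℕ := tri (E.f b.1 n) (b.2.2 n) (E.ty b n)

/-- slabs in which `b` travels -/
def Sl (b : E.B) (n : ℕ) : Prop := n ∈ b.2.1 ∧ 1 ≤ n

noncomputable def X (b : E.B) (n : ℕ) : ℝ := disc n (E.ty b n)

noncomputable def cen (b : E.B) (n : ℕ) : ℝ → ℂ := (E.D n (E.idx b n)).1

noncomputable def del (b : E.B) (n : ℕ) : ℝ := (E.D n (E.idx b n)).2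

noncomputable def rr (b : E.B) (n : ℕ) (s : ℝ) : ℝ := rad n (E.idx b n) (E.del b n) s

/-- the target point of `b` in slab `n` -/
noncomputable def W (b : E.B) (n : ℕ) : ℂ := E.w (b.2.2 n)

noncomputable def T (b : E.B) (n : ℕ) : ℝ := n + E.τ (b.2.2 n)

theorem good (b : E.B) {n : ℕ} (hn : 1 ≤ n) :
    Good n (fun i => E.w (dq i)) (fun i => n + E.τ (dq i))
    (fun i => disc n (da i)) (fun i => E.sg (dk i) (dq i)) (E.idx b n) (E.D n) := E.hD n hn _

theorem T_mem (b : E.B) (n : ℕ) : (n : ℝ) ≤ E.T b n ∧ E.T b n ≤ n + 1 := by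
  obtain ⟨h1, h2⟩ := E.τmem (b.2.2 n)
  unfold T
  exact ⟨by linarith, by linarith⟩

theorem dk_idx (b : E.B) (n : ℕ) : dk (E.idx b n) = E.f b.1 n := dk_tri _ _ _
theorem dq_idx (b : E.B) (n : ℕ) : dq (E.idx b n) = b.2.2 n := dq_tri _ _ _
theorem da_idx (b : E.B) (n : ℕ) : da (E.idx b n) = E.ty b n := da_tri _ _ _

theorem cen_cont (b : E.B) {n : ℕ} (hn : 1 ≤ n) : Continuous (E.cen b n) := (E.good b hn).cont

theorem cen_hit (b : E.B) {n : ℕ} (hn : 1 ≤ n) : E.cen b n (E.T b n) = E.W b n := by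
  have := (E.good b hn).hit
  rw [E.dq_idx] at this
  exact this

theorem cen_home (b : E.B) {n : ℕ} (hn : 1 ≤ n) (s : ℝ)
    (hs : E.sg (E.f b.1 n) (b.2.2 n) ≤ |s - E.T b n|) : E.cen b n s = (E.X b n : ℂ) := by
  have := (E.good b hn).home s
  rw [E.dq_idx, E.dk_idx, E.da_idx] at this
  exact this hs

theorem chi_T (b : E.B) {n : ℕ} (hn : 1 ≤ n) : chi n (E.del b n) (E.T b n) = 0 := by
  have := (E.good b hn).chi0
  rw [E.dq_idx] at this
  exact this

theorem cen_far (b : E.B) {n : ℕ} (hn : 1 ≤ n) (s ξ : ℝ) (h0 : 0 ≤ ξ) (h1 : ξ ≤ 1) :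
    min (min (dist (E.W b n) (ξ : ℂ)) 1) |E.X b n - ξ| - 1 / ((n : ℝ) + 1)
      ≤ dist (E.cen b n s) (ξ : ℂ) := by
  have := (E.good b hn).far s ξ h0 h1
  rw [E.dq_idx, E.da_idx] at this
  exact this

theorem cen_sep (b b' : E.B) {n : ℕ} (hn : 1 ≤ n) (h : E.idx b n < E.idx b' n) (M : ℝ)
    (hM1 : 2 ≤ M) (hM2 : M ≤ n)
    (h1 : M * E.rr b n (E.T b' n) ≤ dist (E.W b' n) (E.cen b n (E.T b' n)))
    (h2 : M / n ≤ dist (E.W b n) (E.X b' n : ℂ)) (h3 : M / n ≤ |E.X b n - E.X b' n|)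
    (s : ℝ) (hs1 : (n : ℝ) ≤ s) (hs2 : s ≤ n + 1) :
    (M / 4 - 2) * max (E.rr b' n s) (E.rr b n s) ≤ dist (E.cen b' n s) (E.cen b n s) := by
  have := (E.good b' hn).sep (E.idx b n) h M hM1 hM2
  rw [E.dq_idx, E.dq_idx, E.da_idx, E.da_idx] at this
  exact this h1 h2 h3 s hs1 hs2

open Classical in
/-- centre of the ribbon `b`, slab by slab -/
noncomputable def cs (b : E.B) (n : ℕ) (s : ℝ) : ℂ :=
  if E.Sl b n then E.cen b n s + (chi n (E.del b n) s : ℂ) * ((E.ι b : ℂ) - (E.X b n : ℂ))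
  else (E.ι b : ℂ)

open Classical in
/-- radius of the ribbon `b`, slab by slab -/
noncomputable def rs (b : E.B) (n : ℕ) (s : ℝ) : ℝ :=
  if E.Sl b n then E.rr b n s else Rad s

theorem cs_in {b : E.B} {n : ℕ} (h : E.Sl b n) (s : ℝ) :
    E.cs b n s = E.cen b n s + (chi n (E.del b n) s : ℂ) * ((E.ι b : ℂ) - (E.X b n : ℂ)) := by
  unfold cs; rw [if_pos h]

theorem cs_out {b : E.B} {n : ℕ} (h : ¬ E.Sl b n) (s : ℝ) : E.cs b n s = (E.ι b : ℂ) := by
  unfold cs; rw [if_neg h]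

theorem rs_in {b : E.B} {n : ℕ} (h : E.Sl b n) (s : ℝ) : E.rs b n s = E.rr b n s := by
  unfold rs; rw [if_pos h]

theorem rs_out {b : E.B} {n : ℕ} (h : ¬ E.Sl b n) (s : ℝ) : E.rs b n s = Rad s := by
  unfold rs; rw [if_neg h]

theorem cs_cont (b : E.B) (n : ℕ) : Continuous (E.cs b n) := by
  by_cases h : E.Sl b n
  · have : E.cs b n = fun s => E.cen b n s +
        (chi n (E.del b n) s : ℂ) * ((E.ι b : ℂ) - (E.X b n : ℂ)) := by
      funext s; exact E.cs_in h s
    rw [this]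
    exact (E.cen_cont b h.2).add
      ((Complex.continuous_ofReal.comp (chi_continuous n _)).mul continuous_const)
  · have : E.cs b n = fun _ => (E.ι b : ℂ) := by
      funext s; exact E.cs_out h s
    rw [this]
    exact continuous_const

theorem rs_cont (b : E.B) (n : ℕ) : Continuous (E.rs b n) := by
  by_cases h : E.Sl b n
  · have : E.rs b n = fun s => E.rr b n s := by
      funext s; exact E.rs_in h s
    rw [this]
    exact rad_continuous n _ _
  · have : E.rs b n = Rad := by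
      funext s; exact E.rs_out h s
    rw [this]
    exact Rad_continuous

theorem shrink (b : E.B) {n : ℕ} (hn : 1 ≤ n) (s : ℝ) (hs : 0 < chi n (E.del b n) s) :
    E.cen b n s = (E.X b n : ℂ) := by
  have := (E.good b hn).shrink s
  rw [E.da_idx] at this
  exact this hs

theorem cs_left (b : E.B) (n : ℕ) : E.cs b n n = (E.ι b : ℂ) := by
  by_cases h : E.Sl b n
  · rw [E.cs_in h, chi_left, E.shrink b h.2 n (by rw [chi_left]; exact one_pos)]
    push_cast
    ring
  · exact E.cs_out h _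

theorem cs_right (b : E.B) (n : ℕ) : E.cs b n (n + 1) = (E.ι b : ℂ) := by
  by_cases h : E.Sl b n
  · rw [E.cs_in h, chi_right, E.shrink b h.2 (n + 1) (by rw [chi_right]; exact one_pos)]
    push_cast
    ring
  · exact E.cs_out h _

theorem rs_left (b : E.B) (n : ℕ) : E.rs b n n = Rad n := by
  by_cases h : E.Sl b n
  · rw [E.rs_in h]; exact rad_left
  · exact E.rs_out h _

theorem rs_right (b : E.B) (n : ℕ) : E.rs b n (n + 1) = Rad (n + 1) := by
  by_cases h : E.Sl b n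
  · rw [E.rs_in h]; exact rad_right
  · exact E.rs_out h _

theorem rs_pos (b : E.B) (n : ℕ) {s : ℝ} (hs : s ≤ n + 1) : 0 < E.rs b n s := by
  by_cases h : E.Sl b n
  · rw [E.rs_in h]; exact rad_pos h.2 _ _ hs
  · rw [E.rs_out h]; exact Rad_pos s

theorem rs_le (b : E.B) {n : ℕ} (hn : 1 ≤ n) {s : ℝ} (h1 : (n : ℝ) ≤ s) (hs : s ≤ n + 1) :
    E.rs b n s ≤ 1 / n := by
  by_cases h : E.Sl b n
  · rw [E.rs_in h]; exact rad_le h.2 _ _ h1 hs
  · rw [E.rs_out h]; exact Rad_le hn h1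

theorem X_close (b : E.B) (n : ℕ) : |E.ι b - E.X b n| ≤ 1 / ((n : ℝ) + 1) :=
  disc_close (E.ιmem b).1 (E.ιmem b).2

theorem dist_cs_cen {b : E.B} {n : ℕ} (h : E.Sl b n) {s : ℝ} (hs : s ≤ n + 1) :
    dist (E.cs b n s) (E.cen b n s) ≤ E.rs b n s := by
  rw [E.cs_in h, E.rs_in h, dist_eq_norm, add_sub_cancel_left, norm_mul, ← Complex.ofReal_sub,
    Complex.norm_real, Complex.norm_real, Real.norm_eq_abs, Real.norm_eq_abs,
    abs_of_nonneg (chi_nonneg _ _ _)]
  exact (mul_le_mul_of_nonneg_left (E.X_close b n) (chi_nonneg _ _ _)).trans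
    (chi_mul_le_rad h.2 _ _ hs)

theorem cs_hit {b : E.B} {n : ℕ} (h : E.Sl b n) : E.cs b n (E.T b n) = E.W b n := by
  rw [E.cs_in h, E.chi_T b h.2, E.cen_hit b h.2]
  simp

/-- the points of `b` are far from the home of `b'` -/
def Far (b b' : E.B) : Prop :=
  ∀ K : ℝ, ∀ᶠ n : ℕ in atTop, E.Sl b n → K / n ≤ dist (E.W b n) (E.ι b' : ℂ)

/-- the ribbon `b'` does not capture the points of `b` -/
def NC (b' b : E.B) : Prop :=
  ∀ K : ℝ, ∀ᶠ n : ℕ in atTop, E.Sl b n →
    K * E.rs b' n (E.T b n) ≤ dist (E.W b n) (E.cs b' n (E.T b n))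

def C1 (b : E.B) : Prop :=
  b.2.1.Infinite ∧ (∀ n ∈ b.2.1, b.2.2 n ≤ E.f b.1 n) ∧
    ∀ b' : E.B, b' ≠ b → ¬ E.r b'.1 b.1 → E.Far b b'

/-- the well-order of the candidates -/
def Lx (b b' : E.B) : Prop := Prod.Lex E.r WellOrderingRel b b'

theorem Lx_wo : IsWellOrder E.B E.Lx := by
  have := E.wo
  have : IsWellOrder E.B (Prod.Lex E.r (WellOrderingRel (α := Set ℕ × (ℕ → ℕ)))) := inferInstance
  exact this

theorem exists_acc : ∃ A : E.B → Prop, ∀ b, A b ↔ (E.C1 b ∧ ∀ b', E.Lx b' b → A b' → E.NC b' b) := by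
  have hwf : WellFounded E.Lx := E.Lx_wo.wf
  let st : ∀ b : E.B, (∀ b', E.Lx b' b → Prop) → Prop := fun b ih =>
    E.C1 b ∧ ∀ b' (h : E.Lx b' b), ih b' h → E.NC b' b
  refine ⟨hwf.fix st, fun b => ?_⟩
  rw [hwf.fix_eq st b]

theorem eventually_div_le (K : ℝ) {c : ℝ} (hc : 0 < c) : ∀ᶠ n : ℕ in atTop, K / n ≤ c := by
  have h1 : Tendsto (fun n : ℕ => K / (n : ℝ)) atTop (𝓝 0) :=
    tendsto_const_div_atTop_nhds_zero_nat K
  exact h1.eventually (ge_mem_nhds hc)

theorem eventually_ge (K : ℝ) : ∀ᶠ n : ℕ in atTop, K ≤ n :=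
  tendsto_natCast_atTop_atTop.eventually (eventually_ge_atTop K)

/-- Both travel, `b` uses a ball constructed earlier. -/
theorem AD_EE (b b' : E.B) {n : ℕ} (hS : E.Sl b n) (hS' : E.Sl b' n)
    (hidx : E.idx b n < E.idx b' n) (K : ℝ) (hK : 0 ≤ K) (hn : 4 * K + 16 ≤ n)
    (h1 : (4 * K + 16 + 1) * E.rs b n (E.T b' n) ≤ dist (E.W b' n) (E.cs b n (E.T b' n)))
    (h2 : (4 * K + 16 + 1) / n ≤ dist (E.W b n) (E.ι b' : ℂ))
    (h3 : (4 * K + 16 + 2) / n ≤ |E.ι b - E.ι b'|) (s : ℝ) (hs1 : (n : ℝ) ≤ s)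
    (hs2 : s ≤ n + 1) :
    K * max (E.rs b n s) (E.rs b' n s) ≤ dist (E.cs b n s) (E.cs b' n s) := by
  have hn1 : 1 ≤ n := hS.2
  have hn0 : (0 : ℝ) < n := by
    have : (1 : ℝ) ≤ n := by exact_mod_cast hn1
    linarith
  have hinv : 1 / ((n : ℝ) + 1) ≤ 1 / n := one_div_le_one_div_of_le hn0 (by linarith)
  obtain ⟨hT1, hT2⟩ := E.T_mem b' n
  have g1 : (4 * K + 16) * E.rr b n (E.T b' n) ≤ dist (E.W b' n) (E.cen b n (E.T b' n)) := by
    have e1 := E.dist_cs_cen hS hT2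
    have e2 : dist (E.W b' n) (E.cs b n (E.T b' n)) ≤ dist (E.W b' n) (E.cen b n (E.T b' n))
        + dist (E.cen b n (E.T b' n)) (E.cs b n (E.T b' n)) := dist_triangle _ _ _
    rw [dist_comm (E.cen b n (E.T b' n)) (E.cs b n (E.T b' n))] at e2
    rw [← E.rs_in hS]
    linarith
  have g2 : (4 * K + 16) / n ≤ dist (E.W b n) (E.X b' n : ℂ) := by
    have e1 := E.X_close b' n
    have e2 : dist (E.W b n) (E.ι b' : ℂ) ≤ dist (E.W b n) (E.X b' n : ℂ)
        + dist (E.X b' n : ℂ) (E.ι b' : ℂ) := dist_triangle _ _ _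
    rw [dist_real, abs_sub_comm] at e2
    rw [add_div (4 * K + 16)] at h2
    linarith
  have g3 : (4 * K + 16) / n ≤ |E.X b n - E.X b' n| := by
    have e1 := E.X_close b' n
    have e2 := E.X_close b n
    have e3 : |E.ι b - E.ι b'| ≤ |E.ι b - E.X b n| + |E.X b n - E.X b' n|
        + |E.X b' n - E.ι b'| := by
      calc |E.ι b - E.ι b'| = |(E.ι b - E.X b n) + (E.X b n - E.X b' n)
            + (E.X b' n - E.ι b')| := by ring_nf
        _ ≤ |(E.ι b - E.X b n) + (E.X b n - E.X b' n)| + |E.X b' n - E.ι b'| := abs_add_le _ _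
        _ ≤ _ := by
          have := abs_add_le (E.ι b - E.X b n) (E.X b n - E.X b' n)
          linarith
    rw [abs_sub_comm (E.X b' n)] at e3
    have e4 : (4 * K + 16 + 2) / (n : ℝ) = (4 * K + 16) / n + 2 * (1 / n) := by ring
    rw [e4] at h3
    linarith
  have g4 := E.cen_sep b b' hn1 hidx (4 * K + 16) (by linarith) hn g1 g2 g3 s hs1 hs2
  have e1 := E.dist_cs_cen hS hs2
  have e2 := E.dist_cs_cen hS' hs2
  have e3 : dist (E.cen b' n s) (E.cen b n s) ≤ dist (E.cen b' n s) (E.cs b' n s)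
      + dist (E.cs b' n s) (E.cs b n s) + dist (E.cs b n s) (E.cen b n s) :=
    dist_triangle4 _ _ _ _
  rw [dist_comm (E.cen b' n s) (E.cs b' n s), dist_comm (E.cs b' n s) (E.cs b n s)] at e3
  rw [← E.rs_in hS, ← E.rs_in hS', max_comm] at g4
  have e4 := le_max_left (E.rs b n s) (E.rs b' n s)
  have e5 := le_max_right (E.rs b n s) (E.rs b' n s)
  have e6 : ((4 * K + 16) / 4 - 2) * max (E.rs b n s) (E.rs b' n s)
      = K * max (E.rs b n s) (E.rs b' n s) + 2 * max (E.rs b n s) (E.rs b' n s) := by ring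
  rw [e6] at g4
  linarith

/-- `b` travels, `b'` stays at home. -/
theorem AD_EP (b b' : E.B) {n : ℕ} (hS : E.Sl b n) (hS' : ¬ E.Sl b' n) (K : ℝ)
    (hn : K + 2 ≤ n) (hK : 0 ≤ K)
    (h2 : (K + 2) / n ≤ dist (E.W b n) (E.ι b' : ℂ))
    (h3 : (K + 3) / n ≤ |E.ι b - E.ι b'|) (s : ℝ) (hs1 : (n : ℝ) ≤ s)
    (hs2 : s ≤ n + 1) :
    K * max (E.rs b n s) (E.rs b' n s) ≤ dist (E.cs b n s) (E.cs b' n s) := by
  have hn1 : 1 ≤ n := hS.2
  have hn0 : (0 : ℝ) < n := by
    have : (1 : ℝ) ≤ n := by exact_mod_cast hn1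
    linarith
  have hinv : 1 / ((n : ℝ) + 1) ≤ 1 / n := one_div_le_one_div_of_le hn0 (by linarith)
  rw [E.cs_out hS']
  have g1 := E.cen_far b hn1 s (E.ι b') (E.ιmem b').1 (E.ιmem b').2
  have g2 : (K + 2) / n ≤ min (min (dist (E.W b n) (E.ι b' : ℂ)) 1) |E.X b n - E.ι b'| := by
    refine le_min (le_min h2 ?_) ?_
    · rw [div_le_one hn0]; exact hn
    · have e1 := E.X_close b n
      have e3 : |E.ι b - E.ι b'| ≤ |E.ι b - E.X b n| + |E.X b n - E.ι b'| := by
        calc |E.ι b - E.ι b'| = |(E.ι b - E.X b n) + (E.X b n - E.ι b')| := by ring_nf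
          _ ≤ _ := abs_add_le _ _
      have e4 : (K + 3) / (n : ℝ) = (K + 2) / n + 1 / n := by ring
      rw [e4] at h3
      linarith
  have e1 := E.dist_cs_cen hS hs2
  have e2 : dist (E.cen b n s) (E.ι b' : ℂ) ≤ dist (E.cen b n s) (E.cs b n s)
      + dist (E.cs b n s) (E.ι b' : ℂ) := dist_triangle _ _ _
  rw [dist_comm (E.cen b n s) (E.cs b n s)] at e2
  have e3 := E.rs_le b hn1 hs1 hs2
  have e4 := E.rs_le b' hn1 hs1 hs2
  have e5 : K * max (E.rs b n s) (E.rs b' n s) ≤ K * (1 / n) :=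
    mul_le_mul_of_nonneg_left (max_le e3 e4) hK
  have e6 : (K + 2) / (n : ℝ) = K * (1 / n) + 2 * (1 / n) := by ring
  rw [e6] at g2
  linarith

theorem T_eq_of (b b' : E.B) {n : ℕ} (h : b.2.2 n = b'.2.2 n) : E.T b n = E.T b' n := by
  unfold T; rw [h]

theorem W_eq_of (b b' : E.B) {n : ℕ} (h : b.2.2 n = b'.2.2 n) : E.W b n = E.W b' n := by
  unfold W; rw [h]

/-- Accepted ribbons are almost disjoint. -/
theorem AD_lt {A : E.B → Prop} (hA : ∀ b, A b ↔ (E.C1 b ∧ ∀ b', E.Lx b' b → A b' → E.NC b' b))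
    {b b' : E.B} (hb : A b) (hb' : A b') (hlt : E.Lx b b') (K : ℝ) (hK : 0 ≤ K) :
    ∀ᶠ n : ℕ in atTop, ∀ s : ℝ, (n : ℝ) ≤ s → s ≤ n + 1 →
      K * max (E.rs b n s) (E.rs b' n s) ≤ dist (E.cs b n s) (E.cs b' n s) := by
  have := E.wo
  have := E.Lx_wo
  obtain ⟨hC, -⟩ := (hA b).mp hb
  obtain ⟨hC', hNC'⟩ := (hA b').mp hb'
  have hNC : E.NC b b' := hNC' b hlt hb
  have hne : b ≠ b' := fun h => by
    rw [h] at hlt
    exact irrefl_of E.Lx b' hlt
  have hιne : E.ι b ≠ E.ι b' := fun h => hne (E.ιinj h)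
  have hιpos : 0 < |E.ι b - E.ι b'| := abs_pos.mpr (sub_ne_zero.mpr hιne)
  have hcase : E.r b.1 b'.1 ∨ b.1 = b'.1 := by
    have : Prod.Lex E.r WellOrderingRel b b' := hlt
    rw [Prod.lex_def] at this
    rcases this with h | h
    · exact Or.inl h
    · exact Or.inr h.1
  have hnr : ¬ E.r b'.1 b.1 := by
    rcases hcase with h | h
    · exact asymm_of E.r h
    · rw [h]; exact irrefl_of E.r b'.1
  have hFar : E.Far b b' := hC.2.2 b' hne.symm hnr
  filter_upwards [eventually_ge (4 * K + 16), hNC (4 * K + 16 + 1), hFar (4 * K + 20),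
    eventually_div_le (4 * K + 16 + 2) hιpos, hNC 1, hNC (2 * (K + 2)),
    eventually_ge_atTop 1,
    (show ∀ᶠ n : ℕ in atTop, E.r b.1 b'.1 → Phi n (E.f b.1 n) ≤ E.f b'.1 n by
      by_cases h : E.r b.1 b'.1
      · filter_upwards [E.grow _ _ h] with n hn _ using hn
      · exact Eventually.of_forall fun n h' => absurd h' h),
    (show ∀ᶠ n : ℕ in atTop, b.1 = b'.1 → E.Sl b' n →
        (4 * K + 16 + 1) / n ≤ dist (E.W b' n) (E.ι b : ℂ) by
      by_cases h : b.1 = b'.1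
      · have : E.Far b' b := hC'.2.2 b hne (by rw [h]; exact irrefl_of E.r b'.1)
        filter_upwards [this (4 * K + 16 + 1)] with n hn _ using hn
      · exact Eventually.of_forall fun n h' => absurd h' h)]
    with n hn1 hnc hfar hι hnc1 hnc2 hnone hgrow hfar'
  intro s hs1 hs2
  have hn0 : (0 : ℝ) < n := by
    have : (1 : ℝ) ≤ n := by exact_mod_cast hnone
    linarith
  have hstep : ∀ a c : ℝ, a ≤ c → a / (n : ℝ) ≤ c / n := fun a c h =>
    div_le_div_of_nonneg_right h hn0.le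
  by_cases hS : E.Sl b n
  · by_cases hS' : E.Sl b' n
    · -- both travel
      rcases hcase with hr | heq
      · have hlt' : E.idx b n < E.idx b' n := by
          have h1 : E.idx b n < Phi n (E.f b.1 n) :=
            tri_lt_Phi (hC.2.1 n hS.1) (floor_le_type (E.ιmem b).2)
          have h2 : E.f b'.1 n ≤ E.idx b' n := le_tri _ _ _
          have h3 := hgrow hr
          omega
        exact E.AD_EE b b' hS hS' hlt' K hK hn1 (hnc hS')
          ((hstep _ _ (by linarith)).trans (hfar hS)) hι s hs1 hs2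
      · have hq : b.2.2 n ≠ b'.2.2 n := by
          intro hq
          have h1 := hnc1 hS'
          rw [← E.T_eq_of b b' hq, ← E.W_eq_of b b' hq, E.cs_hit hS, dist_self, one_mul] at h1
          exact absurd (E.rs_pos b n (E.T_mem b n).2) (not_lt.mpr h1)
        rcases Nat.lt_or_ge (E.idx b n) (E.idx b' n) with hlt' | hge
        · exact E.AD_EE b b' hS hS' hlt' K hK hn1 (hnc hS')
            ((hstep _ _ (by linarith)).trans (hfar hS)) hι s hs1 hs2
        · have hlt' : E.idx b' n < E.idx b n := by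
            refine lt_of_le_of_ne hge ?_
            intro h
            apply hq
            rw [← E.dq_idx b n, ← E.dq_idx b' n, h]
          rw [max_comm, dist_comm]
          refine E.AD_EE b' b hS' hS hlt' K hK hn1 ?_ (hfar' heq hS') (by rwa [abs_sub_comm])
            s hs1 hs2
          -- at the time of `b`, the ribbon `b'` is at home
          obtain ⟨hT1, hT2⟩ := E.T_mem b n
          have hhome : E.cen b' n (E.T b n) = (E.X b' n : ℂ) := by
            apply E.cen_home b' hS'.2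
            have h1 := E.sgle (E.f b'.1 n) (b'.2.2 n) (b.2.2 n)
              (by rw [← heq]; exact hC.2.1 n hS.1) hq
            have h2 : E.T b n - E.T b' n = E.τ (b.2.2 n) - E.τ (b'.2.2 n) := by
              unfold T; ring
            rw [h2]
            exact h1
          have h3 := E.dist_cs_cen hS' hT2
          rw [hhome] at h3
          have h4 := E.X_close b' n
          rw [← dist_real] at h4
          have h5 := hfar hS
          have h6 : dist (E.W b n) (E.ι b' : ℂ) ≤ dist (E.W b n) (E.cs b' n (E.T b n))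
              + dist (E.cs b' n (E.T b n)) (E.X b' n : ℂ) + dist (E.X b' n : ℂ) (E.ι b' : ℂ) :=
            dist_triangle4 _ _ _ _
          rw [dist_comm (E.X b' n : ℂ) (E.ι b' : ℂ)] at h6
          have hinv : 1 / ((n : ℝ) + 1) ≤ 1 / n := one_div_le_one_div_of_le hn0 (by linarith)
          have h7 := E.rs_le b' hnone hT1 hT2
          have h8 : (4 * K + 16 + 1) * E.rs b' n (E.T b n) ≤ (4 * K + 16 + 1) * (1 / n) :=
            mul_le_mul_of_nonneg_left h7 (by linarith)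
          have h9 : (4 * K + 20) / (n : ℝ) = (4 * K + 16 + 1) * (1 / n) + 3 * (1 / n) := by ring
          have h10 : 0 < 1 / (n : ℝ) := by positivity
          rw [h9] at h5
          linarith
    · -- `b` travels, `b'` at home
      refine E.AD_EP b b' hS hS' K (by linarith) hK ((hstep _ _ (by linarith)).trans (hfar hS))
        ((hstep _ _ (by linarith)).trans hι) s hs1 hs2
  · by_cases hS' : E.Sl b' n
    · rw [max_comm, dist_comm]
      refine E.AD_EP b' b hS' hS K (by linarith) hK ?_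
        (by rw [abs_sub_comm]; exact (hstep _ _ (by linarith)).trans hι) s hs1 hs2
      have h1 := hnc2 hS'
      rw [E.cs_out hS, E.rs_out hS] at h1
      obtain ⟨hT1, hT2⟩ := E.T_mem b' n
      have h2 := le_Rad (n := n) hT2
      have h3 : 1 / (2 * (n : ℝ)) ≤ 1 / ((n : ℝ) + 1) :=
        one_div_le_one_div_of_le (by linarith) (by
          have : (1 : ℝ) ≤ n := by exact_mod_cast hnone
          linarith)
      have h4 : 2 * (K + 2) * (1 / (2 * (n : ℝ))) ≤ 2 * (K + 2) * Rad (E.T b' n) :=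
        mul_le_mul_of_nonneg_left (h3.trans h2) (by linarith)
      have h5 : 2 * (K + 2) * (1 / (2 * (n : ℝ))) = (K + 2) / n := by
        field_simp
      linarith
    · -- both at home
      rw [E.cs_out hS, E.cs_out hS', dist_real]
      refine le_trans ?_ hι
      have h1 := E.rs_le b hnone hs1 hs2
      have h2 := E.rs_le b' hnone hs1 hs2
      calc K * max (E.rs b n s) (E.rs b' n s) ≤ K * (1 / n) :=
            mul_le_mul_of_nonneg_left (max_le h1 h2) hK
        _ = K / n := by ring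
        _ ≤ _ := hstep _ _ (by linarith)

end Setup

end Pool.Agent.Helper761
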