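import Mathlib
import Pool.Agent.Helper761.Comb

set_option autoImplicit false

open Set Filter Topology

namespace Pool.Agent.Helper761

namespace Setup

variable (E : Setup)

theorem frequently_mem_iff (S : Set ℕ) : (∃ᶠ n in atTop, n ∈ S) ↔ S.Infinite := by
  rw [Nat.frequently_atTop_iff_infinite]
  rfl

/-- an accepted ribbon captures its own points -/
theorem self_cap (b : E.B) {S : Set ℕ} {q : ℕ → ℕ} (hb2 : b.2.2 = q) (hinf : b.2.1.Infinite)
    (hsub : b.2.1 ⊆ S) :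
    ∃ K : ℝ, ∃ᶠ n : ℕ in atTop, n ∈ S ∧
      dist (E.w (q n)) (E.cs b n (n + E.τ (q n))) ≤ K * E.rs b n (n + E.τ (q n)) := by
  refine ⟨1, ?_⟩
  have h1 : ∃ᶠ n : ℕ in atTop, n ∈ b.2.1 := (frequently_mem_iff _).mpr hinf
  refine (h1.and_eventually (eventually_ge_atTop 1)).mono ?_
  rintro n ⟨hn1, hn2⟩
  refine ⟨hsub hn1, ?_⟩
  have hS : E.Sl b n := ⟨hn1, hn2⟩
  have h2 : E.cs b n (n + E.τ (q n)) = E.w (q n) := by
    have := E.cs_hit hS
    unfold T W at this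
    rwa [hb2] at this
  rw [h2, dist_self, one_mul]
  have := E.T_mem b n
  unfold T at this
  rw [hb2] at this
  exact (E.rs_pos b n this.2).le

theorem CAP_points {A : E.B → Prop}
    (hA : ∀ b, A b ↔ (E.C1 b ∧ ∀ b', E.Lx b' b → A b' → E.NC b' b))
    (S : Set ℕ) (hS : S.Infinite) (q : ℕ → ℕ) :
    ∃ b, A b ∧ ∃ K : ℝ, ∃ᶠ n : ℕ in atTop, n ∈ S ∧
      dist (E.w (q n)) (E.cs b n (n + E.τ (q n))) ≤ K * E.rs b n (n + E.τ (q n)) := by
  by_contra hcon
  push Not at hcon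
  have hwo := E.wo
  -- nothing captures any restriction
  have hNC : ∀ b : E.B, b.2.2 = q → b.2.1 ⊆ S → ∀ b', A b' → E.NC b' b := by
    intro b hb2 hsub b' hb' K
    have h1 := hcon b' hb' K
    filter_upwards [h1] with n hn hSl
    have h2 := hn (hsub hSl.1)
    unfold T W
    rw [hb2]
    exact h2.le
  have hno : ∀ b : E.B, b.2.2 = q → b.2.1 ⊆ S → ¬ E.C1 b := by
    intro b hb2 hsub hC
    have hAb : A b := (hA b).mpr ⟨hC, fun b' _ hb' => hNC b hb2 hsub b' hb'⟩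
    obtain ⟨K, hK⟩ := E.self_cap b hb2 hC.1 hsub
    refine hK ?_
    filter_upwards [hcon b hAb K] with n hn
    rintro ⟨h1, h2⟩
    exact absurd h2 (not_le.mpr (hn h1))
  obtain ⟨α, hα⟩ := E.unb S hS q
  let S0 : Set ℕ := {n | n ∈ S ∧ q n ≤ E.f α n}
  let b0 : E.B := (α, (S0, q))
  have hS0 : S0.Infinite := (frequently_mem_iff S0).mp hα
  have hC0 : ¬ E.C1 b0 := hno b0 rfl (fun n hn => hn.1)
  have hbad : ∃ b' : E.B, b' ≠ b0 ∧ ¬ E.r b'.1 α ∧ ¬ E.Far b0 b' := by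
    by_contra h
    push Not at h
    exact hC0 ⟨hS0, fun n hn => hn.2, h⟩
  obtain ⟨b', -, hr', hFar'⟩ := hbad
  obtain ⟨γ, hγ⟩ := E.nomax b'.1
  have hαγ : E.r α γ := by
    rcases trichotomous_of E.r b'.1 α with h | h | h
    · exact absurd h hr'
    · rw [← h]; exact hγ
    · exact trans_of E.r h hγ
  unfold Far at hFar'
  push Not at hFar'
  obtain ⟨K, hK⟩ := hFar'
  let S1 : Set ℕ := {n | n ∈ S0 ∧ dist (E.w (q n)) (E.ι b' : ℂ) < K / n ∧ q n ≤ E.f γ n}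
  let b1 : E.B := (γ, (S1, q))
  have hS1 : S1.Infinite := by
    rw [← frequently_mem_iff]
    refine (hK.and_eventually (E.grow α γ hαγ)).mono ?_
    rintro n ⟨⟨hSl, hlt⟩, hg⟩
    refine ⟨hSl.1, hlt, ?_⟩
    exact (hSl.1.2.trans (le_Phi n _)).trans hg
  apply hno b1 rfl (fun n hn => hn.1.1)
  refine ⟨hS1, fun n hn => hn.2.2, ?_⟩
  intro b'' _ hr''
  have hne : b'' ≠ b' := by
    intro h
    rw [h] at hr''
    exact hr'' hγ
  have hpos : 0 < |E.ι b' - E.ι b''| :=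
    abs_pos.mpr (sub_ne_zero.mpr fun h => hne (E.ιinj h).symm)
  intro K''
  filter_upwards [eventually_div_le (K + K'') hpos] with n hn hSl
  have h1 : dist (E.w (q n)) (E.ι b' : ℂ) < K / n := hSl.1.2.1
  have h2 : dist (E.ι b' : ℂ) (E.ι b'' : ℂ) ≤ dist (E.ι b' : ℂ) (E.w (q n))
      + dist (E.w (q n)) (E.ι b'' : ℂ) := dist_triangle _ _ _
  rw [dist_real, dist_comm (E.ι b' : ℂ) (E.w (q n))] at h2
  have h3 : (K + K'') / (n : ℝ) = K / n + K'' / n := add_div _ _ _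
  rw [h3] at hn
  show K'' / n ≤ dist (E.w (q n)) (E.ι b'' : ℂ)
  linarith

end Setup

end Pool.Agent.Helper761
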