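import Mathlib
import Pool.Agent.Helper761.Cap

set_option autoImplicit false

open Set Filter Topology

namespace Pool.Agent.Helper761

/-- Gluing functions along the slabs `[n, n+1]`. -/
theorem continuous_of_slabs {Y : Type*} [TopologicalSpace Y] (g : ℕ → ℝ → Y)
    (hg : ∀ n, Continuous (g n)) (hmatch : ∀ n : ℕ, g n (n + 1) = g (n + 1) (n + 1)) :
    Continuous (fun s : ℝ => g ⌊s⌋₊ s) := by
  let F : ℕ → Set ℝ := fun n => if n = 0 then Iic 1 else Icc n (n + 1)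
  have hFge : ∀ n : ℕ, ∀ s ∈ F n, n = 0 ∨ (n : ℝ) ≤ s := by
    intro n s hs
    by_cases h : n = 0
    · exact Or.inl h
    · simp only [F, if_neg h] at hs
      exact Or.inr hs.1
  have hFle : ∀ n : ℕ, ∀ s ∈ F n, s ≤ n + 1 := by
    intro n s hs
    by_cases h : n = 0
    · simp only [F, if_pos h] at hs
      rw [h]; simpa using hs
    · simp only [F, if_neg h] at hs
      exact hs.2
  refine LocallyFinite.continuous (f := F) ?_ ?_ ?_ ?_
  · intro x
    obtain ⟨N, hN⟩ := exists_nat_gt x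
    refine ⟨Iio (N : ℝ), Iio_mem_nhds hN, ?_⟩
    refine (Set.finite_lt_nat (N + 1)).subset ?_
    rintro n ⟨s, hs, hsN⟩
    rcases hFge n s hs with h | h
    · rw [h]; exact Nat.succ_pos N
    · have : (n : ℝ) < N := lt_of_le_of_lt h hsN
      have h2 : n < N := by exact_mod_cast this
      show n < N + 1
      omega
  · refine eq_univ_of_forall fun s => ?_
    rw [mem_iUnion]
    refine ⟨⌊s⌋₊, ?_⟩
    by_cases h : ⌊s⌋₊ = 0
    · simp only [F, if_pos h]
      exact (Nat.floor_eq_zero.mp h).le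
    · simp only [F, if_neg h]
      have hpos : 0 ≤ s := by
        by_contra hneg
        exact h (Nat.floor_of_nonpos (not_le.mp hneg).le)
      exact ⟨Nat.floor_le hpos, (Nat.lt_floor_add_one s).le⟩
  · intro n
    by_cases h : n = 0
    · simp only [F, if_pos h]; exact isClosed_Iic
    · simp only [F, if_neg h]; exact isClosed_Icc
  · intro n
    refine (hg n).continuousOn.congr ?_
    intro s hs
    show g ⌊s⌋₊ s = g n s
    have h2 := hFle n s hs
    rcases lt_or_eq_of_le h2 with h3 | h3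
    · have : ⌊s⌋₊ = n := by
        rcases hFge n s hs with h | h
        · rw [h] at h3 ⊢
          rw [Nat.floor_eq_zero]
          simpa using h3
        · rw [Nat.floor_eq_iff (le_trans (Nat.cast_nonneg n) h)]
          exact ⟨h, h3⟩
      rw [this]
    · have : ⌊s⌋₊ = n + 1 := by
        rw [h3]
        have : ((n : ℝ) + 1) = ((n + 1 : ℕ) : ℝ) := by push_cast; ring
        rw [this, Nat.floor_natCast]
      rw [this, h3]
      exact (hmatch n).symm

theorem exists_family :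
    ∃ (I : Type) (c : I → ℝ → ℂ) (r : I → ℝ → ℝ), (∀ b, Continuous (c b)) ∧
      (∀ b, Continuous (r b)) ∧ (∀ b t, 0 < r b t) ∧
      (∀ b b', b ≠ b' → ∀ K : ℝ, ∃ T : ℝ, ∀ t, T ≤ t →
        K * max (r b t) (r b' t) ≤ dist (c b t) (c b' t)) ∧
      (∀ U : ℕ → Set (ℂ × ℝ), (∀ n, IsOpen (U n)) → (∀ n, (U n).Nonempty) →
        (∀ n : ℕ, ∀ p ∈ U n, (n : ℝ) < p.2) →
        ∃ b, ∃ K : ℝ, ∃ᶠ n in atTop, ∃ p ∈ U n, dist p.1 (c b p.2) ≤ K * r b p.2) := by
  obtain ⟨E⟩ := exists_setup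
  obtain ⟨A, hA⟩ := E.exists_acc
  refine ⟨{b : E.B // A b}, fun b s => E.cs b.1 ⌊s⌋₊ s, fun b s => E.rs b.1 ⌊s⌋₊ s,
    ?_, ?_, ?_, ?_, ?_⟩
  · intro b
    refine continuous_of_slabs (fun n => E.cs b.1 n) (fun n => E.cs_cont b.1 n) ?_
    intro n
    show E.cs b.1 n (n + 1) = E.cs b.1 (n + 1) (n + 1)
    rw [E.cs_right]
    have := E.cs_left b.1 (n + 1)
    push_cast at this
    exact this.symm
  · intro b
    refine continuous_of_slabs (fun n => E.rs b.1 n) (fun n => E.rs_cont b.1 n) ?_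
    intro n
    show E.rs b.1 n (n + 1) = E.rs b.1 (n + 1) (n + 1)
    rw [E.rs_right]
    have := E.rs_left b.1 (n + 1)
    push_cast at this
    exact this.symm
  · intro b t
    exact E.rs_pos b.1 _ (Nat.lt_floor_add_one t).le
  · intro b b' hne K
    have hne' : b.1 ≠ b'.1 := fun h => hne (Subtype.ext h)
    have main : ∀ᶠ n : ℕ in atTop, ∀ s : ℝ, (n : ℝ) ≤ s → s ≤ n + 1 →
        |K| * max (E.rs b.1 n s) (E.rs b'.1 n s) ≤ dist (E.cs b.1 n s) (E.cs b'.1 n s) := by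
      have := E.Lx_wo
      rcases trichotomous_of E.Lx b.1 b'.1 with h | h | h
      · exact E.AD_lt hA b.2 b'.2 h |K| (abs_nonneg K)
      · exact absurd h hne'
      · filter_upwards [E.AD_lt hA b'.2 b.2 h |K| (abs_nonneg K)] with n hn s hs1 hs2
        rw [max_comm, dist_comm]
        exact hn s hs1 hs2
    obtain ⟨N, hN⟩ := eventually_atTop.mp main
    refine ⟨N, fun t ht => ?_⟩
    have ht0 : (0 : ℝ) ≤ t := le_trans (Nat.cast_nonneg N) ht
    have h1 := hN ⌊t⌋₊ (Nat.le_floor ht) t (Nat.floor_le ht0) (Nat.lt_floor_add_one t).le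
    refine le_trans ?_ h1
    have hpos : 0 < E.rs b.1 ⌊t⌋₊ t := E.rs_pos b.1 _ (Nat.lt_floor_add_one t).le
    exact mul_le_mul_of_nonneg_right (le_abs_self K) (hpos.le.trans (le_max_left _ _))
  · intro U hUo hUne hUt
    have hslab : ∀ n : ℕ, ∃ m : ℕ, n ≤ m ∧ ∃ p ∈ U n, (m : ℝ) < p.2 ∧ p.2 < m + 1 := by
      intro n
      obtain ⟨⟨z, s0⟩, hz⟩ := hUne n
      have hopen : IsOpen ((fun s : ℝ => ((z, s) : ℂ × ℝ)) ⁻¹' U n) :=
        (hUo n).preimage (by fun_prop)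
      obtain ⟨s, hirr, hs⟩ := dense_irrational.exists_mem_open hopen ⟨s0, hz⟩
      have hsn : (n : ℝ) < s := hUt n (z, s) hs
      have hs0 : (0 : ℝ) ≤ s := le_trans (Nat.cast_nonneg n) hsn.le
      refine ⟨⌊s⌋₊, Nat.le_floor hsn.le, (z, s), hs, ?_, Nat.lt_floor_add_one s⟩
      refine lt_of_le_of_ne (Nat.floor_le hs0) ?_
      intro heq
      exact (Irrational.ne_nat hirr ⌊s⌋₊) heq.symm
    choose m hm1 hm2 using hslab
    let S : Set ℕ := range m
    have hSinf : S.Infinite := by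
      refine Set.infinite_of_forall_exists_gt fun a => ⟨m (a + 1), ⟨_, rfl⟩, ?_⟩
      have := hm1 (a + 1)
      omega
    have hq : ∀ μ : ℕ, ∃ N q : ℕ, μ ∈ S → m N = μ ∧ (E.w q, (μ : ℝ) + E.τ q) ∈ U N := by
      intro μ
      by_cases hμ : μ ∈ S
      · obtain ⟨N, hN⟩ := hμ
        obtain ⟨⟨z, s⟩, hp, hp1, hp2⟩ := hm2 N
        rw [hN] at hp1 hp2
        have hopen : IsOpen ((fun x : ℂ × ℝ => ((x.1, (μ : ℝ) + x.2) : ℂ × ℝ)) ⁻¹' U N) :=
          (hUo N).preimage (by fun_prop)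
        obtain ⟨i, hi⟩ := E.dense _ hopen ⟨(z, s - μ), by
          show (z, (μ : ℝ) + (s - μ)) ∈ U N
          rw [add_sub_cancel]; exact hp, by
          simp only at hp1 hp2 ⊢
          exact ⟨by linarith, by linarith⟩⟩
        exact ⟨N, i, fun _ => ⟨hN, hi⟩⟩
      · exact ⟨0, 0, fun h => absurd h hμ⟩
    choose N q hNq using hq
    obtain ⟨b, hAb, K, hK⟩ := E.CAP_points hA S hSinf q
    refine ⟨⟨b, hAb⟩, K, ?_⟩
    let G : Set ℕ := {μ | μ ∈ S ∧
      dist (E.w (q μ)) (E.cs b μ (μ + E.τ (q μ))) ≤ K * E.rs b μ (μ + E.τ (q μ))}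
    have hG : G.Infinite := Nat.frequently_atTop_iff_infinite.mp hK
    rw [Nat.frequently_atTop_iff_infinite]
    have hinj : InjOn N G := by
      intro a ha c hc hac
      rw [← (hNq a ha.1).1, ← (hNq c hc.1).1, hac]
    refine (hG.image hinj).mono ?_
    rintro _ ⟨μ, hμ, rfl⟩
    refine ⟨(E.w (q μ), (μ : ℝ) + E.τ (q μ)), (hNq μ hμ.1).2, ?_⟩
    have hτ := E.τmem (q μ)
    have hfl : ⌊(μ : ℝ) + E.τ (q μ)⌋₊ = μ := by
      rw [Nat.floor_eq_iff (by have := Nat.cast_nonneg (α := ℝ) μ; linarith)]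
      exact ⟨by linarith, by linarith⟩
    show dist (E.w (q μ)) (E.cs b ⌊(μ : ℝ) + E.τ (q μ)⌋₊ (μ + E.τ (q μ)))
      ≤ K * E.rs b ⌊(μ : ℝ) + E.τ (q μ)⌋₊ (μ + E.τ (q μ))
    rw [hfl]
    exact hμ.2

end Pool.Agent.Helper761
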