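import Mathlib
import Pool.Agent.Helper761.Family

set_option autoImplicit false

open Set Filter Topology

namespace Pool.Agent.Helper761

/-- A family of moving balls in the plane: centres `c b t`, radii `r b t`; pairwise relatively far
away from each other at late times, and capturing every sequence of open sets going to infinity. -/
structure Fam where
  I : Type
  c : I → ℝ → ℂ
  r : I → ℝ → ℝ
  cc : ∀ b, Continuous (c b)
  rc : ∀ b, Continuous (r b)
  rpos : ∀ b t, 0 < r b t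
  ad : ∀ b b', b ≠ b' → ∀ K : ℝ, ∃ T : ℝ, ∀ t, T ≤ t →
        K * max (r b t) (r b' t) ≤ dist (c b t) (c b' t)
  cap : ∀ U : ℕ → Set (ℂ × ℝ), (∀ n, IsOpen (U n)) → (∀ n, (U n).Nonempty) →
        (∀ n : ℕ, ∀ p ∈ U n, (n : ℝ) < p.2) →
        ∃ b, ∃ K : ℝ, ∃ᶠ n in atTop, ∃ p ∈ U n, dist p.1 (c b p.2) ≤ K * r b p.2

theorem exists_fam : Nonempty Fam := by
  obtain ⟨I, c, r, h1, h2, h3, h4, h5⟩ := exists_family
  exact ⟨⟨I, c, r, h1, h2, h3, h4, h5⟩⟩

/-- late time corresponding to a small parameter -/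
noncomputable def tt (s : ℝ) : ℝ := 1 + |s|⁻¹

theorem tt_gt {s : ℝ} (hs : s ≠ 0) : 1 < tt s := by
  unfold tt
  have : 0 < |s|⁻¹ := inv_pos.mpr (abs_pos.mpr hs)
  linarith

/-- the total size of a point of `ℂ × ℝ` -/
noncomputable def tq (q : ℂ × ℝ) : ℝ := ‖q.1‖ + |q.2|

/-- the slope of a point of `ℂ × ℝ` -/
noncomputable def wq (q : ℂ × ℝ) : ℂ := ((|q.2|⁻¹ : ℝ) : ℂ) * q.1

/-- the point of slope `w`, size `t` on side `e` -/
noncomputable def kp (e : ℝ) (w : ℂ) (t : ℝ) : ℂ × ℝ :=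
  (((t / (1 + ‖w‖) : ℝ) : ℂ) * w, e * (t / (1 + ‖w‖)))

theorem tq_kp {e : ℝ} (he : |e| = 1) (w : ℂ) {t : ℝ} (ht : 0 < t) : tq (kp e w t) = t := by
  unfold tq kp
  have h1 : 0 < 1 + ‖w‖ := by positivity
  rw [norm_mul, Complex.norm_real, Real.norm_eq_abs, abs_mul, he, one_mul,
    abs_of_pos (div_pos ht h1)]
  field_simp
  ring

theorem wq_kp {e : ℝ} (he : |e| = 1) (w : ℂ) {t : ℝ} (ht : 0 < t) : wq (kp e w t) = w := by
  unfold wq kp
  have h1 : 0 < 1 + ‖w‖ := by positivity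
  simp only
  rw [abs_mul, he, one_mul, abs_of_pos (div_pos ht h1), ← mul_assoc, ← Complex.ofReal_mul,
    inv_mul_cancel₀ (div_pos ht h1).ne']
  simp

theorem kp_snd {e : ℝ} (w : ℂ) (t : ℝ) : (kp e w t).2 = e * (t / (1 + ‖w‖)) := rfl

/-- a point is recovered from its slope and size -/
theorem kp_wq_tq {q : ℂ × ℝ} (hq : q.2 ≠ 0) : kp (q.2 / |q.2|) (wq q) (tq q) = q := by
  have h1 : 0 < |q.2| := abs_pos.mpr hq
  have h2 : ‖wq q‖ = |q.2|⁻¹ * ‖q.1‖ := by
    unfold wq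
    rw [norm_mul, Complex.norm_real, Real.norm_eq_abs, abs_of_pos (inv_pos.mpr h1)]
  have h3 : tq q / (1 + ‖wq q‖) = |q.2| := by
    rw [h2]
    unfold tq
    have : 0 < 1 + |q.2|⁻¹ * ‖q.1‖ := by positivity
    rw [div_eq_iff this.ne']
    field_simp
    ring
  unfold kp
  rw [h3]
  ext1
  · show ((|q.2| : ℝ) : ℂ) * wq q = q.1
    unfold wq
    rw [← mul_assoc, ← Complex.ofReal_mul, mul_inv_cancel₀ h1.ne']
    simp
  · show q.2 / |q.2| * |q.2| = q.2
    field_simp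

namespace Fam

variable (F : Fam)

/-- slope coordinate of the collar point `p` of the ribbon `b` -/
noncomputable def ww (b : F.I) (p : ℂ × ℝ) : ℂ :=
  F.c b (tt p.2) + (F.r b (tt p.2) : ℂ) * p.1

/-- the collar of the ribbon `b`, minus its core -/
noncomputable def th (b : F.I) (p : ℂ × ℝ) : ℂ × ℝ := kp (p.2 / |p.2|) (F.ww b p) (tt p.2)

noncomputable def ph (b : F.I) (q : ℂ × ℝ) : ℂ × ℝ :=
  ((((F.r b (tq q))⁻¹ : ℝ) : ℂ) * (wq q - F.c b (tq q)), q.2 / |q.2| * (tq q - 1)⁻¹)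

theorem abs_sign {s : ℝ} (hs : s ≠ 0) : abs (s / abs s) = 1 := by
  rw [abs_div, abs_abs, div_self (abs_pos.mpr hs).ne']

theorem tq_th (b : F.I) {p : ℂ × ℝ} (hp : p.2 ≠ 0) : tq (F.th b p) = tt p.2 :=
  tq_kp (abs_sign hp) _ (by linarith [tt_gt hp])

theorem wq_th (b : F.I) {p : ℂ × ℝ} (hp : p.2 ≠ 0) : wq (F.th b p) = F.ww b p :=
  wq_kp (abs_sign hp) _ (by linarith [tt_gt hp])

theorem th_snd (b : F.I) {p : ℂ × ℝ} (hp : p.2 ≠ 0) :
    (F.th b p).2 ≠ 0 ∧ (F.th b p).2 / |(F.th b p).2| = p.2 / |p.2| := by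
  have h1 : 0 < tt p.2 / (1 + ‖F.ww b p‖) := by
    have := tt_gt hp
    positivity
  have h2 : (F.th b p).2 = p.2 / |p.2| * (tt p.2 / (1 + ‖F.ww b p‖)) := rfl
  have h3 : p.2 / |p.2| ≠ 0 := div_ne_zero hp (abs_pos.mpr hp).ne'
  refine ⟨by rw [h2]; exact mul_ne_zero h3 h1.ne', ?_⟩
  rw [h2, abs_mul, abs_sign hp, one_mul, abs_of_pos h1, mul_div_assoc, div_self h1.ne', mul_one]

/-- the region covered by the collars -/
def Om : Set (ℂ × ℝ) := {q | q.2 ≠ 0 ∧ 1 < tq q}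

theorem tq_continuous : Continuous tq := by
  unfold tq
  fun_prop

theorem wq_continuousOn : ContinuousOn wq {q | q.2 ≠ 0} := by
  unfold wq
  refine ContinuousOn.mul ?_ continuous_fst.continuousOn
  refine Complex.continuous_ofReal.comp_continuousOn ?_
  refine ContinuousOn.inv₀ (by fun_prop) ?_
  intro q hq
  exact (abs_pos.mpr hq).ne'

theorem tt_continuousOn : ContinuousOn (fun p : ℂ × ℝ => tt p.2) {q | q.2 ≠ 0} := by
  unfold tt
  refine ContinuousOn.add continuousOn_const ?_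
  refine ContinuousOn.inv₀ (by fun_prop) ?_
  intro q hq
  exact (abs_pos.mpr hq).ne'

theorem sign_continuousOn : ContinuousOn (fun p : ℂ × ℝ => p.2 / |p.2|) {q | q.2 ≠ 0} := by
  refine ContinuousOn.div (by fun_prop) (by fun_prop) ?_
  intro q hq
  exact (abs_pos.mpr hq).ne'

theorem ww_continuousOn (b : F.I) : ContinuousOn (F.ww b) {q | q.2 ≠ 0} := by
  unfold ww
  refine ContinuousOn.add ((F.cc b).comp_continuousOn tt_continuousOn) ?_
  refine ContinuousOn.mul ?_ continuous_fst.continuousOn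
  exact Complex.continuous_ofReal.comp_continuousOn ((F.rc b).comp_continuousOn tt_continuousOn)

theorem kp_continuous : Continuous (fun x : ℝ × ℂ × ℝ => kp x.1 x.2.1 x.2.2) := by
  unfold kp
  have h : Continuous (fun x : ℝ × ℂ × ℝ => x.2.2 / (1 + ‖x.2.1‖)) := by
    refine Continuous.div (by fun_prop) (by fun_prop) ?_
    intro x
    positivity
  refine Continuous.prodMk ?_ ?_
  · exact (Complex.continuous_ofReal.comp h).mul (by fun_prop)
  · exact continuous_fst.mul h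

theorem th_continuousOn (b : F.I) : ContinuousOn (F.th b) {q | q.2 ≠ 0} := by
  have : ContinuousOn (fun p : ℂ × ℝ => (p.2 / |p.2|, F.ww b p, tt p.2)) {q | q.2 ≠ 0} :=
    sign_continuousOn.prodMk ((F.ww_continuousOn b).prodMk tt_continuousOn)
  exact kp_continuous.comp_continuousOn this

theorem ph_continuousOn (b : F.I) : ContinuousOn (F.ph b) Om := by
  unfold ph
  have hsub : Om ⊆ {q : ℂ × ℝ | q.2 ≠ 0} := fun q hq => hq.1
  refine ContinuousOn.prodMk ?_ ?_
  · refine ContinuousOn.mul ?_ ?_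
    · refine Continuous.continuousOn ?_
      refine Complex.continuous_ofReal.comp ?_
      refine Continuous.inv₀ ((F.rc b).comp tq_continuous) ?_
      intro x
      exact (F.rpos b _).ne'
    · exact (wq_continuousOn.mono hsub).sub ((F.cc b).comp tq_continuous).continuousOn
  · refine (sign_continuousOn.mono hsub).mul ?_
    refine ContinuousOn.inv₀ ((tq_continuous.sub continuous_const).continuousOn) ?_
    intro q hq
    have := hq.2
    exact (sub_pos.mpr this).ne'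

theorem isOpen_Om : IsOpen Om :=
  (isOpen_ne.preimage continuous_snd).inter (isOpen_lt continuous_const tq_continuous)

theorem isOpen_ne_snd : IsOpen {q : ℂ × ℝ | q.2 ≠ 0} := isOpen_ne.preimage continuous_snd

theorem ph_th (b : F.I) {p : ℂ × ℝ} (hp : p.2 ≠ 0) : F.ph b (F.th b p) = p := by
  have hr := (F.rpos b (tt p.2)).ne'
  unfold ph
  rw [F.tq_th b hp, F.wq_th b hp, (F.th_snd b hp).2]
  ext1
  · show (((F.r b (tt p.2))⁻¹ : ℝ) : ℂ) * (F.ww b p - F.c b (tt p.2)) = p.1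
    unfold ww
    rw [add_sub_cancel_left, ← mul_assoc, ← Complex.ofReal_mul, inv_mul_cancel₀ hr]
    simp
  · show p.2 / |p.2| * (tt p.2 - 1)⁻¹ = p.2
    unfold tt
    rw [add_sub_cancel_left, inv_inv]
    have := (abs_pos.mpr hp).ne'
    field_simp

theorem th_ph (b : F.I) {q : ℂ × ℝ} (hq : q ∈ Om) : F.th b (F.ph b q) = q := by
  have hr := (F.rpos b (tq q)).ne'
  have h1 : 0 < tq q - 1 := sub_pos.mpr hq.2
  have h2 : (F.ph b q).2 = q.2 / |q.2| * (tq q - 1)⁻¹ := rfl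
  have h3 : |(F.ph b q).2| = (tq q - 1)⁻¹ := by
    rw [h2, abs_mul, abs_sign hq.1, one_mul, abs_of_pos (inv_pos.mpr h1)]
  have h4 : tt (F.ph b q).2 = tq q := by
    unfold tt
    rw [h3, inv_inv]
    ring
  have h5 : (F.ph b q).2 / |(F.ph b q).2| = q.2 / |q.2| := by
    rw [h3, h2]
    field_simp
  have h6 : F.ww b (F.ph b q) = wq q := by
    unfold ww
    rw [h4]
    show F.c b (tq q) + (F.r b (tq q) : ℂ) *
      ((((F.r b (tq q))⁻¹ : ℝ) : ℂ) * (wq q - F.c b (tq q))) = wq q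
    rw [← mul_assoc, ← Complex.ofReal_mul, mul_inv_cancel₀ hr]
    simp
  unfold th
  rw [h4, h5, h6]
  exact kp_wq_tq hq.1

theorem ph_snd_ne (b : F.I) {q : ℂ × ℝ} (hq : q ∈ Om) : (F.ph b q).2 ≠ 0 := by
  have h1 : 0 < tq q - 1 := sub_pos.mpr hq.2
  have h2 : (F.ph b q).2 = q.2 / |q.2| * (tq q - 1)⁻¹ := rfl
  rw [h2]
  exact mul_ne_zero (div_ne_zero hq.1 (abs_pos.mpr hq.1).ne') (inv_pos.mpr h1).ne'

theorem th_mem (b : F.I) {p : ℂ × ℝ} (hp : p.2 ≠ 0) : F.th b p ∈ Om := by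
  refine ⟨(F.th_snd b hp).1, ?_⟩
  rw [F.tq_th b hp]
  exact tt_gt hp

/-- the collar without its core, as a homeomorphism between open sets -/
noncomputable def thH (b : F.I) : OpenPartialHomeomorph (ℂ × ℝ) (ℂ × ℝ) where
  toFun := F.th b
  invFun := F.ph b
  source := {q | q.2 ≠ 0}
  target := Om
  map_source' := fun _ hp => F.th_mem b hp
  map_target' := fun _ hq => F.ph_snd_ne b hq
  left_inv' := fun _ hp => F.ph_th b hp
  right_inv' := fun _ hq => F.th_ph b hq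
  open_source := isOpen_ne_snd
  open_target := isOpen_Om
  continuousOn_toFun := F.th_continuousOn b
  continuousOn_invFun := F.ph_continuousOn b

end Fam

end Pool.Agent.Helper761
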