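import Mathlib

set_option autoImplicit false

namespace Pool.Agent.Helper761.LCRim

open Set Filter Topology

/-- Partial proper colourings of a set mapping, as relations. -/
structure GoodRel {J : Type} (f : J → Set J) (R : Set (J × ℕ)) : Prop where
  func : ∀ j a b, (j, a) ∈ R → (j, b) ∈ R → a = b
  closed : ∀ j a, (j, a) ∈ R → ∀ k ∈ f j, ∃ b, (k, b) ∈ R
  proper : ∀ j a k, (j, a) ∈ R → (k, a) ∈ R → k ∈ f j → k = j

/-- The forward closure of a point under a set mapping. -/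
def cl {J : Type} (f : J → Set J) (j0 : J) : ℕ → Set J
  | 0 => {j0}
  | (n + 1) => ⋃ t ∈ cl f j0 n, f t

theorem cl_countable {J : Type} (f : J → Set J) (hf : ∀ j, (f j).Finite) (j0 : J) :
    ∀ n, (cl f j0 n).Countable
  | 0 => by simp [cl]
  | (n + 1) => by
      have := cl_countable f hf j0 n
      exact this.biUnion (fun t _ => (hf t).countable)

theorem coloring {J : Type} (f : J → Set J) (hf : ∀ j, (f j).Finite) :
    ∃ χ : J → ℕ, ∀ j k, k ∈ f j → χ j = χ k → k = j := by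
  classical
  obtain ⟨R, hR⟩ := zorn_subset {R : Set (J × ℕ) | GoodRel f R} (by
    intro c hc hchain
    refine ⟨⋃₀ c, ?_, fun s hs => subset_sUnion_of_mem hs⟩
    constructor
    · rintro j a b ⟨R1, h1, ha⟩ ⟨R2, h2, hb⟩
      rcases hchain.total h1 h2 with h | h
      · exact (hc h2).func j a b (h ha) hb
      · exact (hc h1).func j a b ha (h hb)
    · rintro j a ⟨R1, h1, ha⟩ k hk
      obtain ⟨b, hb⟩ := (hc h1).closed j a ha k hk
      exact ⟨b, R1, h1, hb⟩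
    · rintro j a k ⟨R1, h1, ha⟩ ⟨R2, h2, hb⟩ hk
      rcases hchain.total h1 h2 with h | h
      · exact (hc h2).proper j a k (h ha) hb hk
      · exact (hc h1).proper j a k ha (h hb) hk)
  have hgood : GoodRel f R := hR.prop
  have hdom : ∀ j, ∃ a, (j, a) ∈ R := by
    by_contra hcon
    push Not at hcon
    obtain ⟨j0, hj0⟩ := hcon
    have hcnt : (⋃ n, cl f j0 n).Countable := countable_iUnion (cl_countable f hf j0)
    obtain ⟨ι, hι⟩ := Set.countable_iff_exists_injOn.1 hcnt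
    have hforb : ∀ t : J, {a : ℕ | ∃ k ∈ f t, (k, a) ∈ R}.Finite := by
      intro t
      have h1 : {a : ℕ | ∃ k ∈ f t, (k, a) ∈ R} ⊆
          (fun k => if h : ∃ a, (k, a) ∈ R then h.choose else 0) '' (f t) := by
        rintro a ⟨k, hk, hka⟩
        refine ⟨k, hk, ?_⟩
        have hex : ∃ a, (k, a) ∈ R := ⟨a, hka⟩
        simp only [dif_pos hex]
        exact hgood.func k _ _ hex.choose_spec hka
      exact ((hf t).image _).subset h1
    have hnew : ∀ t : J, ∃ m : ℕ, Nat.pair (ι t) m ∉ {a : ℕ | ∃ k ∈ f t, (k, a) ∈ R} := by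
      intro t
      by_contra hall
      push Not at hall
      have hinj : Function.Injective (fun m : ℕ => Nat.pair (ι t) m) := by
        intro m m' h
        exact (Nat.pair_eq_pair.1 h).2
      have hinf : (Set.range (fun m : ℕ => Nat.pair (ι t) m)).Infinite :=
        Set.infinite_range_of_injective hinj
      exact hinf ((hforb t).subset (by rintro _ ⟨m, rfl⟩; exact hall m))
    choose μ hμ using hnew
    set R' : Set (J × ℕ) := R ∪ {p | p.1 ∈ (⋃ n, cl f j0 n) ∧ (∀ a, (p.1, a) ∉ R) ∧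
      p.2 = Nat.pair (ι p.1) (μ p.1)} with hR'
    have hgood' : GoodRel f R' := by
      constructor
      · rintro j a b (h1 | ⟨h1, h1', h1''⟩) (h2 | ⟨h2, h2', h2''⟩)
        · exact hgood.func j a b h1 h2
        · exact absurd h1 (h2' a)
        · exact absurd h2 (h1' b)
        · simp only at h1'' h2''
          rw [h1'', h2'']
      · rintro j a (h1 | ⟨h1, h1', h1''⟩) k hk
        · obtain ⟨b, hb⟩ := hgood.closed j a h1 k hk
          exact ⟨b, Or.inl hb⟩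
        · by_cases hk' : ∃ b, (k, b) ∈ R
          · obtain ⟨b, hb⟩ := hk'
            exact ⟨b, Or.inl hb⟩
          · push Not at hk'
            refine ⟨Nat.pair (ι k) (μ k), Or.inr ⟨?_, hk', rfl⟩⟩
            obtain ⟨n, hn⟩ := mem_iUnion.1 h1
            refine mem_iUnion.2 ⟨n + 1, ?_⟩
            exact mem_biUnion hn hk
      · rintro j a k (h1 | ⟨h1, h1', h1''⟩) (h2 | ⟨h2, h2', h2''⟩) hk
        · exact hgood.proper j a k h1 h2 hk
        · obtain ⟨b, hb⟩ := hgood.closed j a h1 k hk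
          exact absurd hb (h2' b)
        · exfalso
          simp only at h1''
          exact hμ j ⟨k, hk, by rw [← h1'']; exact h2⟩
        · simp only at h1'' h2''
          rw [h1''] at h2''
          exact (hι h1 h2 (Nat.pair_eq_pair.1 h2'').1).symm
    have hsub : R' ⊆ R := hR.le_of_ge hgood' subset_union_left
    exact hj0 (Nat.pair (ι j0) (μ j0)) (hsub (Or.inr ⟨mem_iUnion.2 ⟨0, rfl⟩, hj0, rfl⟩))
  choose χ hχ using hdom
  refine ⟨χ, fun j k hk h => hgood.proper j (χ j) k (hχ j) ?_ hk⟩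
  rw [h]
  exact hχ k


/-- The covering hypothesis of the problem. -/
def Submeta (X : Type) [TopologicalSpace X] : Prop :=
  ∀ 𝒰 : Set (Set X), (∀ u ∈ 𝒰, IsOpen u) → ⋃₀ 𝒰 = Set.univ →
    ∃ V : ℕ → Set (Set X),
      (∀ n, ∀ v ∈ V n, IsOpen v ∧ ∃ u ∈ 𝒰, v ⊆ u) ∧
      (∀ n, ⋃₀ V n = Set.univ) ∧
      (∀ x : X, ∃ n, {v ∈ V n | x ∈ v}.Finite)

/-- Points lying in at most `l` members of `V`. -/
def lev {X : Type} (V : Set (Set X)) (l : ℕ) : Set X := {x | {v ∈ V | x ∈ v}.encard ≤ l}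

variable {X : Type} [TopologicalSpace X]

theorem lev_closed (V : Set (Set X)) (hV : ∀ v ∈ V, IsOpen v) (l : ℕ) :
    IsClosed (lev V l) := by
  rw [← isOpen_compl_iff, isOpen_iff_mem_nhds]
  intro x hx
  have h1 : (l : ℕ∞) < {v ∈ V | x ∈ v}.encard := by
    simpa [lev] using hx
  have h2 : ((l + 1 : ℕ) : ℕ∞) ≤ {v ∈ V | x ∈ v}.encard := by
    have := Order.add_one_le_of_lt h1
    simpa using this
  obtain ⟨t, ht, hcard⟩ := Set.exists_subset_encard_eq h2
  have htf : t.Finite := Set.finite_of_encard_eq_coe hcard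
  have hopen : IsOpen (⋂₀ t) := htf.isOpen_sInter (fun v hv => hV v (ht hv).1)
  refine mem_of_superset (hopen.mem_nhds (fun v hv => (ht hv).2)) ?_
  intro y hy
  have h3 : t ⊆ {v ∈ V | y ∈ v} := fun v hv => ⟨(ht hv).1, hy v hv⟩
  have h4 := Set.encard_le_encard h3
  rw [hcard] at h4
  intro h5
  have h6 : ((l + 1 : ℕ) : ℕ∞) ≤ (l : ℕ∞) := h4.trans h5
  have h7 : l + 1 ≤ l := by exact_mod_cast h6
  omega

theorem lev_eq {V : Set (Set X)} {l : ℕ} {x y : X} (hx : x ∈ lev V (l + 1)) (hx' : x ∉ lev V l)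
    (hy : y ∈ lev V (l + 1)) (hxy : ∀ v ∈ V, x ∈ v → y ∈ v) :
    {v ∈ V | y ∈ v} = {v ∈ V | x ∈ v} := by
  have h1 : (l : ℕ∞) < {v ∈ V | x ∈ v}.encard := by
    simpa [lev] using hx'
  have h2 : ((l + 1 : ℕ) : ℕ∞) ≤ {v ∈ V | x ∈ v}.encard := by
    have := Order.add_one_le_of_lt h1
    simpa using this
  have hy' : {v ∈ V | y ∈ v}.encard ≤ ((l + 1 : ℕ) : ℕ∞) := hy
  have hyf : {v ∈ V | y ∈ v}.Finite := Set.finite_of_encard_le_coe hy'
  have hsub : {v ∈ V | x ∈ v} ⊆ {v ∈ V | y ∈ v} := fun v hv => ⟨hv.1, hxy v hv.1 hv.2⟩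
  exact ((hyf.subset hsub).eq_of_subset_of_encard_le hsub (hy'.trans h2)).symm

theorem lev_nhds {V : Set (Set X)} (hV : ∀ v ∈ V, IsOpen v) {l : ℕ} {x : X}
    (hx : x ∈ lev V l) : (⋂₀ {v ∈ V | x ∈ v}) ∈ 𝓝 x := by
  have hxf : {v ∈ V | x ∈ v}.Finite := Set.finite_of_encard_le_coe (by simpa [lev] using hx)
  exact (hxf.isOpen_sInter (fun v hv => hV v hv.1)).mem_nhds (fun v hv => hv.2)

theorem compact_finite {V : Set (Set X)} (hV : ∀ v ∈ V, IsOpen v) {l : ℕ} {P : Set X}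
    (hP : IsCompact P) (h1 : P ⊆ lev V (l + 1)) (h2 : ∀ x ∈ P, x ∉ lev V l) :
    {v ∈ V | (v ∩ P).Nonempty}.Finite := by
  refine hP.induction_on (p := fun s => {v ∈ V | (v ∩ s).Nonempty}.Finite) (by simp) ?_ ?_ ?_
  · intro s t hst ht
    refine ht.subset ?_
    rintro v ⟨hv, y, hyv, hys⟩
    exact ⟨hv, y, hyv, hst hys⟩
  · intro s t hs ht
    refine (hs.union ht).subset ?_
    rintro v ⟨hv, y, hyv, hys | hyt⟩
    · exact Or.inl ⟨hv, y, hyv, hys⟩
    · exact Or.inr ⟨hv, y, hyv, hyt⟩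
  · intro x hx
    refine ⟨(⋂₀ {v ∈ V | x ∈ v}) ∩ P, ?_, ?_⟩
    · exact inter_mem (mem_nhdsWithin_of_mem_nhds (lev_nhds hV (h1 hx))) self_mem_nhdsWithin
    · have hxf : {v ∈ V | x ∈ v}.Finite := Set.finite_of_encard_le_coe (h1 hx)
      refine hxf.subset ?_
      rintro v ⟨hv, y, hyv, hy1, hyP⟩
      have := lev_eq (h1 hx) (h2 x hx) (h1 hyP) (fun w hw hxw => hy1 w ⟨hw, hxw⟩)
      rw [← this]
      exact ⟨hv, hyv⟩

theorem locconst_closed {J : Type} {F : Set X} (hF : IsClosed F) {c : X → J}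
    (hc : ∀ x ∈ F, ∃ N ∈ 𝓝 x, ∀ y ∈ N, y ∈ F → c y = c x) (S : Set J) :
    IsClosed {x | x ∈ F ∧ c x ∈ S} := by
  rw [← isOpen_compl_iff, isOpen_iff_mem_nhds]
  intro x hx
  by_cases hxF : x ∈ F
  · obtain ⟨N, hN, hNc⟩ := hc x hxF
    refine mem_of_superset hN ?_
    rintro y hy ⟨hyF, hyS⟩
    rw [hNc y hy hyF] at hyS
    exact hx ⟨hxF, hyS⟩
  · refine mem_of_superset (hF.isOpen_compl.mem_nhds hxF) ?_
    rintro y hy ⟨hyF, -⟩
    exact hy hyF

theorem step [T4Space X] {J : Type} {V : Set (Set X)} (hV : ∀ v ∈ V, IsOpen v)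
    (hVc : ⋃₀ V = univ) {F : Set X} (hF : IsClosed F) {c : X → J}
    (hc : ∀ x ∈ F, ∃ N ∈ 𝓝 x, ∀ y ∈ N, y ∈ F → c y = c x)
    (hVF : ∀ v ∈ V, ∀ x ∈ v, ∀ y ∈ v, x ∈ F → y ∈ F → c x = c y)
    {C : J → Set X} (hC : ∀ j, IsCompact (C j)) (hd : ∀ x ∈ F, x ∉ C (c x)) (l : ℕ) :
    ∃ (e : J → ℕ) (G : ℕ → Set X), (∀ i, IsOpen (G i)) ∧ (∀ x ∈ F, x ∈ G (e (c x))) ∧
      ∀ j, closure (G (e j)) ∩ C j ∩ lev V l = ∅ := by
  classical
  induction l with
  | zero =>
    refine ⟨fun _ => 0, fun _ => univ, fun _ => isOpen_univ, fun _ _ => mem_univ _, fun j => ?_⟩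
    rw [eq_empty_iff_forall_notMem]
    rintro x ⟨-, hx⟩
    have h1 : {v ∈ V | x ∈ v}.encard ≤ ((0 : ℕ) : ℕ∞) := hx
    have h2 : {v ∈ V | x ∈ v} = ∅ := by
      rw [← Set.encard_eq_zero]
      simpa using h1
    obtain ⟨v, hv, hxv⟩ := mem_sUnion.1 (hVc ▸ mem_univ x : x ∈ ⋃₀ V)
    have h3 : v ∈ {v ∈ V | x ∈ v} := ⟨hv, hxv⟩
    rw [h2] at h3
    exact h3
  | succ l ih =>
    obtain ⟨e, G, hGo, hFG, hdis⟩ := ih
    set P : J → Set X := fun j => closure (G (e j)) ∩ C j ∩ lev V (l + 1) with hP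
    have hPc : ∀ j, IsCompact (P j) := fun j =>
      ((hC j).inter_left isClosed_closure).inter_right (lev_closed V hV (l + 1))
    have hPf : ∀ j, {v ∈ V | (v ∩ P j).Nonempty}.Finite := fun j =>
      compact_finite hV (hPc j) (fun x hx => hx.2) (fun x hx hxl => by
        have : x ∈ closure (G (e j)) ∩ C j ∩ lev V l := ⟨hx.1, hxl⟩
        rw [hdis j] at this
        exact this)
    set f : J → Set J := fun j => {k | k ≠ j ∧ ∃ v ∈ V, (v ∩ P j).Nonempty ∧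
      ∃ x ∈ v, x ∈ F ∧ c x = k} with hf
    have hff : ∀ j, (f j).Finite := by
      intro j
      refine ((hPf j).image
        (fun v => if h : ∃ x, x ∈ v ∧ x ∈ F then c h.choose else j)).subset ?_
      rintro k ⟨-, v, hv, hvP, x, hxv, hxF, rfl⟩
      refine ⟨v, ⟨hv, hvP⟩, ?_⟩
      have hex : ∃ x, x ∈ v ∧ x ∈ F := ⟨x, hxv, hxF⟩
      simp only [dif_pos hex]
      exact hVF v hv _ hex.choose_spec.1 x hxv hex.choose_spec.2 hxF
    obtain ⟨χ, hχ⟩ := coloring f hff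
    set e' : J → ℕ := fun j => Nat.pair (e j) (χ j) with he'
    have hAcl : ∀ i, IsClosed {x | x ∈ F ∧ c x ∈ {j | e' j = i}} := fun i =>
      locconst_closed hF hc _
    have hAB : ∀ i, {x | x ∈ F ∧ c x ∈ {j | e' j = i}} ⊆
        (closure (⋃ j ∈ {j | e' j = i}, P j))ᶜ := by
      rintro i x ⟨hxF, hxi⟩ hxcl
      obtain ⟨v, hv, hxv⟩ := mem_sUnion.1 (hVc ▸ mem_univ x : x ∈ ⋃₀ V)
      have hxP : x ∉ P (c x) := fun h => hd x hxF h.1.2
      have hnb : v ∩ (P (c x))ᶜ ∈ 𝓝 x :=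
        inter_mem ((hV v hv).mem_nhds hxv) ((hPc _).isClosed.isOpen_compl.mem_nhds hxP)
      obtain ⟨y, ⟨hyv, hyP⟩, hyB⟩ := mem_closure_iff_nhds.1 hxcl _ hnb
      obtain ⟨j, hj, hyj⟩ := mem_iUnion₂.1 hyB
      have hne : c x ≠ j := by
        rintro rfl
        exact hyP hyj
      have hmem : c x ∈ f j := ⟨hne, v, hv, ⟨y, hyv, hyj⟩, x, hxv, hxF, rfl⟩
      have h1 : e' j = e' (c x) := by
        have h2 : e' j = i := hj
        have h3 : e' (c x) = i := hxi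
        rw [h2, h3]
      have h4 : χ j = χ (c x) := (Nat.pair_eq_pair.1 h1).2
      exact hne (hχ j (c x) hmem h4)
    have hN := fun i => normal_exists_closure_subset (hAcl i) isClosed_closure.isOpen_compl (hAB i)
    choose H hHo hHA hHB using hN
    refine ⟨e', fun i => H i ∩ G i.unpair.1, fun i => (hHo i).inter (hGo _), ?_, ?_⟩
    · intro x hxF
      refine ⟨hHA _ ⟨hxF, rfl⟩, ?_⟩
      simp only [he', Nat.unpair_pair]
      exact hFG x hxF
    · intro j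
      rw [eq_empty_iff_forall_notMem]
      rintro z ⟨⟨hz1, hz2⟩, hz3⟩
      have h1 : z ∈ closure (H (e' j)) := closure_mono inter_subset_left hz1
      have h2 : z ∈ closure (G (e j)) := by
        have := closure_mono inter_subset_right hz1
        simpa [he', Nat.unpair_pair] using this
      exact hHB (e' j) h1 (subset_closure (mem_iUnion₂.2 ⟨j, rfl, ⟨h2, hz2⟩, hz3⟩))

theorem L3 [T4Space X] (hsub : Submeta X) {J : Type} {F : Set X} (hF : IsClosed F) {c : X → J}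
    (hc : ∀ x ∈ F, ∃ N ∈ 𝓝 x, ∀ y ∈ N, y ∈ F → c y = c x)
    {C : J → Set X} (hC : ∀ j, IsCompact (C j)) (hd : ∀ x ∈ F, x ∉ C (c x)) :
    ∃ (code : J → Finset (ℕ × ℕ)) (G : Finset (ℕ × ℕ) → Set X),
      (∀ s, IsOpen (G s)) ∧ (∀ x ∈ F, x ∈ G (code (c x))) ∧ ∀ j, G (code j) ∩ C j = ∅ := by
  classical
  obtain ⟨V, hVo, hVc, hVf⟩ := hsub {u | ∃ j, u = {x | x ∈ F ∧ c x ∈ ({j} : Set J)ᶜ}ᶜ} (by
      rintro u ⟨j, rfl⟩
      exact (locconst_closed hF hc _).isOpen_compl) (by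
      rw [eq_univ_iff_forall]
      intro x
      refine ⟨_, ⟨c x, rfl⟩, ?_⟩
      rintro ⟨-, h⟩
      exact h rfl)
  have hVF : ∀ n, ∀ v ∈ V n, ∀ x ∈ v, ∀ y ∈ v, x ∈ F → y ∈ F → c x = c y := by
    intro n v hv x hx y hy hxF hyF
    obtain ⟨-, u, ⟨j, rfl⟩, hu⟩ := hVo n v hv
    have h1 : c x = j := by
      by_contra hne
      exact hu hx ⟨hxF, hne⟩
    have h2 : c y = j := by
      by_contra hne
      exact hu hy ⟨hyF, hne⟩
    rw [h1, h2]
  have key := fun p : ℕ => step (V := V p.unpair.1) (fun v hv => (hVo _ v hv).1) (hVc _) hF hc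
    (hVF _) hC hd p.unpair.2
  choose e G hGo hFG hdis using key
  have hfin : ∀ j, ∃ u : Finset ℕ, C j ∩ ⋂ p ∈ u, closure (G p (e p j)) = ∅ := by
    intro j
    refine (hC j).elim_finite_subfamily_closed (fun p => closure (G p (e p j)))
      (fun p => isClosed_closure) ?_
    rw [eq_empty_iff_forall_notMem]
    rintro x ⟨hxC, hx⟩
    obtain ⟨n, hn⟩ := hVf x
    obtain ⟨l, hl⟩ : ∃ l : ℕ, {v ∈ V n | x ∈ v}.encard ≤ l := by
      obtain ⟨k, hk⟩ := hn.exists_encard_eq_coe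
      exact ⟨k, hk.le⟩
    have h1 := mem_iInter.1 hx (Nat.pair n l)
    have h2 : x ∈ closure (G (Nat.pair n l) (e (Nat.pair n l) j)) ∩ C j ∩
        lev (V (Nat.pair n l).unpair.1) (Nat.pair n l).unpair.2 := by
      refine ⟨⟨h1, hxC⟩, ?_⟩
      rw [Nat.unpair_pair]
      exact hl
    rw [hdis] at h2
    exact h2
  choose u hu using hfin
  refine ⟨fun j => (u j).image (fun p => (p, e p j)), fun s => ⋂ q ∈ s, G q.1 q.2, ?_, ?_, ?_⟩
  · intro s
    exact isOpen_biInter_finset (fun q _ => hGo _ _)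
  · intro x hxF
    rw [mem_iInter₂]
    intro q hq
    obtain ⟨p, -, rfl⟩ := Finset.mem_image.1 hq
    exact hFG p x hxF
  · intro j
    rw [eq_empty_iff_forall_notMem]
    rintro x ⟨hx, hxC⟩
    have h1 : x ∈ C j ∩ ⋂ p ∈ u j, closure (G p (e p j)) := by
      refine ⟨hxC, mem_iInter₂.2 (fun p hp => subset_closure ?_)⟩
      exact mem_iInter₂.1 hx (p, e p j) (Finset.mem_image.2 ⟨p, hp, rfl⟩)
    rw [hu j] at h1
    exact h1

end Pool.Agent.Helper761.LCRim
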