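import Pool.Agent.Helper761.LCRim1

set_option autoImplicit false

namespace Pool.Agent.Helper761.LCRim

open Set Filter Topology

variable {X : Type} [TopologicalSpace X]

/-- Open sets all of whose components are contained in members of `𝒰`. -/
def SC (𝒰 : Set (Set X)) (G : Set X) : Prop :=
  IsOpen G ∧ ∀ x ∈ G, ∃ u ∈ 𝒰, connectedComponentIn G x ⊆ u

/-- Sets covered by countably many functionally open sets with small surroundings. -/
def Good (𝒰 : Set (Set X)) (S : Set X) : Prop :=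
  ∃ (ι : Type) (_ : Countable ι) (G : ι → Set X) (f : ι → X → ℝ),
    (∀ i, Continuous (f i)) ∧ (∀ i, SC 𝒰 (G i)) ∧ (∀ i x, 1 / 2 ≤ f i x → x ∈ G i) ∧
    ∀ x ∈ S, ∃ i, 1 / 2 < f i x

theorem Good.mono {𝒰 : Set (Set X)} {S T : Set X} (h : Good 𝒰 T) (hST : S ⊆ T) : Good 𝒰 S := by
  obtain ⟨ι, hι, G, f, h1, h2, h3, h4⟩ := h
  exact ⟨ι, hι, G, f, h1, h2, h3, fun x hx => h4 x (hST hx)⟩

theorem Good.union {𝒰 : Set (Set X)} {S T : Set X} (hS : Good 𝒰 S) (hT : Good 𝒰 T) :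
    Good 𝒰 (S ∪ T) := by
  obtain ⟨ι, hι, G, f, h1, h2, h3, h4⟩ := hS
  obtain ⟨κ, hκ, G', f', h1', h2', h3', h4'⟩ := hT
  refine ⟨ι ⊕ κ, inferInstance, Sum.elim G G', Sum.elim f f', ?_, ?_, ?_, ?_⟩
  · rintro (i | i)
    · exact h1 i
    · exact h1' i
  · rintro (i | i)
    · exact h2 i
    · exact h2' i
  · rintro (i | i)
    · exact h3 i
    · exact h3' i
  · rintro x (hx | hx)
    · obtain ⟨i, hi⟩ := h4 x hx
      exact ⟨Sum.inl i, hi⟩
    · obtain ⟨i, hi⟩ := h4' x hx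
      exact ⟨Sum.inr i, hi⟩

theorem Good.iUnion {𝒰 : Set (Set X)} {S : ℕ → Set X} (hS : ∀ n, Good 𝒰 (S n)) :
    Good 𝒰 (⋃ n, S n) := by
  choose ι hι G f h1 h2 h3 h4 using hS
  refine ⟨Σ n, ι n, inferInstance, fun p => G p.1 p.2, fun p => f p.1 p.2, fun p => h1 _ _,
    fun p => h2 _ _, fun p => h3 _ _, ?_⟩
  intro x hx
  obtain ⟨n, hn⟩ := mem_iUnion.1 hx
  obtain ⟨i, hi⟩ := h4 n x hn
  exact ⟨⟨n, i⟩, hi⟩

theorem subset_of_frontier {S U : Set X} (hS : IsPreconnected S) (hU : IsOpen U)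
    (hne : (S ∩ U).Nonempty) (hd : ∀ x ∈ S, x ∉ frontier U) : S ⊆ U := by
  have hopen : IsOpen (closure U)ᶜ := isClosed_closure.isOpen_compl
  refine hS.subset_left_of_subset_union hU hopen ?_ ?_ hne
  · exact disjoint_compl_right.mono_left subset_closure
  · intro x hx
    by_cases hxU : x ∈ U
    · exact Or.inl hxU
    · refine Or.inr (fun hcl => hd x hx ?_)
      rw [hU.frontier_eq]
      exact ⟨hcl, hxU⟩

theorem good_closed [T4Space X] [LocallyConnectedSpace X] (hsub : Submeta X) {𝒰 : Set (Set X)}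
    (hUo : ∀ u ∈ 𝒰, IsOpen u) (hUc : ∀ u ∈ 𝒰, IsCompact (frontier u))
    {F : Set X} (hF : IsClosed F) {c : X → Set X}
    (hc : ∀ x ∈ F, ∃ N ∈ 𝓝 x, ∀ y ∈ N, y ∈ F → c y = c x)
    (hcU : ∀ x ∈ F, c x ∈ 𝒰) (hcx : ∀ x ∈ F, x ∈ c x) : Good 𝒰 F := by
  classical
  obtain ⟨code, G, hGo, hFG, hdis⟩ := L3 hsub hF hc
    (C := fun j => if j ∈ 𝒰 then frontier j else ∅) (by
      intro j
      by_cases hj : j ∈ 𝒰
      · simp only [if_pos hj]
        exact hUc j hj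
      · simp only [if_neg hj]
        exact isCompact_empty) (by
      intro x hx
      simp only [if_pos (hcU x hx)]
      rw [(hUo _ (hcU x hx)).frontier_eq]
      exact fun h => h.2 (hcx x hx))
  set A : Finset (ℕ × ℕ) → Set X := fun s => {x | x ∈ F ∧ c x ∈ {j | code j = s}} with hA
  have hAc : ∀ s, IsClosed (A s) := fun s => locconst_closed hF hc _
  set G' : Finset (ℕ × ℕ) → Set X := fun s => ⋃ x ∈ A s, connectedComponentIn (G s) x with hG'
  have hG'o : ∀ s, IsOpen (G' s) := fun s =>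
    isOpen_biUnion (fun x _ => (hGo s).connectedComponentIn)
  have hAG' : ∀ s, A s ⊆ G' s := by
    intro s x hx
    refine mem_iUnion₂.2 ⟨x, hx, mem_connectedComponentIn ?_⟩
    have h1 : code (c x) = s := hx.2
    rw [← h1]
    exact hFG x hx.1
  have hG'G : ∀ s, G' s ⊆ G s := fun s =>
    iUnion₂_subset (fun x _ => connectedComponentIn_subset _ _)
  have hsc : ∀ s, SC 𝒰 (G' s) := by
    intro s
    refine ⟨hG'o s, fun y hy => ?_⟩
    obtain ⟨x, hx, hyx⟩ := mem_iUnion₂.1 hy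
    refine ⟨c x, hcU x hx.1, ?_⟩
    refine (connectedComponentIn_mono y (hG'G s)).trans ?_
    rw [← connectedComponentIn_eq hyx]
    have h1 : code (c x) = s := hx.2
    have hxG : x ∈ G s := by
      rw [← h1]
      exact hFG x hx.1
    refine subset_of_frontier isPreconnected_connectedComponentIn (hUo _ (hcU x hx.1))
      ⟨x, mem_connectedComponentIn hxG, hcx x hx.1⟩ ?_
    intro z hz hzf
    have hzG : z ∈ G s := connectedComponentIn_subset _ _ hz
    have h2 := hdis (c x)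
    rw [h1, if_pos (hcU x hx.1)] at h2
    have h3 : z ∈ G s ∩ frontier (c x) := ⟨hzG, hzf⟩
    rw [h2] at h3
    exact h3
  have hury : ∀ s, ∃ f : C(X, ℝ), EqOn f 0 (G' s)ᶜ ∧ EqOn f 1 (A s) := by
    intro s
    obtain ⟨f, h1, h2, -⟩ := exists_continuous_zero_one_of_isClosed (hG'o s).isClosed_compl (hAc s)
      (disjoint_compl_left_iff_subset.2 (hAG' s))
    exact ⟨f, h1, h2⟩
  choose f hf0 hf1 using hury
  refine ⟨Finset (ℕ × ℕ), inferInstance, G', fun s => f s, fun s => (f s).continuous, hsc, ?_, ?_⟩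
  · intro s x hx
    by_contra hcon
    have h1 : f s x = 0 := hf0 s hcon
    have h2 : (1 / 2 : ℝ) ≤ f s x := hx
    rw [h1] at h2
    norm_num at h2
  · intro x hx
    refine ⟨code (c x), ?_⟩
    have h1 : f (code (c x)) x = 1 := hf1 _ ⟨hx, rfl⟩
    show (1 / 2 : ℝ) < f (code (c x)) x
    rw [h1]
    norm_num

theorem good_lev [T4Space X] [LocallyConnectedSpace X] (hsub : Submeta X) {𝒰 : Set (Set X)}
    (hUo : ∀ u ∈ 𝒰, IsOpen u) (hUc : ∀ u ∈ 𝒰, IsCompact (frontier u))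
    {V : Set (Set X)} (hV : ∀ v ∈ V, IsOpen v) (hVc : ⋃₀ V = univ)
    (hVU : ∀ v ∈ V, ∃ u ∈ 𝒰, v ⊆ u) (l : ℕ) : Good 𝒰 (lev V l) := by
  classical
  induction l with
  | zero =>
    refine ⟨Empty, inferInstance, Empty.elim, Empty.elim, Empty.rec, Empty.rec, Empty.rec, ?_⟩
    intro x hx
    exfalso
    have h1 : {v ∈ V | x ∈ v}.encard ≤ ((0 : ℕ) : ℕ∞) := hx
    have h2 : {v ∈ V | x ∈ v} = ∅ := by
      rw [← Set.encard_eq_zero]
      simpa using h1
    obtain ⟨v, hv, hxv⟩ := mem_sUnion.1 (hVc ▸ mem_univ x : x ∈ ⋃₀ V)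
    have h3 : v ∈ {v ∈ V | x ∈ v} := ⟨hv, hxv⟩
    rw [h2] at h3
    exact h3
  | succ l ih =>
    obtain ⟨ι, hι, G, f, h1, h2, h3, h4⟩ := ih
    have hO : IsOpen {x | ∃ i, 1 / 2 < f i x} := by
      have : {x | ∃ i, 1 / 2 < f i x} = ⋃ i, {x | 1 / 2 < f i x} := by
        ext x
        simp
      rw [this]
      exact isOpen_iUnion (fun i => isOpen_lt continuous_const (h1 i))
    have hOgood : Good 𝒰 {x | ∃ i, 1 / 2 < f i x} :=
      ⟨ι, hι, G, f, h1, h2, h3, fun x hx => hx⟩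
    set F : Set X := lev V (l + 1) ∩ {x | ∃ i, 1 / 2 < f i x}ᶜ with hFdef
    have hF : IsClosed F := (lev_closed V hV (l + 1)).inter hO.isClosed_compl
    have hFl : ∀ x ∈ F, x ∉ lev V l := fun x hx hxl => hx.2 (h4 x hxl)
    set g : Set (Set X) → Set X := fun w =>
      if h : ∃ u ∈ 𝒰, ∃ v ∈ w, v ⊆ u then h.choose else ∅ with hg
    have hgs : ∀ w : Set (Set X), (∃ u ∈ 𝒰, ∃ v ∈ w, v ⊆ u) → g w ∈ 𝒰 ∧ ∃ v ∈ w, v ⊆ g w := by
      intro w hw
      simp only [hg, dif_pos hw]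
      exact hw.choose_spec
    have hex : ∀ x : X, ∃ u ∈ 𝒰, ∃ v ∈ {v ∈ V | x ∈ v}, v ⊆ u := by
      intro x
      obtain ⟨v, hv, hxv⟩ := mem_sUnion.1 (hVc ▸ mem_univ x : x ∈ ⋃₀ V)
      obtain ⟨u, hu, hvu⟩ := hVU v hv
      exact ⟨u, hu, v, ⟨hv, hxv⟩, hvu⟩
    have hFgood : Good 𝒰 F := by
      refine good_closed hsub hUo hUc hF (c := fun x => g {v ∈ V | x ∈ v}) ?_ ?_ ?_
      · intro x hx
        refine ⟨_, lev_nhds hV hx.1, fun y hy hyF => ?_⟩
        rw [lev_eq hx.1 (hFl x hx) hyF.1 (fun v hv hxv => hy v ⟨hv, hxv⟩)]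
      · intro x _
        exact (hgs _ (hex x)).1
      · intro x _
        obtain ⟨v, ⟨-, hxv⟩, hvg⟩ := (hgs _ (hex x)).2
        exact hvg hxv
    refine (hOgood.union hFgood).mono ?_
    intro x hx
    by_cases hxO : x ∈ {x | ∃ i, 1 / 2 < f i x}
    · exact Or.inl hxO
    · exact Or.inr ⟨hx, hxO⟩

theorem good_univ [T4Space X] [LocallyConnectedSpace X] (hsub : Submeta X) {𝒰 : Set (Set X)}
    (hUo : ∀ u ∈ 𝒰, IsOpen u) (hUc : ∀ u ∈ 𝒰, IsCompact (frontier u)) (hU : ⋃₀ 𝒰 = univ) :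
    Good 𝒰 univ := by
  obtain ⟨V, hVo, hVc, hVf⟩ := hsub 𝒰 hUo hU
  have h1 : ∀ n, Good 𝒰 (⋃ l, lev (V n) l) := fun n => Good.iUnion (fun l =>
    good_lev hsub hUo hUc (fun v hv => (hVo n v hv).1) (hVc n) (fun v hv => (hVo n v hv).2) l)
  refine (Good.iUnion h1).mono ?_
  intro x _
  obtain ⟨n, hn⟩ := hVf x
  obtain ⟨k, hk⟩ := hn.exists_encard_eq_coe
  exact mem_iUnion.2 ⟨n, mem_iUnion.2 ⟨k, hk.le⟩⟩

theorem paracompact_of_good [LocallyConnectedSpace X]
    (h : ∀ (α : Type) (s : α → Set X), (∀ a, IsOpen (s a)) → (⋃ a, s a = univ) →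
      Good {u | ∃ a, u ⊆ s a} univ) : ParacompactSpace X := by
  classical
  constructor
  intro α s hso hsc
  obtain ⟨ι, hι, G, f, hfc, hG, hfG, hcov⟩ := h α s hso hsc
  obtain ⟨enc, henc⟩ := exists_injective_nat ι
  have hlt : ∀ n : ℕ, {k : ι | enc k < n}.Finite := fun n =>
    (Set.finite_lt_nat n).preimage henc.injOn
  set W : ι → Set X := fun i => {x | 1 / 2 < f i x} ∩
    ⋂ k ∈ {k : ι | enc k < enc i}, {x | f k x < 1 / 2 + 1 / ((enc i : ℝ) + 1)} with hW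
  have hWo : ∀ i, IsOpen (W i) := fun i =>
    (isOpen_lt continuous_const (hfc i)).inter
      ((hlt _).isOpen_biInter (fun k _ => isOpen_lt (hfc k) continuous_const))
  have hWG : ∀ i, W i ⊆ G i := fun i x hx => hfG i x (le_of_lt hx.1)
  set T : ι × Set X → Set X := fun p => {x | x ∈ W p.1 ∧ connectedComponentIn (G p.1) x = p.2}
    with hT
  refine ⟨{p : ι × Set X // (T p).Nonempty}, fun b => T b.1, ?_, ?_, ?_, ?_⟩
  · rintro ⟨⟨i, K⟩, -⟩
    rw [isOpen_iff_mem_nhds]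
    rintro x ⟨hx, hxK⟩
    refine mem_of_superset (inter_mem ((hWo i).mem_nhds hx)
      ((hG i).1.connectedComponentIn.mem_nhds (mem_connectedComponentIn (hWG i hx)))) ?_
    rintro y ⟨hyW, hyK⟩
    exact ⟨hyW, by rw [← connectedComponentIn_eq hyK]; exact hxK⟩
  · rw [eq_univ_iff_forall]
    intro x
    have hex : ∃ n, ∃ i, enc i = n ∧ 1 / 2 < f i x := by
      obtain ⟨i, hi⟩ := hcov x (mem_univ x)
      exact ⟨_, i, rfl, hi⟩
    obtain ⟨i, hi, hix⟩ := Nat.find_spec hex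
    have hxW : x ∈ W i := by
      refine ⟨hix, mem_iInter₂.2 (fun k hk => ?_)⟩
      have h1 : ¬ (1 / 2 < f k x) := by
        intro hcon
        refine Nat.find_min hex (m := enc k) ?_ ⟨k, rfl, hcon⟩
        rw [← hi]
        exact hk
      have h2 : (0 : ℝ) < 1 / ((enc i : ℝ) + 1) := by positivity
      show f k x < _
      push Not at h1
      linarith
    exact mem_iUnion.2 ⟨⟨(i, connectedComponentIn (G i) x), ⟨x, hxW, rfl⟩⟩, hxW, rfl⟩
  · intro x
    obtain ⟨i0, hi0⟩ := hcov x (mem_univ x)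
    obtain ⟨n0, hn0⟩ := exists_nat_one_div_lt (show (0 : ℝ) < f i0 x - 1 / 2 by linarith)
    set I0 : Set ι := {k | enc k < max (n0 + 1) (enc i0 + 1)} with hI0
    have hI0f : I0.Finite := hlt _
    have hM : ∀ i : ι, ∃ M ∈ 𝓝 x, ∀ y ∈ M, y ∈ W i →
        connectedComponentIn (G i) y = connectedComponentIn (G i) x := by
      intro i
      by_cases hi : 1 / 2 ≤ f i x
      · refine ⟨connectedComponentIn (G i) x, (hG i).1.connectedComponentIn.mem_nhds
          (mem_connectedComponentIn (hfG i x hi)), fun y hy _ => ?_⟩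
        exact (connectedComponentIn_eq hy).symm
      · push Not at hi
        refine ⟨{y | f i y < 1 / 2}, (isOpen_lt (hfc i) continuous_const).mem_nhds hi,
          fun y hy hyW => ?_⟩
        have h8 : 1 / 2 < f i y := hyW.1
        have h9 : f i y < 1 / 2 := hy
        exact absurd h8 (not_lt.2 h9.le)
    choose M hMx hMy using hM
    refine ⟨{y | 1 / 2 + 1 / ((n0 : ℝ) + 1) < f i0 y} ∩ ⋂ i ∈ I0, M i, ?_, ?_⟩
    · refine inter_mem ((isOpen_lt continuous_const (hfc i0)).mem_nhds ?_)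
        ((biInter_mem hI0f).2 (fun i _ => hMx i))
      show 1 / 2 + 1 / ((n0 : ℝ) + 1) < f i0 x
      linarith
    · refine Set.Finite.subset ((hI0f.image
        (fun i => (i, connectedComponentIn (G i) x))).preimage Subtype.val_injective.injOn) ?_
      rintro ⟨⟨i, K⟩, hp⟩ ⟨y, ⟨hyW, hyK⟩, hy1, hy2⟩
      have hiI : i ∈ I0 := by
        by_contra hcon
        have h1 : max (n0 + 1) (enc i0 + 1) ≤ enc i := not_lt.1 hcon
        have h2 : enc i0 < enc i := by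
          have := le_max_right (n0 + 1) (enc i0 + 1)
          omega
        have h3 : n0 ≤ enc i := by
          have := le_max_left (n0 + 1) (enc i0 + 1)
          omega
        have h4 : f i0 y < 1 / 2 + 1 / ((enc i : ℝ) + 1) := mem_iInter₂.1 hyW.2 i0 h2
        have h5 : 1 / ((enc i : ℝ) + 1) ≤ 1 / ((n0 : ℝ) + 1) := by
          apply one_div_le_one_div_of_le (by positivity)
          have : (n0 : ℝ) ≤ enc i := by exact_mod_cast h3
          linarith
        have h6 : 1 / 2 + 1 / ((n0 : ℝ) + 1) < f i0 y := hy1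
        linarith
      refine ⟨i, hiI, ?_⟩
      have h7 := hMy i y (mem_iInter₂.1 hy2 i hiI) hyW
      simp only at hyK ⊢
      rw [← hyK, h7]
  · rintro ⟨⟨i, K⟩, ⟨x, hxW, hxK⟩⟩
    obtain ⟨u, ⟨a, ha⟩, hu⟩ := (hG i).2 x (hWG i hxW)
    refine ⟨a, ?_⟩
    rintro y ⟨hyW, hyK⟩
    apply ha
    apply hu
    simp only at hxK hyK
    rw [hxK, ← hyK]
    exact mem_connectedComponentIn (hWG i hyW)

theorem Good.weaken {𝒰 𝒱 : Set (Set X)} {S : Set X} (h : Good 𝒰 S) (hUV : 𝒰 ⊆ 𝒱) :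
    Good 𝒱 S := by
  obtain ⟨ι, hι, G, f, h1, h2, h3, h4⟩ := h
  refine ⟨ι, hι, G, f, h1, fun i => ⟨(h2 i).1, fun x hx => ?_⟩, h3, h4⟩
  obtain ⟨u, hu, hsub⟩ := (h2 i).2 x hx
  exact ⟨u, hUV hu, hsub⟩

theorem main [T4Space X] [LocallyConnectedSpace X] (hsub : Submeta X)
    (hB : ∃ B : Set (Set X), TopologicalSpace.IsTopologicalBasis B ∧
      ∀ U ∈ B, IsCompact (frontier U)) : ParacompactSpace X := by
  obtain ⟨B, hBb, hBc⟩ := hB
  refine paracompact_of_good (fun α s hso hsc => ?_)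
  have h1 : Good {u | IsOpen u ∧ IsCompact (frontier u) ∧ ∃ a, u ⊆ s a} univ := by
    refine good_univ hsub (fun u hu => hu.1) (fun u hu => hu.2.1) ?_
    rw [eq_univ_iff_forall]
    intro x
    obtain ⟨a, ha⟩ := mem_iUnion.1 (hsc ▸ mem_univ x : x ∈ ⋃ a, s a)
    obtain ⟨b, hb, hxb, hbs⟩ := hBb.exists_subset_of_mem_open ha (hso a)
    exact ⟨b, ⟨hBb.isOpen hb, hBc b hb, a, hbs⟩, hxb⟩
  exact h1.weaken (fun u hu => hu.2.2)

end Pool.Agent.Helper761.LCRim
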