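import Mathlib
import Pool.Agent.Helper761.Collar

set_option autoImplicit false

open Set Filter Topology

namespace Pool.Agent.Helper761

/-- the space: the product `ℂ × ℝ` together with one added plane for each ribbon -/
def Sp (F : Fam) : Type := (ℂ × ℝ) ⊕ (F.I × ℂ)

namespace Sp

variable {F : Fam}

/-- inclusion of the base -/
def jj (x : ℂ × ℝ) : Sp F := Sum.inl x

/-- the points of the added planes -/
def kk (b : F.I) (v : ℂ) : Sp F := Sum.inr (b, v)

/-- the chart around the plane of index `b` -/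
noncomputable def ps (b : F.I) (p : ℂ × ℝ) : Sp F :=
  if p.2 = 0 then kk b p.1 else jj (F.th b p)

theorem jj_inj : Function.Injective (jj : ℂ × ℝ → Sp F) := fun _ _ h => Sum.inl_injective h

theorem kk_inj {b b' : F.I} {v v' : ℂ} (h : (kk b v : Sp F) = kk b' v') : b = b' ∧ v = v' := by
  have := Sum.inr_injective h
  exact Prod.mk.inj this

theorem jj_ne_kk (x : ℂ × ℝ) (b : F.I) (v : ℂ) : (jj x : Sp F) ≠ kk b v := by
  intro h
  cases h

theorem ps_zero (b : F.I) {p : ℂ × ℝ} (hp : p.2 = 0) : ps b p = kk b p.1 := if_pos hp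

theorem ps_ne (b : F.I) {p : ℂ × ℝ} (hp : p.2 ≠ 0) : ps b p = jj (F.th b p) := if_neg hp

theorem ps_inj (b : F.I) : Function.Injective (ps b) := by
  intro p p' h
  by_cases hp : p.2 = 0
  · by_cases hp' : p'.2 = 0
    · rw [ps_zero b hp, ps_zero b hp'] at h
      exact Prod.ext (kk_inj h).2 (hp.trans hp'.symm)
    · rw [ps_zero b hp, ps_ne b hp'] at h
      exact absurd h.symm (jj_ne_kk _ _ _)
  · by_cases hp' : p'.2 = 0
    · rw [ps_ne b hp, ps_zero b hp'] at h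
      exact absurd h (jj_ne_kk _ _ _)
    · rw [ps_ne b hp, ps_ne b hp'] at h
      have h2 := jj_inj h
      rw [← F.ph_th b hp, ← F.ph_th b hp', h2]

theorem cover (x : Sp F) : (∃ q, x = jj q) ∨ ∃ b v, x = kk b v := by
  rcases x with q | ⟨b, v⟩
  · exact Or.inl ⟨q, rfl⟩
  · exact Or.inr ⟨b, v, rfl⟩

instance : TopologicalSpace (Sp F) where
  IsOpen U := IsOpen (jj ⁻¹' U) ∧ ∀ b, IsOpen (ps b ⁻¹' U)
  isOpen_univ := ⟨isOpen_univ, fun _ => isOpen_univ⟩
  isOpen_inter := fun U V hU hV => ⟨hU.1.inter hV.1, fun b => (hU.2 b).inter (hV.2 b)⟩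
  isOpen_sUnion := fun S hS => by
    refine ⟨?_, fun b => ?_⟩
    · rw [preimage_sUnion]
      exact isOpen_biUnion fun U hU => (hS U hU).1
    · rw [preimage_sUnion]
      exact isOpen_biUnion fun U hU => (hS U hU).2 b

theorem isOpen_def {U : Set (Sp F)} : IsOpen U ↔ IsOpen (jj ⁻¹' U) ∧ ∀ b, IsOpen (ps b ⁻¹' U) :=
  Iff.rfl

theorem jj_cont : Continuous (jj : ℂ × ℝ → Sp F) := continuous_def.mpr fun _ hU => hU.1

theorem ps_cont (b : F.I) : Continuous (ps b) := continuous_def.mpr fun _ hU => hU.2 b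

theorem ps_preimage_jj (b : F.I) (V : Set (ℂ × ℝ)) :
    ps b ⁻¹' (jj '' V) = {q | q.2 ≠ 0} ∩ F.th b ⁻¹' V := by
  ext p
  constructor
  · rintro ⟨q, hq, h⟩
    by_cases hp : p.2 = 0
    · rw [ps_zero b hp] at h
      exact absurd h (jj_ne_kk _ _ _)
    · rw [ps_ne b hp] at h
      refine ⟨hp, ?_⟩
      show F.th b p ∈ V
      rw [← jj_inj h]
      exact hq
  · rintro ⟨hp, hV⟩
    refine ⟨F.th b p, hV, ?_⟩
    rw [ps_ne b hp]

theorem jj_open : IsOpenMap (jj : ℂ × ℝ → Sp F) := by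
  intro V hV
  refine ⟨?_, fun b => ?_⟩
  · rw [preimage_image_eq _ jj_inj]
    exact hV
  · rw [ps_preimage_jj]
    exact (F.th_continuousOn b).isOpen_inter_preimage Fam.isOpen_ne_snd hV

theorem isOpen_th_image (b : F.I) {V : Set (ℂ × ℝ)} (hV : IsOpen V) :
    IsOpen (F.th b '' ({q | q.2 ≠ 0} ∩ V)) :=
  (F.thH b).isOpen_image_of_subset_source (Fam.isOpen_ne_snd.inter hV) inter_subset_left

theorem jj_preimage_ps (b : F.I) (V : Set (ℂ × ℝ)) :
    jj ⁻¹' (ps b '' V) = F.th b '' ({q | q.2 ≠ 0} ∩ V) := by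
  ext q
  constructor
  · rintro ⟨p, hp, h⟩
    by_cases hp0 : p.2 = 0
    · rw [ps_zero b hp0] at h
      exact absurd h.symm (jj_ne_kk _ _ _)
    · rw [ps_ne b hp0] at h
      exact ⟨p, ⟨hp0, hp⟩, jj_inj h⟩
  · rintro ⟨p, ⟨hp0, hp⟩, h⟩
    refine ⟨p, hp, ?_⟩
    rw [ps_ne b hp0, h]

theorem ps_preimage_ps {b b' : F.I} (hb : b ≠ b') (V : Set (ℂ × ℝ)) :
    ps b' ⁻¹' (ps b '' V) = {q | q.2 ≠ 0} ∩ F.th b' ⁻¹' (F.th b '' ({q | q.2 ≠ 0} ∩ V)) := by
  rw [← jj_preimage_ps]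
  ext p
  constructor
  · rintro ⟨p', hp', h⟩
    by_cases hp : p.2 = 0
    · rw [ps_zero b' hp] at h
      by_cases hp0 : p'.2 = 0
      · rw [ps_zero b hp0] at h
        exact absurd (kk_inj h).1 hb
      · rw [ps_ne b hp0] at h
        exact absurd h (jj_ne_kk _ _ _)
    · refine ⟨hp, p', hp', ?_⟩
      rw [h, ps_ne b' hp]
  · rintro ⟨hp, p', hp', h⟩
    refine ⟨p', hp', ?_⟩
    rw [h, ps_ne b' hp]

theorem ps_open (b : F.I) : IsOpenMap (ps b) := by
  intro V hV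
  refine ⟨?_, fun b' => ?_⟩
  · rw [jj_preimage_ps]
    exact isOpen_th_image b hV
  · by_cases hb : b = b'
    · subst hb
      rw [preimage_image_eq _ (ps_inj b)]
      exact hV
    · rw [ps_preimage_ps hb]
      exact (F.th_continuousOn b').isOpen_inter_preimage Fam.isOpen_ne_snd (isOpen_th_image b hV)

theorem jj_emb : IsOpenEmbedding (jj : ℂ × ℝ → Sp F) :=
  .of_continuous_injective_isOpenMap jj_cont jj_inj jj_open

theorem ps_emb (b : F.I) : IsOpenEmbedding (ps b) :=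
  .of_continuous_injective_isOpenMap (ps_cont b) (ps_inj b) (ps_open b)

theorem kk_eq (b : F.I) (v : ℂ) : kk b v = ps b (v, 0) :=
  (ps_zero b (p := (v, (0 : ℝ))) rfl).symm

/-- the base, even without the plane of height zero, is dense -/
theorem dense_jj : Dense (jj '' {q | q.2 ≠ 0} : Set (Sp F)) := by
  intro x
  rw [mem_closure_iff]
  have key : ∀ (p : ℂ × ℝ) (W : Set (ℂ × ℝ)), IsOpen W → p ∈ W → ∃ p' ∈ W, p'.2 ≠ 0 := by
    intro p W hW hp
    have h1 : Dense {s : ℝ | s ≠ 0} := dense_compl_singleton 0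
    have h2 : Dense ((univ : Set ℂ) ×ˢ {s : ℝ | s ≠ 0}) := dense_univ.prod h1
    obtain ⟨p', h3, h4⟩ := h2.inter_open_nonempty W hW ⟨p, hp⟩
    exact ⟨p', h3, h4.2⟩
  intro U hU hx
  rcases cover x with ⟨q, rfl⟩ | ⟨b, v, rfl⟩
  · obtain ⟨q', h1, h2⟩ := key q (jj ⁻¹' U) hU.1 hx
    exact ⟨jj q', h1, q', h2, rfl⟩
  · rw [kk_eq] at hx
    obtain ⟨p', h1, h2⟩ := key (v, 0) (ps b ⁻¹' U) (hU.2 b) hx
    refine ⟨ps b p', h1, F.th b p', (F.th_snd b h2).1, ?_⟩
    rw [ps_ne b h2]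

theorem sep_jj_kk (q : ℂ × ℝ) (b : F.I) :
    ∃ N : ℝ, 0 < N ∧ Disjoint (jj '' {q' | tq q' < N} : Set (Sp F))
      (ps b '' {p | |p.2| < 1 / N}) ∧ tq q < N := by
  have h0 : 0 ≤ tq q := by unfold tq; positivity
  refine ⟨tq q + 1, by linarith, ?_, by linarith⟩
  rw [Set.disjoint_left]
  rintro x ⟨q', hq', rfl⟩ ⟨p, hp, h⟩
  by_cases hp0 : p.2 = 0
  · rw [ps_zero b hp0] at h
    exact jj_ne_kk _ _ _ h.symm
  · rw [ps_ne b hp0] at h
    have h2 := jj_inj h
    have h3 : tq q' = tt p.2 := by rw [← h2, F.tq_th b hp0]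
    have h4 : tq q' < tq q + 1 := hq'
    have h5 : |p.2| < 1 / (tq q + 1) := hp
    have h6 : 0 < |p.2| := abs_pos.mpr hp0
    have h7 : tq q + 1 < |p.2|⁻¹ := by
      rw [lt_inv_comm₀ (by linarith) h6, ← one_div]
      exact h5
    unfold tt at h3
    linarith

theorem sep_kk_kk {b b' : F.I} (hb : b ≠ b') (v v' : ℂ) :
    ∃ δ : ℝ, 0 < δ ∧ Disjoint (ps b '' (Metric.ball v 1 ×ˢ Metric.ball 0 δ))
      (ps b' '' (Metric.ball v' 1 ×ˢ Metric.ball 0 δ)) := by
  obtain ⟨T, hT⟩ := F.ad b b' hb (‖v‖ + ‖v'‖ + 3)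
  refine ⟨(|T| + 1)⁻¹, by positivity, ?_⟩
  rw [Set.disjoint_left]
  rintro x ⟨p, hp, rfl⟩ ⟨p', hp', h⟩
  by_cases hp0 : p.2 = 0
  · by_cases hp0' : p'.2 = 0
    · rw [ps_zero b hp0, ps_zero b' hp0'] at h
      exact hb (kk_inj h).1.symm
    · rw [ps_zero b hp0, ps_ne b' hp0'] at h
      exact jj_ne_kk _ _ _ h
  · by_cases hp0' : p'.2 = 0
    · rw [ps_ne b hp0, ps_zero b' hp0'] at h
      exact jj_ne_kk _ _ _ h.symm
    · rw [ps_ne b hp0, ps_ne b' hp0'] at h
      have h2 := jj_inj h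
      have h3 : tt p'.2 = tt p.2 := by rw [← F.tq_th b' hp0', h2, F.tq_th b hp0]
      have h4 : F.ww b' p' = F.ww b p := by rw [← F.wq_th b' hp0', h2, F.wq_th b hp0]
      have hs : |p.2| < (|T| + 1)⁻¹ := by
        have := hp.2
        rwa [Metric.mem_ball, dist_zero_right, Real.norm_eq_abs] at this
      have h5 : 0 < |p.2| := abs_pos.mpr hp0
      have h6 : |T| + 1 < |p.2|⁻¹ := by
        rwa [lt_inv_comm₀ (by positivity) h5]
      have h7 : T ≤ tt p.2 := by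
        unfold tt
        have := le_abs_self T
        linarith
      have h8 := hT (tt p.2) h7
      have hr := F.rpos b (tt p.2)
      have hr' := F.rpos b' (tt p.2)
      have hv : ‖p.1‖ < ‖v‖ + 1 := by
        have h9 : dist p.1 v < 1 := hp.1
        rw [dist_eq_norm] at h9
        calc ‖p.1‖ = ‖v + (p.1 - v)‖ := by congr 1; ring
          _ ≤ ‖v‖ + ‖p.1 - v‖ := norm_add_le _ _
          _ < ‖v‖ + 1 := by linarith
      have hv' : ‖p'.1‖ < ‖v'‖ + 1 := by
        have h9 : dist p'.1 v' < 1 := hp'.1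
        rw [dist_eq_norm] at h9
        calc ‖p'.1‖ = ‖v' + (p'.1 - v')‖ := by congr 1; ring
          _ ≤ ‖v'‖ + ‖p'.1 - v'‖ := norm_add_le _ _
          _ < ‖v'‖ + 1 := by linarith
      unfold Fam.ww at h4
      rw [h3] at h4
      have h10 : F.c b (tt p.2) - F.c b' (tt p.2) =
          (F.r b' (tt p.2) : ℂ) * p'.1 - (F.r b (tt p.2) : ℂ) * p.1 := by
        linear_combination -h4
      rw [dist_eq_norm, h10] at h8
      have h11 : ‖(F.r b' (tt p.2) : ℂ) * p'.1 - (F.r b (tt p.2) : ℂ) * p.1‖ ≤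
          F.r b' (tt p.2) * ‖p'.1‖ + F.r b (tt p.2) * ‖p.1‖ := by
        refine (norm_sub_le _ _).trans (le_of_eq ?_)
        rw [norm_mul, norm_mul, Complex.norm_real, Complex.norm_real, Real.norm_eq_abs,
          Real.norm_eq_abs, abs_of_pos hr, abs_of_pos hr']
      set m := max (F.r b (tt p.2)) (F.r b' (tt p.2)) with hm
      have h12 : F.r b (tt p.2) ≤ m := le_max_left _ _
      have h13 : F.r b' (tt p.2) ≤ m := le_max_right _ _
      have hmp : 0 < m := lt_of_lt_of_le hr h12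
      have h14 : F.r b' (tt p.2) * ‖p'.1‖ ≤ m * (‖v'‖ + 1) :=
        mul_le_mul h13 hv'.le (norm_nonneg _) hmp.le
      have h15 : F.r b (tt p.2) * ‖p.1‖ ≤ m * (‖v‖ + 1) :=
        mul_le_mul h12 hv.le (norm_nonneg _) hmp.le
      nlinarith

instance : T2Space (Sp F) := by
  refine ⟨fun x y hxy => ?_⟩
  have hjk : ∀ (q : ℂ × ℝ) (b : F.I) (v : ℂ), ∃ u w : Set (Sp F), IsOpen u ∧ IsOpen w ∧
      jj q ∈ u ∧ kk b v ∈ w ∧ Disjoint u w := by
    intro q b v
    obtain ⟨N, hN, hd, hq⟩ := sep_jj_kk (F := F) q b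
    refine ⟨_, _, jj_open _ (isOpen_lt Fam.tq_continuous continuous_const),
      ps_open b _ (isOpen_lt (by fun_prop) continuous_const), ⟨q, hq, rfl⟩, ?_, hd⟩
    refine ⟨(v, 0), ?_, (kk_eq b v).symm⟩
    show |(0 : ℝ)| < 1 / N
    rw [abs_zero]
    positivity
  rcases cover x with ⟨q, rfl⟩ | ⟨b, v, rfl⟩
  · rcases cover y with ⟨q', rfl⟩ | ⟨b', v', rfl⟩
    · have hne : q ≠ q' := fun h => hxy (by rw [h])
      obtain ⟨u, w, hu, hw, h1, h2, h3⟩ := t2_separation hne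
      refine ⟨jj '' u, jj '' w, jj_open _ hu, jj_open _ hw, ⟨q, h1, rfl⟩, ⟨q', h2, rfl⟩, ?_⟩
      exact (disjoint_image_iff jj_inj).mpr h3
    · exact hjk q b' v'
  · rcases cover y with ⟨q', rfl⟩ | ⟨b', v', rfl⟩
    · obtain ⟨u, w, hu, hw, h1, h2, h3⟩ := hjk q' b v
      exact ⟨w, u, hw, hu, h2, h1, h3.symm⟩
    · by_cases hb : b = b'
      · subst hb
        have hne : v ≠ v' := fun h => hxy (by rw [h])
        obtain ⟨u, w, hu, hw, h1, h2, h3⟩ := t2_separation hne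
        refine ⟨ps b '' (u ×ˢ univ), ps b '' (w ×ˢ univ), ps_open b _ (hu.prod isOpen_univ),
          ps_open b _ (hw.prod isOpen_univ), ⟨(v, 0), ⟨h1, mem_univ _⟩, (kk_eq b v).symm⟩,
          ⟨(v', 0), ⟨h2, mem_univ _⟩, (kk_eq b v').symm⟩, ?_⟩
        refine (disjoint_image_iff (ps_inj b)).mpr ?_
        rw [Set.disjoint_left]
        rintro p ⟨hp, -⟩ ⟨hp', -⟩
        exact Set.disjoint_left.mp h3 hp hp'
      · obtain ⟨δ, hδ, hd⟩ := sep_kk_kk hb v v'
        refine ⟨_, _, ps_open b _ (Metric.isOpen_ball.prod Metric.isOpen_ball),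
          ps_open b' _ (Metric.isOpen_ball.prod Metric.isOpen_ball),
          ⟨(v, 0), ⟨Metric.mem_ball_self one_pos, Metric.mem_ball_self hδ⟩, (kk_eq b v).symm⟩,
          ⟨(v', 0), ⟨Metric.mem_ball_self one_pos, Metric.mem_ball_self hδ⟩, (kk_eq b' v').symm⟩, hd⟩

theorem dense_range_jj : DenseRange (jj : ℂ × ℝ → Sp F) :=
  dense_jj.mono (image_subset_range _ _)

instance : ConnectedSpace (Sp F) := by
  have h1 : IsPreconnected (range (jj : ℂ × ℝ → Sp F)) := isPreconnected_range jj_cont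
  have h2 : IsPreconnected (closure (range (jj : ℂ × ℝ → Sp F))) := h1.closure
  rw [dense_range_jj.closure_range] at h2
  exact { toPreconnectedSpace := ⟨h2⟩, toNonempty := ⟨jj (0, 0)⟩ }

/-- the model -/
noncomputable def lin : (ℂ × ℝ) ≃L[ℝ] EuclideanSpace ℝ (Fin 3) :=
  ContinuousLinearEquiv.ofFinrankEq (by
    rw [Module.finrank_prod, Complex.finrank_real_complex, Module.finrank_self,
      finrank_euclideanSpace, Fintype.card_fin])

/-- the inverse of an open embedding of `ℂ × ℝ`, as a chart -/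
noncomputable def chrt (g : ℂ × ℝ → Sp F) (hg : IsOpenEmbedding g) :
    OpenPartialHomeomorph (Sp F) (EuclideanSpace ℝ (Fin 3)) :=
  (hg.toOpenPartialHomeomorph g).symm.trans lin.toHomeomorph.toOpenPartialHomeomorph

theorem chrt_source (g : ℂ × ℝ → Sp F) (hg : IsOpenEmbedding g) :
    (chrt g hg).source = range g := by
  unfold chrt
  rw [OpenPartialHomeomorph.trans_source]
  simp

noncomputable def chAt (x : Sp F) : OpenPartialHomeomorph (Sp F) (EuclideanSpace ℝ (Fin 3)) :=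
  match x with
  | Sum.inl _ => chrt jj jj_emb
  | Sum.inr p => chrt (ps p.1) (ps_emb p.1)

theorem mem_chAt (x : Sp F) : x ∈ (chAt x).source := by
  rcases x with q | ⟨b, v⟩
  · show _ ∈ (chrt jj jj_emb).source
    rw [chrt_source]
    exact ⟨q, rfl⟩
  · show _ ∈ (chrt (ps b) (ps_emb b)).source
    rw [chrt_source]
    exact ⟨(v, 0), (kk_eq b v).symm⟩

noncomputable instance : ChartedSpace (EuclideanSpace ℝ (Fin 3)) (Sp F) where
  atlas := univ
  chartAt := chAt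
  mem_chart_source := mem_chAt
  chart_mem_atlas := fun _ => mem_univ _

end Sp

end Pool.Agent.Helper761
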