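import Mathlib
import Pool.Agent.Helper761.Space

set_option autoImplicit false

open Set Filter Topology

namespace Pool.Agent.Helper761

namespace Sp

variable {F : Fam}

theorem isCompact_tq (N : ℝ) : IsCompact {q : ℂ × ℝ | tq q ≤ N} := by
  refine Metric.isCompact_of_isClosed_isBounded
    (isClosed_le Fam.tq_continuous continuous_const) ?_
  refine (Metric.isBounded_closedBall (x := (0 : ℂ × ℝ)) (r := N)).subset ?_
  intro q hq
  have h : ‖q.1‖ + |q.2| ≤ N := hq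
  rw [mem_closedBall_zero_iff, Prod.norm_def, Real.norm_eq_abs]
  have h1 := norm_nonneg q.1
  have h2 := abs_nonneg q.2
  exact max_le (by linarith) (by linarith)

theorem exists_bound {K : Set (ℂ × ℝ)} (hK : IsCompact K) {g : ℂ × ℝ → ℝ} (hg : Continuous g) :
    ∃ C : ℝ, ∀ q ∈ K, g q ≤ C := by
  obtain ⟨C, hC⟩ := (hK.image hg).bddAbove
  exact ⟨C, fun q hq => hC ⟨q, hq, rfl⟩⟩

/-- a function unbounded above is unbounded above on one of the two sides -/
theorem exists_side {f : Sp F → ℝ} (hf : Continuous f) (hb : ¬ BddAbove (range f)) :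
    ∃ e : ℝ, |e| = 1 ∧ ∀ n : ℝ, ∃ q : ℂ × ℝ, q.2 ≠ 0 ∧ q.2 / |q.2| = e ∧ n < f (jj q) := by
  by_contra hcon
  push Not at hcon
  obtain ⟨n1, h1⟩ := hcon 1 abs_one
  obtain ⟨n2, h2⟩ := hcon (-1) (by rw [abs_neg, abs_one])
  refine hb ⟨max n1 n2, ?_⟩
  have hcl : IsClosed {x | f x ≤ max n1 n2} := isClosed_le hf continuous_const
  have hsub : (jj '' {q | q.2 ≠ 0} : Set (Sp F)) ⊆ {x | f x ≤ max n1 n2} := by
    rintro x ⟨q, hq, rfl⟩
    rcases lt_or_gt_of_ne (show q.2 ≠ 0 from hq) with h | h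
    · refine (h2 q hq ?_).trans (le_max_right _ _)
      rw [abs_of_neg h, div_neg, div_self h.ne]
    · refine (h1 q hq ?_).trans (le_max_left _ _)
      rw [abs_of_pos h, div_self h.ne']
  have hall : closure (jj '' {q | q.2 ≠ 0} : Set (Sp F)) ⊆ {x | f x ≤ max n1 n2} :=
    closure_minimal hsub hcl
  rw [dense_jj.closure_eq] at hall
  rintro y ⟨x, rfl⟩
  exact hall (mem_univ x)

/-- every continuous real function on the space is bounded above -/
theorem bddAbove_of_continuous {f : Sp F → ℝ} (hf : Continuous f) : BddAbove (range f) := by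
  by_contra hb
  obtain ⟨e, he, hun⟩ := exists_side hf hb
  have hcont : Continuous (fun p : ℂ × ℝ => f (jj (kp e p.1 p.2))) := by
    have h1 : Continuous (fun p : ℂ × ℝ => ((e, p.1, p.2) : ℝ × ℂ × ℝ)) := by fun_prop
    exact hf.comp (jj_cont.comp (Fam.kp_continuous.comp h1))
  obtain ⟨b, K, hfreq⟩ := F.cap
    (fun n => {p : ℂ × ℝ | (n : ℝ) + 1 < p.2 ∧ (n : ℝ) < f (jj (kp e p.1 p.2))})
    (fun n => (isOpen_lt continuous_const continuous_snd).inter
      (isOpen_lt continuous_const hcont))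
    (fun n => by
      obtain ⟨C, hC⟩ := exists_bound (isCompact_tq (n + 1)) (hf.comp jj_cont)
      obtain ⟨q, hq, hqe, hn⟩ := hun (max n C)
      refine ⟨(wq q, tq q), ?_, ?_⟩
      · show (n : ℝ) + 1 < tq q
        by_contra hlt
        have h1 := hC q (not_lt.mp hlt)
        have h2 : f (jj q) ≤ C := h1
        exact absurd (lt_of_le_of_lt (le_max_right _ _) hn) (not_lt.mpr h2)
      · show (n : ℝ) < f (jj (kp e (wq q) (tq q)))
        rw [← hqe, kp_wq_tq hq]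
        exact lt_of_le_of_lt (le_max_left _ _) hn)
    (fun n p hp => by
      have h1 : (n : ℝ) + 1 < p.2 := hp.1
      linarith)
  obtain ⟨C, hC⟩ := exists_bound
    ((isCompact_closedBall (0 : ℂ) K).prod (isCompact_closedBall (0 : ℝ) 1)) (hf.comp (ps_cont b))
  obtain ⟨N, hN⟩ := exists_nat_gt (max C 1)
  obtain ⟨n, hn, hnN⟩ := (hfreq.and_eventually (eventually_ge_atTop N)).exists
  obtain ⟨p, ⟨hp1, hp2⟩, hpK⟩ := hn
  have hp1' : (n : ℝ) + 1 < p.2 := hp1
  have hp2' : (n : ℝ) < f (jj (kp e p.1 p.2)) := hp2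
  have hNn : (N : ℝ) ≤ n := by exact_mod_cast hnN
  have hn1 : 1 < (n : ℝ) := lt_of_le_of_lt (le_max_right _ _) (lt_of_lt_of_le hN hNn)
  have hnC : C < (n : ℝ) := lt_of_le_of_lt (le_max_left _ _) (lt_of_lt_of_le hN hNn)
  have ht : 0 < p.2 - 1 := by linarith
  have hr := F.rpos b p.2
  have hs : |e * (p.2 - 1)⁻¹| = (p.2 - 1)⁻¹ := by
    rw [abs_mul, he, one_mul, abs_of_pos (inv_pos.mpr ht)]
  have he0 : e ≠ 0 := fun h => by rw [h, abs_zero] at he; exact zero_ne_one he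
  have hs0 : e * (p.2 - 1)⁻¹ ≠ 0 := mul_ne_zero he0 (inv_pos.mpr ht).ne'
  have htt : tt (e * (p.2 - 1)⁻¹) = p.2 := by
    unfold tt
    rw [hs, inv_inv]
    ring
  set v : ℂ := (((F.r b p.2)⁻¹ : ℝ) : ℂ) * (p.1 - F.c b p.2) with hv
  have hpt : ps b (v, e * (p.2 - 1)⁻¹) = jj (kp e p.1 p.2) := by
    rw [ps_ne b (p := (v, e * (p.2 - 1)⁻¹)) hs0]
    congr 1
    unfold Fam.th Fam.ww
    show kp (e * (p.2 - 1)⁻¹ / |e * (p.2 - 1)⁻¹|)
      (F.c b (tt (e * (p.2 - 1)⁻¹)) + (F.r b (tt (e * (p.2 - 1)⁻¹)) : ℂ) * v)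
      (tt (e * (p.2 - 1)⁻¹)) = kp e p.1 p.2
    rw [htt, hs]
    have h1 : e * (p.2 - 1)⁻¹ / (p.2 - 1)⁻¹ = e := by
      have := ht.ne'
      field_simp
    have h2 : F.c b p.2 + (F.r b p.2 : ℂ) * v = p.1 := by
      rw [hv, ← mul_assoc, ← Complex.ofReal_mul, mul_inv_cancel₀ hr.ne']
      simp
    rw [h1, h2]
  have hmem : (v, e * (p.2 - 1)⁻¹) ∈ Metric.closedBall (0 : ℂ) K ×ˢ Metric.closedBall (0 : ℝ) 1 := by
    refine ⟨?_, ?_⟩
    · show v ∈ Metric.closedBall (0 : ℂ) K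
      rw [mem_closedBall_zero_iff, hv, norm_mul, Complex.norm_real, Real.norm_eq_abs,
        abs_of_pos (inv_pos.mpr hr), ← dist_eq_norm, inv_mul_le_iff₀ hr, mul_comm]
      exact hpK
    · show e * (p.2 - 1)⁻¹ ∈ Metric.closedBall (0 : ℝ) 1
      rw [mem_closedBall_zero_iff, Real.norm_eq_abs, hs]
      exact inv_le_one_of_one_le₀ (by linarith)
  have h3 : f (ps b (v, e * (p.2 - 1)⁻¹)) ≤ C := hC _ hmem
  rw [hpt] at h3
  linarith

theorem exists_index (F : Fam) : Nonempty F.I := by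
  obtain ⟨b, -⟩ := F.cap (fun n => {p : ℂ × ℝ | (n : ℝ) < p.2})
    (fun n => isOpen_lt continuous_const continuous_snd)
    (fun n => ⟨(0, n + 1), by show (n : ℝ) < n + 1; linarith⟩) (fun n p hp => hp)
  exact ⟨b⟩

/-- the integer points of an added plane have no cluster point -/
theorem no_cluster (b : F.I) (x : Sp F) :
    ¬ MapClusterPt x atTop (fun k : ℕ => (kk b (k : ℂ) : Sp F)) := by
  intro h
  rcases cover x with ⟨q, rfl⟩ | ⟨b', v, rfl⟩
  · have h1 : range (jj : ℂ × ℝ → Sp F) ∈ 𝓝 (jj q : Sp F) :=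
      jj_emb.isOpen_range.mem_nhds ⟨q, rfl⟩
    obtain ⟨k, q', hk⟩ := (h.frequently h1).exists
    exact jj_ne_kk _ _ _ hk
  · have h1 : ps b' '' (Metric.ball v 1 ×ˢ univ) ∈ 𝓝 (kk b' v : Sp F) := by
      refine (ps_open b' _ (Metric.isOpen_ball.prod isOpen_univ)).mem_nhds ?_
      exact ⟨(v, 0), ⟨Metric.mem_ball_self one_pos, mem_univ _⟩, (kk_eq b' v).symm⟩
    obtain ⟨N, hN⟩ := exists_nat_gt (‖v‖ + 1)
    obtain ⟨k, ⟨p, hp, hk⟩, hkN⟩ := ((h.frequently h1).and_eventually (eventually_ge_atTop N)).exists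
    by_cases hp0 : p.2 = 0
    · rw [ps_zero b' hp0] at hk
      have h2 := (kk_inj hk).2
      have h3 : dist p.1 v < 1 := hp.1
      rw [h2, dist_eq_norm] at h3
      have h4 : ‖(k : ℂ)‖ ≤ ‖(k : ℂ) - v‖ + ‖v‖ := by
        calc ‖(k : ℂ)‖ = ‖((k : ℂ) - v) + v‖ := by congr 1; ring
          _ ≤ _ := norm_add_le _ _
      rw [Complex.norm_natCast] at h4
      have h5 : (N : ℝ) ≤ k := by exact_mod_cast hkN
      linarith
    · rw [ps_ne b' hp0] at hk
      exact jj_ne_kk _ _ _ hk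

end Sp

end Pool.Agent.Helper761
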