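import Mathlib
import Pool.Agent.Helper761.Pseudo

set_option autoImplicit false

open Set Filter Topology

namespace Pool.Agent.Helper761

namespace Sp

variable {F : Fam}

instance : LocallyCompactSpace (Sp F) :=
  ChartedSpace.locallyCompactSpace (EuclideanSpace ℝ (Fin 3)) (Sp F)

instance : LocallyConnectedSpace (Sp F) :=
  ChartedSpace.locallyConnectedSpace (EuclideanSpace ℝ (Fin 3)) (Sp F)

instance : RegularSpace (Sp F) := inferInstance

/-- the covers by small sets -/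
def cov (F : Fam) (n : ℕ) : Set (Set (Sp F)) :=
  {V | (∃ q : ℂ × ℝ, V = jj '' Metric.ball q (1 / ((n : ℝ) + 1))) ∨
    ∃ (b : F.I) (v : ℂ), V = ps b '' (Metric.ball (v, 0) (1 / ((n : ℝ) + 1)))}

theorem isOpen_of_mem_cov {n : ℕ} {V : Set (Sp F)} (hV : V ∈ cov F n) : IsOpen V := by
  rcases hV with ⟨q, rfl⟩ | ⟨b, v, rfl⟩
  · exact jj_open _ Metric.isOpen_ball
  · exact ps_open b _ Metric.isOpen_ball

theorem sUnion_cov (n : ℕ) : ⋃₀ cov F n = univ := by
  refine eq_univ_of_forall fun x => ?_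
  have h0 : (0 : ℝ) < 1 / ((n : ℝ) + 1) := by positivity
  rcases cover x with ⟨q, rfl⟩ | ⟨b, v, rfl⟩
  · exact ⟨_, Or.inl ⟨q, rfl⟩, q, Metric.mem_ball_self h0, rfl⟩
  · exact ⟨_, Or.inr ⟨b, v, rfl⟩, (v, 0), Metric.mem_ball_self h0, (kk_eq b v).symm⟩

theorem star_cov (x : Sp F) {U : Set (Sp F)} (hU : IsOpen U) (hx : x ∈ U) :
    ∃ n, ⋃₀ {V ∈ cov F n | x ∈ V} ⊆ U := by
  rcases cover x with ⟨q, rfl⟩ | ⟨b, v, rfl⟩
  · obtain ⟨ε, hε, hball⟩ := Metric.isOpen_iff.mp hU.1 q hx
    obtain ⟨n, hn⟩ := exists_nat_gt (max (tq q) (2 / ε))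
    have hn1 : tq q < n := lt_of_le_of_lt (le_max_left _ _) hn
    have hn2 : 2 / ε < n := lt_of_le_of_lt (le_max_right _ _) hn
    have h0 : (0 : ℝ) < (n : ℝ) + 1 := by positivity
    refine ⟨n, ?_⟩
    rintro y ⟨V, ⟨hV, hxV⟩, hy⟩
    rcases hV with ⟨q', rfl⟩ | ⟨b, v, rfl⟩
    · obtain ⟨q1, hq1, h1⟩ := hxV
      obtain ⟨y1, hy1, rfl⟩ := hy
      rw [jj_inj h1] at hq1
      refine hball ?_
      have h2 : dist y1 q' < 1 / ((n : ℝ) + 1) := hy1
      have h3 : dist q q' < 1 / ((n : ℝ) + 1) := hq1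
      have h4 : dist y1 q ≤ dist y1 q' + dist q q' := dist_triangle_right _ _ _
      have h5 : 2 / ((n : ℝ) + 1) < ε := by
        rw [div_lt_iff₀ h0]
        rw [div_lt_iff₀ hε] at hn2
        nlinarith
      have h6 : 2 / ((n : ℝ) + 1) = 1 / ((n : ℝ) + 1) + 1 / ((n : ℝ) + 1) := by ring
      show dist y1 q < ε
      linarith
    · exfalso
      obtain ⟨p, hp, h1⟩ := hxV
      by_cases hp0 : p.2 = 0
      · rw [ps_zero b hp0] at h1
        exact jj_ne_kk _ _ _ h1.symm
      · rw [ps_ne b hp0] at h1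
        have h2 : tq q = tt p.2 := by rw [← jj_inj h1, F.tq_th b hp0]
        have h3 : dist p (v, 0) < 1 / ((n : ℝ) + 1) := hp
        have h4 : |p.2| ≤ dist p (v, 0) := by
          rw [Prod.dist_eq]
          refine le_trans (le_of_eq ?_) (le_max_right _ _)
          rw [dist_zero_right, Real.norm_eq_abs]
        have h5 : 0 < |p.2| := abs_pos.mpr hp0
        have h6 : (n : ℝ) + 1 < |p.2|⁻¹ := by
          rw [lt_inv_comm₀ h0 h5, ← one_div]
          linarith
        unfold tt at h2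
        linarith
  · rw [kk_eq] at hx
    obtain ⟨ε, hε, hball⟩ := Metric.isOpen_iff.mp (hU.2 b) (v, 0) hx
    obtain ⟨n, hn⟩ := exists_nat_gt (2 / ε)
    have h0 : (0 : ℝ) < (n : ℝ) + 1 := by positivity
    refine ⟨n, ?_⟩
    rintro y ⟨V, ⟨hV, hxV⟩, hy⟩
    rcases hV with ⟨q', rfl⟩ | ⟨b', v', rfl⟩
    · exfalso
      obtain ⟨q1, hq1, h1⟩ := hxV
      exact jj_ne_kk _ _ _ h1
    · obtain ⟨p, hp, h1⟩ := hxV
      by_cases hp0 : p.2 = 0
      · rw [ps_zero b' hp0] at h1
        obtain ⟨rfl, h2⟩ := kk_inj h1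
        obtain ⟨y1, hy1, rfl⟩ := hy
        refine hball ?_
        have hpv : p = (v, 0) := Prod.ext h2 hp0
        rw [hpv] at hp
        have h2 : dist y1 (v', 0) < 1 / ((n : ℝ) + 1) := hy1
        have h3 : dist ((v, 0) : ℂ × ℝ) (v', 0) < 1 / ((n : ℝ) + 1) := hp
        have h4 : dist y1 (v, 0) ≤ dist y1 (v', 0) + dist ((v, 0) : ℂ × ℝ) (v', 0) :=
          dist_triangle_right _ _ _
        have h5 : 2 / ((n : ℝ) + 1) < ε := by
          rw [div_lt_iff₀ h0]
          rw [div_lt_iff₀ hε] at hn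
          nlinarith
        have h6 : 2 / ((n : ℝ) + 1) = 1 / ((n : ℝ) + 1) + 1 / ((n : ℝ) + 1) := by ring
        show dist y1 (v, 0) < ε
        linarith
      · rw [ps_ne b' hp0] at h1
        exact absurd h1 (jj_ne_kk _ _ _)

/-- the added planes are closed copies of the plane -/
theorem kk_closedEmb (b : F.I) : IsClosedEmbedding (kk b : ℂ → Sp F) := by
  have h1 : IsEmbedding (fun v : ℂ => ((v, 0) : ℂ × ℝ)) :=
    IsEmbedding.of_leftInverse (f := Prod.fst) (fun v => rfl) continuous_fst (by fun_prop)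
  have h2 : (kk b : ℂ → Sp F) = ps b ∘ fun v : ℂ => ((v, 0) : ℂ × ℝ) := by
    funext v
    exact kk_eq b v
  refine ⟨?_, ?_⟩
  · rw [h2]
    exact (ps_emb b).isEmbedding.comp h1
  · rw [← isOpen_compl_iff]
    refine ⟨?_, fun b' => ?_⟩
    · have : (jj ⁻¹' (range (kk b : ℂ → Sp F))ᶜ : Set (ℂ × ℝ)) = univ := by
        refine eq_univ_of_forall fun q => ?_
        rintro ⟨v, hv⟩
        exact jj_ne_kk _ _ _ hv.symm
      rw [this]
      exact isOpen_univ
    · by_cases hb : b = b'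
      · subst hb
        have : (ps b ⁻¹' (range (kk b : ℂ → Sp F))ᶜ : Set (ℂ × ℝ)) = {q | q.2 ≠ 0} := by
          ext p
          constructor
          · intro hp hp0
            exact hp ⟨p.1, (ps_zero b hp0).symm⟩
          · rintro hp ⟨v, hv⟩
            rw [ps_ne b hp] at hv
            exact jj_ne_kk _ _ _ hv.symm
        rw [this]
        exact Fam.isOpen_ne_snd
      · have : (ps b' ⁻¹' (range (kk b : ℂ → Sp F))ᶜ : Set (ℂ × ℝ)) = univ := by
          refine eq_univ_of_forall fun p => ?_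
          rintro ⟨v, hv⟩
          by_cases hp0 : p.2 = 0
          · rw [ps_zero b' hp0] at hv
            exact hb (kk_inj hv).1
          · rw [ps_ne b' hp0] at hv
            exact jj_ne_kk _ _ _ hv.symm
        rw [this]
        exact isOpen_univ

/-- the space is not normal, in particular not metrizable -/
theorem not_normal (F : Fam) : ¬ NormalSpace (Sp F) := by
  intro hN
  obtain ⟨b⟩ := exists_index F
  obtain ⟨g, hg⟩ := ContinuousMap.exists_extension (kk_closedEmb b) ⟨Complex.re, Complex.continuous_re⟩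
  obtain ⟨C, hC⟩ := bddAbove_of_continuous g.continuous
  obtain ⟨n, hn⟩ := exists_nat_gt C
  have h1 : g (kk b (n : ℂ)) = n := by
    have := congrArg (fun h : C(ℂ, ℝ) => h (n : ℂ)) hg
    simpa using this
  have h2 : g (kk b (n : ℂ)) ≤ C := hC ⟨_, rfl⟩
  linarith

theorem not_metrizable (F : Fam) : ¬ TopologicalSpace.MetrizableSpace (Sp F) := by
  intro h
  exact not_normal F inferInstance

end Sp

end Pool.Agent.Helper761
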