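import Mathlib
import Pool.Agent.Helper761.Omega1
import Pool.Agent.Helper761.BaloghBennett

set_option autoImplicit false

namespace Pool.Agent.Helper761.QD

open Set Topology TopologicalSpace
open Pool.Agent.Helper761.Om

variable {X : Type*} [TopologicalSpace X]

/-- A countable family of open sets containing a base at each point of `N`. -/
structure LocBase (N : Set X) (𝒷 : Set (Set X)) : Prop where
  ctb : 𝒷.Countable
  opn : ∀ b ∈ 𝒷, IsOpen b
  bas : ∀ y ∈ N, ∀ U, IsOpen U → y ∈ U → ∃ b ∈ 𝒷, y ∈ b ∧ b ⊆ U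

theorem exists_locBase {N : Set X} (hN : IsOpen N) [SecondCountableTopology N] :
    ∃ 𝒷, LocBase N 𝒷 := by
  refine ⟨(fun s : Set N => Subtype.val '' s) '' (countableBasis N), ?_, ?_, ?_⟩
  · exact (countable_countableBasis N).image _
  · rintro _ ⟨s, hs, rfl⟩
    exact hN.isOpenMap_subtype_val s (isOpen_of_mem_countableBasis hs)
  · intro y hy U hU hyU
    obtain ⟨s, hs, hys, hsU⟩ := (isBasis_countableBasis N).exists_subset_of_mem_open
      (show (⟨y, hy⟩ : N) ∈ Subtype.val ⁻¹' U from hyU) (hU.preimage continuous_subtype_val)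
    exact ⟨_, ⟨s, hs, rfl⟩, ⟨_, hys, rfl⟩, by
      rintro _ ⟨z, hz, rfl⟩
      exact hsU hz⟩

/-- Countably many pairs of open sets with disjoint closures separating points from compacta. -/
theorem exists_pairs [T3Space X] {N : Set X} {𝒷 : Set (Set X)} (hb : LocBase N 𝒷) :
    ∃ P Q : ℕ → Set X, (∀ k, IsOpen (P k)) ∧ (∀ k, IsOpen (Q k)) ∧
      (∀ k, Disjoint (closure (P k)) (closure (Q k))) ∧
      ∀ p ∈ N, ∀ C ⊆ N, IsCompact C → p ∉ C → ∃ k, p ∈ P k ∧ C ⊆ Q k := by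
  let 𝒬 : Set (Set X) := (fun t : Set (Set X) => ⋃₀ t) '' {t | t.Finite ∧ t ⊆ 𝒷}
  have h𝒬c : 𝒬.Countable := (Set.countable_setOf_finite_subset hb.ctb).image _
  have h𝒬o : ∀ q ∈ 𝒬, IsOpen q := by
    rintro _ ⟨t, ht, rfl⟩
    exact isOpen_sUnion fun b hbt => hb.opn b (ht.2 hbt)
  have h𝒬u : ∀ q ∈ 𝒬, ∀ q' ∈ 𝒬, q ∪ q' ∈ 𝒬 := by
    rintro _ ⟨t, ht, rfl⟩ _ ⟨t', ht', rfl⟩
    exact ⟨t ∪ t', ⟨ht.1.union ht'.1, union_subset ht.2 ht'.2⟩, sUnion_union t t'⟩
  have h𝒬b : ∀ b ∈ 𝒷, b ∈ 𝒬 := by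
    intro b hbb
    exact ⟨{b}, ⟨finite_singleton b, singleton_subset_iff.2 hbb⟩, sUnion_singleton b⟩
  have h𝒬e : ∅ ∈ 𝒬 := ⟨∅, ⟨finite_empty, empty_subset _⟩, sUnion_empty⟩
  let PP : Set (Set X × Set X) := insert (∅, ∅)
    {z | z ∈ 𝒷 ×ˢ 𝒬 ∧ Disjoint (closure z.1) (closure z.2)}
  have hPPc : PP.Countable := by
    apply Countable.insert
    exact (hb.ctb.prod h𝒬c).mono fun z hz => hz.1
  obtain ⟨f, hf⟩ := hPPc.exists_eq_range ⟨_, mem_insert _ _⟩
  have hfm : ∀ k, f k ∈ PP := fun k => by rw [hf]; exact ⟨k, rfl⟩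
  refine ⟨fun k => (f k).1, fun k => (f k).2, ?_, ?_, ?_, ?_⟩
  · intro k
    show IsOpen (f k).1
    rcases hfm k with h | h
    · rw [h]
      exact isOpen_empty
    · exact hb.opn _ h.1.1
  · intro k
    show IsOpen (f k).2
    rcases hfm k with h | h
    · rw [h]
      exact isOpen_empty
    · exact h𝒬o _ h.1.2
  · intro k
    show Disjoint (closure (f k).1) (closure (f k).2)
    rcases hfm k with h | h
    · rw [h]
      simp
    · exact h.2
  · intro p hp C hCN hC hpC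
    have key : ∃ P ∈ 𝒷, ∃ Q ∈ 𝒬, p ∈ P ∧ C ⊆ Q ∧ Disjoint (closure P) (closure Q) := by
      refine hC.induction_on (p := fun s => ∃ P ∈ 𝒷, ∃ Q ∈ 𝒬, p ∈ P ∧ s ⊆ Q ∧
        Disjoint (closure P) (closure Q)) ?_ ?_ ?_ ?_
      · obtain ⟨b, hbb, hpb, _⟩ := hb.bas p hp univ isOpen_univ (mem_univ p)
        exact ⟨b, hbb, ∅, h𝒬e, hpb, Subset.rfl, by simp⟩
      · rintro s t hst ⟨P, hP, Q, hQ, h1, h2, h3⟩
        exact ⟨P, hP, Q, hQ, h1, hst.trans h2, h3⟩
      · rintro s t ⟨P, hP, Q, hQ, h1, h2, h3⟩ ⟨P', hP', Q', hQ', h1', h2', h3'⟩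
        obtain ⟨b, hbb, hpb, hbs⟩ := hb.bas p hp (P ∩ P') ((hb.opn P hP).inter (hb.opn P' hP'))
          ⟨h1, h1'⟩
        refine ⟨b, hbb, Q ∪ Q', h𝒬u Q hQ Q' hQ', hpb, union_subset_union h2 h2', ?_⟩
        rw [closure_union, disjoint_union_right]
        exact ⟨h3.mono_left (closure_mono (hbs.trans inter_subset_left)),
          h3'.mono_left (closure_mono (hbs.trans inter_subset_right))⟩
      · intro c hc
        have hne : p ≠ c := by
          rintro rfl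
          exact hpC hc
        obtain ⟨u, hu, hu2, v, hv, hv2, huv⟩ := exists_open_nhds_disjoint_closure hne
        obtain ⟨b, hbb, hpb, hbs⟩ := hb.bas p hp u hu2 hu
        obtain ⟨b', hbb', hcb', hbs'⟩ := hb.bas c (hCN hc) v hv2 hv
        refine ⟨b', mem_nhdsWithin_of_mem_nhds ((hb.opn b' hbb').mem_nhds hcb'), b, hbb, b',
          h𝒬b b' hbb', hpb, Subset.rfl, ?_⟩
        exact huv.mono (closure_mono hbs) (closure_mono hbs')
    obtain ⟨P, hP, Q, hQ, h1, h2, h3⟩ := key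
    have hmem : (P, Q) ∈ PP := Or.inr ⟨⟨hP, hQ⟩, h3⟩
    rw [hf] at hmem
    obtain ⟨k, hk⟩ := hmem
    exact ⟨k, by simp only [hk]; exact h1, by simp only [hk]; exact h2⟩

end Pool.Agent.Helper761.QD
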