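import Mathlib
import Pool.Agent.Helper761.QDev1

set_option autoImplicit false

namespace Pool.Agent.Helper761.QD

open Set Topology TopologicalSpace
open Pool.Agent.Helper761.Om

/-- Countably many pairs of disjoint open sets attached to a relatively discrete family. -/
theorem exists_VV {X : Type*} [TopologicalSpace X] [CompletelyNormalSpace X] {κ : Type*}
    (H : κ → Set X) (Z : Set X)
    (hZ : ∀ z ∈ Z, ∃ G, IsOpen G ∧ z ∈ G ∧
      ∀ ξ η, (G ∩ H ξ).Nonempty → (G ∩ H η).Nonempty → ξ = η)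
    (P Q : κ → Set X) (hPQ : ∀ ξ, Disjoint (closure (P ξ)) (closure (Q ξ))) :
    ∃ V V' : Set X, IsOpen V ∧ IsOpen V' ∧ Disjoint V V' ∧
      (∀ z ∈ Z, ∀ ξ, z ∈ closure (H ξ) → z ∈ closure (P ξ) → z ∈ V) ∧
      (∀ z ∈ Z, ∀ ξ, z ∈ closure (H ξ) → z ∈ closure (Q ξ) → z ∈ V') := by
  have key : ∀ P Q : κ → Set X, (∀ ξ, Disjoint (closure (P ξ)) (closure (Q ξ))) →
      Disjoint (closure {z | z ∈ Z ∧ ∃ ξ, z ∈ closure (H ξ) ∧ z ∈ closure (P ξ)})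
        {z | z ∈ Z ∧ ∃ ξ, z ∈ closure (H ξ) ∧ z ∈ closure (Q ξ)} := by
    intro P Q hPQ
    rw [Set.disjoint_left]
    rintro z hz ⟨hzZ, ξ, hzH, hzQ⟩
    obtain ⟨G, hG, hzG, hGu⟩ := hZ z hzZ
    have hzP : z ∉ closure (P ξ) := fun h => (Set.disjoint_left.1 (hPQ ξ)) h hzQ
    obtain ⟨y, ⟨hyG, hyP⟩, hyZ, η, hyH, hyP'⟩ := mem_closure_iff.1 hz (G ∩ (closure (P ξ))ᶜ)
      (hG.inter isClosed_closure.isOpen_compl) ⟨hzG, hzP⟩
    have h1 : ξ = η := by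
      apply hGu
      · exact mem_closure_iff.1 hzH G hG hzG
      · exact mem_closure_iff.1 hyH G hG hyG
    subst h1
    exact hyP hyP'
  have h1 := key P Q hPQ
  have h2 := key Q P (fun ξ => (hPQ ξ).symm)
  have h3 := completely_normal h1 h2.symm
  rw [← separatedNhds_iff_disjoint] at h3
  obtain ⟨A, B, hA, hB, hsA, htB, hAB⟩ := h3
  refine ⟨A, B, hA, hB, hAB, ?_, ?_⟩
  · intro z hz ξ h1 h2
    exact hsA ⟨hz, ξ, h1, h2⟩
  · intro z hz ξ h1 h2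
    exact htB ⟨hz, ξ, h1, h2⟩

theorem connected_case {X : Type*} [TopologicalSpace X] [T3Space X] [LocallyCompactSpace X]
    [LocallyConnectedSpace X] [ConnectedSpace X] [CompletelyNormalSpace X]
    (nb : X → Set X) (hno : ∀ x, IsOpen (nb x)) (hnm : ∀ x, x ∈ nb x)
    (hnb : ∀ x, ∃ 𝒷, LocBase (nb x) 𝒷)
    {κ : Type*} (H : ℕ → κ → Set X) (hcov : ∀ x, ∃ m ξ, x ∈ H m ξ)
    (hH : ∀ m ξ, ∀ x ∈ H m ξ, ∃ G, IsOpen G ∧ x ∈ G ∧ ∀ η, (G ∩ H m η).Nonempty → η = ξ)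
    (hcl : ∀ m ξ, ∃ x, closure (H m ξ) ⊆ nb x) :
    ∃ A : Set X, A.Countable ∧ (⋃ a ∈ A, nb a) = univ := by
  by_contra hcon
  push Not at hcon
  obtain ⟨ι, _, _, hc, hu⟩ := exists_omega1
  haveI : Nonempty ι := by
    obtain ⟨b, _⟩ := hu ∅ countable_empty
    exact ⟨b⟩
  choose 𝒷 h𝒷 using hnb
  choose c hcc using hcl
  have hpairs := fun x => exists_pairs (h𝒷 x)
  choose P Q hPo hQo hPQ hpair using hpairs
  -- the open sets in which the families are discrete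
  obtain ⟨Z, hZdef⟩ : ∃ Z : ℕ → Set X, ∀ m z, z ∈ Z m ↔ ∃ G, IsOpen G ∧ z ∈ G ∧
      ∀ ξ η, (G ∩ H m ξ).Nonempty → (G ∩ H m η).Nonempty → ξ = η :=
    ⟨fun m => {z | ∃ G, IsOpen G ∧ z ∈ G ∧
      ∀ ξ η, (G ∩ H m ξ).Nonempty → (G ∩ H m η).Nonempty → ξ = η}, fun _ _ => Iff.rfl⟩
  have hVV := fun m k => exists_VV (H m) (Z m) (fun z hz => (hZdef m z).1 hz)
    (fun ξ => P (c m ξ) k) (fun ξ => Q (c m ξ) k) (fun ξ => hPQ (c m ξ) k)
  choose V V' hVo hVo' hVd hVP hVQ using hVV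
  -- the chain
  have hPex : ∀ O : Set X, ∃ x : X, (closure O \ O).Nonempty → x ∈ closure O \ O := by
    intro O
    by_cases h : (closure O \ O).Nonempty
    · exact ⟨h.some, fun _ => h.some_mem⟩
    · exact ⟨Classical.arbitrary X, fun h' => absurd h' h⟩
  choose pick hpick using hPex
  obtain ⟨q, hq⟩ := exists_rec (ι := ι) nb pick
  obtain ⟨O, hOdef⟩ : ∃ O : ι → Set X, ∀ α, O α = ⋃ β ∈ Iio α, nb (q β) := ⟨_, fun _ => rfl⟩
  have hOo : ∀ α, IsOpen (O α) := by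
    intro α
    rw [hOdef]
    exact isOpen_biUnion fun β _ => hno _
  have hnbO : ∀ {α β : ι}, α < β → nb (q α) ⊆ O β := by
    intro α β h
    rw [hOdef]
    exact subset_biUnion_of_mem (u := fun β => nb (q β)) h
  have hOm : ∀ {α β : ι}, α ≤ β → O α ⊆ O β := by
    intro α β h
    rw [hOdef α]
    exact iUnion₂_subset fun γ hγ => hnbO (lt_of_lt_of_le hγ h)
  have hOmem : ∀ {α : ι} {x : X}, x ∈ O α → ∃ β < α, x ∈ nb (q β) := by
    intro α x hx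
    rw [hOdef, mem_iUnion₂] at hx
    obtain ⟨β, hβ, hx⟩ := hx
    exact ⟨β, hβ, hx⟩
  have hqO : ∀ α, (∃ a, a < α) → q α ∈ closure (O α) ∧ q α ∉ O α := by
    rintro α ⟨a, ha⟩
    have h1 : (closure (O α) \ O α).Nonempty := by
      by_contra hemp
      rw [Set.not_nonempty_iff_eq_empty, Set.diff_eq_empty] at hemp
      have hclo : IsClosed (O α) := by
        rw [← closure_eq_iff_isClosed]
        exact Subset.antisymm hemp subset_closure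
      rcases isClopen_iff.1 ⟨hclo, hOo α⟩ with h | h
      · have : q a ∈ O α := hnbO ha (hnm _)
        rw [h] at this
        exact this
      · apply hcon (q '' Iio α) ((hc α).image q)
        rw [biUnion_image, ← hOdef, h]
    have h2 := hpick _ h1
    rw [hq α, ← hOdef]
    exact h2
  have hFcl : ∀ α, IsClosed (closure (O α) \ O α) := fun α =>
    isClosed_closure.sdiff (hOo α)
  -- bases of the O's
  obtain ⟨BB, hBB⟩ : ∃ BB : ι → Set (Set X), ∀ α, BB α = ⋃ β ∈ Iio α, 𝒷 (q β) :=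
    ⟨_, fun _ => rfl⟩
  have hBBc : ∀ α, (BB α).Countable := by
    intro α
    rw [hBB]
    exact (hc α).biUnion fun β _ => (h𝒷 (q β)).ctb
  have hBBm : ∀ {α β : ι}, α < β → 𝒷 (q α) ⊆ BB β := by
    intro α β h
    rw [hBB]
    exact subset_biUnion_of_mem (u := fun β => 𝒷 (q β)) h
  have hBBo : ∀ α, ∀ b ∈ BB α, IsOpen b := by
    intro α b hb
    rw [hBB, mem_iUnion₂] at hb
    obtain ⟨β, _, hb⟩ := hb
    exact (h𝒷 (q β)).opn b hb
  have hBBmm : ∀ {α β : ι}, α ≤ β → BB α ⊆ BB β := by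
    intro α β h
    rw [hBB α]
    exact iUnion₂_subset fun γ hγ => hBBm (lt_of_lt_of_le hγ h)
  -- each neighbourhood is eventually covered
  have hF : ∀ x, ∃ γ, ∀ α, O α ∩ nb x ⊆ O γ := by
    intro x
    have h1 : ∀ b : Set X, ∃ α : ι, (∃ α, b ⊆ O α) → b ⊆ O α := by
      intro b
      by_cases h : ∃ α, b ⊆ O α
      · obtain ⟨α, hα⟩ := h
        exact ⟨α, fun _ => hα⟩
      · exact ⟨Classical.arbitrary ι, fun h' => absurd h' h⟩
    choose a ha using h1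
    obtain ⟨γ, hγ⟩ := hu (a '' 𝒷 x) ((h𝒷 x).ctb.image a)
    refine ⟨γ, fun α y hy => ?_⟩
    obtain ⟨b, hb, hyb, hbO⟩ := (h𝒷 x).bas y hy.2 (O α) (hOo α) hy.1
    exact hOm (hγ _ ⟨b, hb, rfl⟩).le (ha b ⟨α, hbO⟩ hyb)
  -- a choice of points
  obtain ⟨pt, hpt⟩ : ∃ pt : Set X → X, ∀ b : Set X, b.Nonempty → pt b ∈ b := by
    have h1 : ∀ b : Set X, ∃ x : X, b.Nonempty → x ∈ b := by
      intro b
      by_cases h : b.Nonempty
      · exact ⟨h.some, fun _ => h.some_mem⟩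
      · exact ⟨Classical.arbitrary X, fun h' => absurd h' h⟩
    choose pt hpt using h1
    exact ⟨pt, hpt⟩
  -- the sets to be removed
  obtain ⟨EE, hEE⟩ : ∃ EE : ι → Set (Set X), ∀ α, EE α =
      {E | E ∈ (fun t : Set (Set X) => ⋃₀ t) '' {t | t.Finite ∧ t ⊆ BB α} ∧
        closure E ⊆ O α} := ⟨_, fun _ => rfl⟩
  have hEEc : ∀ α, (EE α).Countable := by
    intro α
    rw [hEE]
    exact ((Set.countable_setOf_finite_subset (hBBc α)).image _).mono fun E hE => hE.1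
  have hEEcl : ∀ α, ∀ E ∈ EE α, closure E ⊆ O α := by
    intro α E hE
    rw [hEE] at hE
    exact hE.2
  have hEEm : ∀ {α β : ι}, α ≤ β → EE α ⊆ EE β := by
    intro α β h E hE
    rw [hEE] at hE ⊢
    obtain ⟨⟨t, ht, rfl⟩, hE⟩ := hE
    exact ⟨⟨t, ⟨ht.1, ht.2.trans (hBBmm h)⟩, rfl⟩, hE.trans (hOm h)⟩
  have hEEu : ∀ α, ∀ E ∈ EE α, ∀ E' ∈ EE α, E ∪ E' ∈ EE α := by
    intro α E hE E' hE'
    rw [hEE] at hE hE' ⊢
    obtain ⟨⟨t, ht, rfl⟩, hE⟩ := hE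
    obtain ⟨⟨t', ht', rfl⟩, hE'⟩ := hE'
    refine ⟨⟨t ∪ t', ⟨ht.1.union ht'.1, union_subset ht.2 ht'.2⟩, sUnion_union t t'⟩, ?_⟩
    rw [closure_union]
    exact union_subset hE hE'
  have hEEcov : ∀ δ, Lim δ → ∀ R ⊆ O δ, IsCompact R → ∃ β < δ, ∃ E ∈ EE β, R ⊆ E := by
    intro δ hL R hRO hR
    refine hR.induction_on (p := fun s => ∃ β < δ, ∃ E ∈ EE β, s ⊆ E) ?_ ?_ ?_ ?_
    · obtain ⟨a, ha⟩ := hL.1
      refine ⟨a, ha, ∅, ?_, Subset.rfl⟩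
      rw [hEE]
      exact ⟨⟨∅, ⟨finite_empty, empty_subset _⟩, sUnion_empty⟩, by simp⟩
    · rintro s t hst ⟨β, hβ, E, hE, h⟩
      exact ⟨β, hβ, E, hE, hst.trans h⟩
    · rintro s t ⟨β, hβ, E, hE, h⟩ ⟨β', hβ', E', hE', h'⟩
      exact ⟨max β β', max_lt hβ hβ', E ∪ E', hEEu _ E (hEEm (le_max_left _ _) hE) E'
        (hEEm (le_max_right _ _) hE'), union_subset_union h h'⟩
    · intro r hr
      obtain ⟨γ, hγ, hrγ⟩ := hOmem (hRO hr)
      obtain ⟨β, hβ1, hβ2⟩ := hL.2 γ hγ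
      obtain ⟨U, hrU, hUo, hUcl⟩ : ∃ U, r ∈ U ∧ IsOpen U ∧ closure U ⊆ nb (q γ) := by
        obtain ⟨s, hs1, hs2, hs3⟩ := exists_mem_nhds_isClosed_subset
          ((hno (q γ)).mem_nhds hrγ)
        refine ⟨interior s, mem_interior_iff_mem_nhds.2 hs1, isOpen_interior, ?_⟩
        exact (closure_minimal interior_subset hs2).trans hs3
      obtain ⟨b, hb, hrb, hbU⟩ := (h𝒷 (q γ)).bas r hrγ U hUo hrU
      refine ⟨b, mem_nhdsWithin_of_mem_nhds (((h𝒷 (q γ)).opn b hb).mem_nhds hrb), β, hβ2, b, ?_,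
        Subset.rfl⟩
      rw [hEE]
      refine ⟨⟨{b}, ⟨finite_singleton b, singleton_subset_iff.2 (hBBm hβ1 hb)⟩,
        sUnion_singleton b⟩, ?_⟩
      exact (closure_mono hbU).trans (hUcl.trans (hnbO hβ1))
  -- codes
  obtain ⟨Es, hEs⟩ : ∃ Es : ι → Set (ℕ × ℕ × Set X × X), ∀ α e, e ∈ Es α ↔
      e.2.2.1 ∈ EE α ∧ e.2.2.2 ∈ pt '' BB α :=
    ⟨fun α => {e | e.2.2.1 ∈ EE α ∧ e.2.2.2 ∈ pt '' BB α}, fun _ _ => Iff.rfl⟩
  have hEsc : ∀ α, (Es α).Countable := by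
    intro α
    have h1 : ((univ : Set ℕ) ×ˢ ((univ : Set ℕ) ×ˢ (EE α ×ˢ (pt '' BB α)))).Countable :=
      countable_univ.prod (countable_univ.prod ((hEEc α).prod ((hBBc α).image pt)))
    refine h1.mono ?_
    intro e he
    rw [hEs] at he
    exact ⟨mem_univ _, mem_univ _, he.1, he.2⟩
  -- the relation
  obtain ⟨R, hR⟩ : ∃ R : ι → ℕ × ℕ × Set X × X → Prop, ∀ δ m k E x, R δ (m, k, E, x) ↔
      ∃ (ξ : κ) (p : X) (W N : Set X), p ∈ closure (O δ) ∧ p ∉ O δ ∧ p ∈ H m ξ ∧ IsCompact W ∧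
        (∀ η, (W ∩ H m η).Nonempty → η = ξ) ∧ W ⊆ nb (q δ) ∧
        N ⊆ interior W ∧ IsPreconnected N ∧ p ∈ N ∧ N ⊆ V m k \ closure E ∧ x ∈ N ∧ x ∈ O δ ∧
        Disjoint (V m k \ closure E) (frontier W ∩ closure (O δ)) :=
    ⟨fun δ e => ∃ (ξ : κ) (p : X) (W N : Set X), p ∈ closure (O δ) ∧ p ∉ O δ ∧ p ∈ H e.1 ξ ∧
        IsCompact W ∧ (∀ η, (W ∩ H e.1 η).Nonempty → η = ξ) ∧ W ⊆ nb (q δ) ∧
        N ⊆ interior W ∧ IsPreconnected N ∧ p ∈ N ∧ N ⊆ V e.1 e.2.1 \ closure e.2.2.1 ∧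
        e.2.2.2 ∈ N ∧ e.2.2.2 ∈ O δ ∧
        Disjoint (V e.1 e.2.1 \ closure e.2.2.1) (frontier W ∩ closure (O δ)),
      fun _ _ _ _ _ => Iff.rfl⟩
  have hf : ∀ δ, Lim δ → ∃ β < δ, ∃ e ∈ Es β, R δ e := by
    intro δ hL
    obtain ⟨hq1, hq2⟩ := hqO δ hL.1
    -- Baire category on the boundary
    obtain ⟨T, hT⟩ : ∃ T : Set X, T = nb (q δ) ∩ (closure (O δ) \ O δ) := ⟨_, rfl⟩
    have hTlc : IsLocallyClosed T := by
      rw [hT]
      exact (hno _).isLocallyClosed.inter (hFcl δ).isLocallyClosed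
    have hTm : ∀ z ∈ T, z ∈ nb (q δ) ∧ z ∈ closure (O δ) ∧ z ∉ O δ := by
      intro z hz
      rw [hT] at hz
      exact ⟨hz.1, hz.2.1, hz.2.2⟩
    haveI : LocallyCompactSpace T := hTlc.locallyCompactSpace
    haveI : Nonempty T := ⟨⟨q δ, by rw [hT]; exact ⟨hnm _, hq1, hq2⟩⟩⟩
    obtain ⟨I, hI⟩ : ∃ I : Set (ℕ × κ), I = {i | (nb (q δ) ∩ H i.1 i.2).Nonempty} := ⟨_, rfl⟩
    have hIc : I.Countable := by
      have h1 : I ⊆ ⋃ m : ℕ, ⋃ b ∈ 𝒷 (q δ), {i : ℕ × κ | i.1 = m ∧ (b ∩ H m i.2).Nonempty ∧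
          ∀ η, (b ∩ H m η).Nonempty → η = i.2} := by
        rintro ⟨m, ξ⟩ hi
        rw [hI] at hi
        obtain ⟨y, hyn, hyH⟩ := hi
        obtain ⟨G, hG, hyG, hGu⟩ := hH m ξ y hyH
        obtain ⟨b, hb, hyb, hbG⟩ := (h𝒷 (q δ)).bas y hyn G hG hyG
        rw [mem_iUnion]
        refine ⟨m, ?_⟩
        rw [mem_iUnion₂]
        exact ⟨b, hb, rfl, ⟨y, hyb, hyH⟩, fun η hη => hGu η (hη.mono
          (inter_subset_inter_left _ hbG))⟩
      refine (countable_iUnion fun m => (h𝒷 (q δ)).ctb.biUnion fun b _ => ?_).mono h1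
      apply Set.Subsingleton.countable
      rintro ⟨m1, ξ1⟩ ⟨h11, h12, h13⟩ ⟨m2, ξ2⟩ ⟨h21, h22, h23⟩
      simp only at h11 h12 h13 h21 h22 h23
      have h3 : ξ1 = ξ2 := h23 ξ1 h12
      rw [h11, h21, h3]
    haveI : Countable I := hIc.to_subtype
    obtain ⟨⟨⟨m, ξ⟩, hmξ⟩, hint⟩ := nonempty_interior_of_iUnion_of_closed
      (f := fun i : I => closure ((Subtype.val : T → X) ⁻¹' (H i.1.1 i.1.2)))
      (fun _ => isClosed_closure) (by
        rw [eq_univ_iff_forall]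
        intro t
        obtain ⟨m, ξ, h⟩ := hcov t.1
        have htn : t.1 ∈ nb (q δ) := (hTm t.1 t.2).1
        have hmem : ((m, ξ) : ℕ × κ) ∈ I := by
          rw [hI]
          exact ⟨t.1, htn, h⟩
        rw [mem_iUnion]
        exact ⟨⟨(m, ξ), hmem⟩, subset_closure h⟩)
    simp only at hint
    obtain ⟨t0, ht0⟩ := hint
    obtain ⟨G0, hG0o, hG0⟩ := isOpen_induced_iff.1
      (isOpen_interior (s := closure ((Subtype.val : T → X) ⁻¹' (H m ξ))))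
    have ht0G : t0 ∈ (Subtype.val : T → X) ⁻¹' G0 := by
      rw [hG0]
      exact ht0
    obtain ⟨p, hpG, hpH⟩ := mem_closure_iff.1 (interior_subset ht0) _
      (hG0o.preimage continuous_subtype_val) ht0G
    have hG0T : ∀ z ∈ G0, z ∈ T → z ∈ closure (H m ξ) := by
      intro z hz hzT
      have h1 : (⟨z, hzT⟩ : T) ∈ (Subtype.val : T → X) ⁻¹' G0 := hz
      rw [hG0] at h1
      have h2 := interior_subset h1
      have h3 := image_closure_subset_closure_image (continuous_subtype_val (p := (· ∈ T)))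
        (mem_image_of_mem Subtype.val h2)
      refine closure_mono ?_ h3
      rintro _ ⟨w, hw, rfl⟩
      exact hw
    obtain ⟨p, hpTT⟩ := p
    obtain ⟨hpn, hpcl, hpO⟩ := hTm p hpTT
    have hpG : p ∈ G0 := hpG
    have hpH : p ∈ H m ξ := hpH
    obtain ⟨G1, hG1o, hpG1, hG1u⟩ := hH m ξ p hpH
    obtain ⟨W, hWc, hWi, hWs⟩ := exists_compact_subset
      ((hG0o.inter hG1o).inter (hno (q δ))) ⟨⟨hpG, hpG1⟩, hpn⟩
    have hWu : ∀ η, (W ∩ H m η).Nonempty → η = ξ := fun η hη =>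
      hG1u η (hη.mono (inter_subset_inter_left _ fun z hz => (hWs hz).1.2))
    have hG1Z : ∀ z ∈ G1, z ∈ Z m := by
      intro z hz
      rw [hZdef]
      exact ⟨G1, hG1o, hz, fun ξ1 ξ2 h1 h2 => (hG1u ξ1 h1).trans (hG1u ξ2 h2).symm⟩
    -- the compact piece of the frontier
    have hCsub : frontier W ∩ (closure (O δ) \ O δ) ⊆ closure (H m ξ) ∩ Z m := by
      rintro z ⟨hz1, hz2⟩
      have hzW := hWs (hWc.isClosed.frontier_subset hz1)
      refine ⟨hG0T z hzW.1.1 ?_, hG1Z z hzW.1.2⟩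
      rw [hT]
      exact ⟨hzW.2, hz2⟩
    have hCc : IsCompact (frontier W ∩ (closure (O δ) \ O δ)) :=
      hWc.of_isClosed_subset (isClosed_frontier.inter (hFcl δ))
        (inter_subset_left.trans hWc.isClosed.frontier_subset)
    obtain ⟨k, hpk, hCk⟩ := hpair (c m ξ) p (hcc m ξ (subset_closure hpH)) _
      (hCsub.trans (inter_subset_left.trans (hcc m ξ))) hCc (fun h => h.1.2 hWi)
    have hpV : p ∈ V m k :=
      hVP m k p (hG1Z p hpG1) ξ (subset_closure hpH) (subset_closure hpk)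
    have hCV : frontier W ∩ (closure (O δ) \ O δ) ⊆ V' m k := fun z hz =>
      hVQ m k z (hCsub hz).2 ξ (hCsub hz).1 (subset_closure (hCk hz))
    have hRc : IsCompact ((frontier W ∩ closure (O δ)) \ V' m k) :=
      hWc.of_isClosed_subset ((isClosed_frontier.inter isClosed_closure).sdiff (hVo' m k))
        (fun z hz => hWc.isClosed.frontier_subset hz.1.1)
    obtain ⟨β, hβ, E, hE, hRE⟩ := hEEcov δ hL _ (by
      rintro z ⟨⟨hz1, hz2⟩, hz3⟩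
      by_contra hzO
      exact hz3 (hCV ⟨hz1, hz2, hzO⟩)) hRc
    have hpE : p ∉ closure E := fun h => hpO (hOm hβ.le (hEEcl β E hE h))
    obtain ⟨N, hNsub, hNo, hpN, hNc⟩ :=
      locallyConnectedSpace_iff_subsets_isOpen_isConnected.1 (inferInstance : LocallyConnectedSpace X)
        p ((V m k \ closure E) ∩ interior W)
        ((((hVo m k).sdiff isClosed_closure).inter isOpen_interior).mem_nhds ⟨⟨hpV, hpE⟩, hWi⟩)
    obtain ⟨y, hyN, hyO⟩ := mem_closure_iff.1 hpcl N hNo hpN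
    obtain ⟨γ, hγ, hyγ⟩ := hOmem hyO
    obtain ⟨γ', hγ1, hγ2⟩ := hL.2 γ hγ
    obtain ⟨b, hb, hyb, hbs⟩ := (h𝒷 (q γ)).bas y hyγ (N ∩ O δ) (hNo.inter (hOo δ)) ⟨hyN, hyO⟩
    have hptb : pt b ∈ b := hpt b ⟨y, hyb⟩
    refine ⟨max β γ', max_lt hβ hγ2, (m, k, E, pt b), ?_, ?_⟩
    · rw [hEs]
      exact ⟨hEEm (le_max_left _ _) hE, mem_image_of_mem pt
        (hBBm (lt_of_lt_of_le hγ1 (le_max_right _ _)) hb)⟩
    · rw [hR]
      refine ⟨ξ, p, W, N, hpcl, hpO, hpH, hWc, hWu, fun z hz => (hWs hz).2,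
        fun z hz => (hNsub hz).2, hNc.isPreconnected, hpN, fun z hz => (hNsub hz).1,
        (hbs hptb).1, (hbs hptb).2, ?_⟩
      rw [Set.disjoint_left]
      rintro z ⟨hz1, hz2⟩ hz3
      apply hz2
      apply subset_closure
      apply hRE
      exact ⟨hz3, fun h => (Set.disjoint_left.1 (hVd m k)) hz1 h⟩
  obtain ⟨⟨m, k, E, x⟩, hS⟩ := pressing hc hu Es hEsc R hf
  -- the components
  obtain ⟨K, hK⟩ : ∃ K : ι → Set X, ∀ δ, K δ = connectedComponentIn ((V m k \ closure E) ∩ O δ) x :=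
    ⟨_, fun _ => rfl⟩
  have hSx : ∀ δ, Lim δ → R δ (m, k, E, x) → ∃ (ξ : κ) (p : X), p ∉ O δ ∧ p ∈ H m ξ ∧
      p ∈ nb (q δ) ∧
      (∀ δ', δ < δ' → p ∈ K δ') ∧ (∀ z ∈ K δ, ∀ η, z ∈ H m η → η = ξ) := by
    intro δ hL hRδ
    rw [hR] at hRδ
    obtain ⟨ξ, p, W, N, hpcl, hpO, hpH, hWc, hWu, hWn, hNi, hNp, hpN, hNV, hxN, hxO, hdis⟩ := hRδ
    refine ⟨ξ, p, hpO, hpH, hWn (interior_subset (hNi hpN)), ?_, ?_⟩
    · intro δ' hlt
      rw [hK]
      refine hNp.subset_connectedComponentIn hxN ?_ hpN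
      intro z hz
      exact ⟨hNV hz, hnbO hlt (hWn (interior_subset (hNi hz)))⟩
    · have h1 : K δ ⊆ interior W := by
        apply Pool.Agent.Helper761.BB.subset_interior_of_preconnected
        · rw [hK]
          exact isPreconnected_connectedComponentIn
        · refine ⟨x, ?_, hNi hxN⟩
          rw [hK]
          exact mem_connectedComponentIn ⟨hNV hxN, hxO⟩
        · rw [Set.disjoint_left]
          intro z hz hzf
          have hz2 : z ∈ (V m k \ closure E) ∩ O δ := by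
            rw [hK] at hz
            exact connectedComponentIn_subset _ _ hz
          exact (Set.disjoint_left.1 hdis) hz2.1 ⟨hzf, subset_closure hz2.2⟩
      intro z hz η hη
      exact hWu η ⟨z, interior_subset (h1 hz), hη⟩
  -- the first element
  obtain ⟨δ0, -, hL0, hR0⟩ := hS (Classical.arbitrary ι)
  obtain ⟨ξ0, p0, -, hp0H, -, hp0K, -⟩ := hSx δ0 hL0 hR0
  obtain ⟨γ, hγ⟩ := hF (c m ξ0)
  obtain ⟨δ1, hδ1, hL1, hR1⟩ := hS (max γ δ0)
  obtain ⟨ξ1, p1, hp1O, hp1H, hp1n, hp1K, hu1⟩ := hSx δ1 hL1 hR1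
  have h1 : ξ0 = ξ1 := hu1 p0 (hp0K δ1 ((le_max_right _ _).trans_lt hδ1)) ξ0 hp0H
  subst h1
  obtain ⟨δ2, hδ2⟩ := hu {δ1} (countable_singleton _)
  have h2 : p1 ∈ O δ2 := hnbO (hδ2 δ1 rfl) hp1n
  have h3 : p1 ∈ O γ := hγ δ2 ⟨h2, hcc m ξ0 (subset_closure hp1H)⟩
  exact hp1O (hOm ((le_max_left _ _).trans hδ1.le) h3)

end Pool.Agent.Helper761.QD
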