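import Mathlib
import Pool.Agent.Helper761.QDev2
import Pool.Agent.Helper761.CompMet

set_option autoImplicit false

namespace Pool.Agent.Helper761.QD

open Set Topology TopologicalSpace

/-- A quasi-development. -/
def QuasiDev {X : Type*} [TopologicalSpace X] (G : ℕ → Set (Set X)) : Prop :=
  (∀ k, ∀ s ∈ G k, IsOpen s) ∧
    ∀ x : X, ∀ U : Set X, IsOpen U → x ∈ U →
      ∃ k, x ∈ ⋃₀ {s ∈ G k | x ∈ s} ∧ ⋃₀ {s ∈ G k | x ∈ s} ⊆ U

theorem connected_qd {X : Type*} [TopologicalSpace X] [T3Space X] [LocallyCompactSpace X]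
    [LocallyConnectedSpace X] [ConnectedSpace X] [CompletelyNormalSpace X]
    (hsc : ∀ x : X, ∃ G : Set X, IsOpen G ∧ x ∈ G ∧ SecondCountableTopology G)
    (G : ℕ → Set (Set X)) (hG : QuasiDev G) : SecondCountableTopology X := by
  choose nb hno hnm hns using hsc
  have hU : ∀ x : X, ∃ U : Set X, IsOpen U ∧ x ∈ U ∧ closure U ⊆ nb x := by
    intro x
    obtain ⟨s, hs1, hs2, hs3⟩ := exists_mem_nhds_isClosed_subset ((hno x).mem_nhds (hnm x))
    exact ⟨interior s, isOpen_interior, mem_interior_iff_mem_nhds.2 hs1,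
      (closure_minimal interior_subset hs2).trans hs3⟩
  choose U hUo hUm hUcl using hU
  let r : X → X → Prop := WellOrderingRel
  haveI hwo : IsWellOrder X r := WellOrderingRel.isWellOrder
  let H : ℕ → X → Set X := fun m x => {y | y ∈ U x ∧ (∀ x', r x' x → y ∉ U x') ∧
    y ∈ ⋃₀ {s ∈ G m | y ∈ s} ∧ ⋃₀ {s ∈ G m | y ∈ s} ⊆ U x}
  have hcov : ∀ y, ∃ m x, y ∈ H m x := by
    intro y
    obtain ⟨x, hx, hmin⟩ := WellFounded.has_min (hwo.wf) {x | y ∈ U x} ⟨y, hUm y⟩
    obtain ⟨m, hm1, hm2⟩ := hG.2 y (U x) (hUo x) hx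
    exact ⟨m, x, hx, fun x' hx' h => hmin x' h hx', hm1, hm2⟩
  have hH : ∀ m x, ∀ y ∈ H m x, ∃ s, IsOpen s ∧ y ∈ s ∧
      ∀ η, (s ∩ H m η).Nonempty → η = x := by
    rintro m x y ⟨hy1, hy2, ⟨s, ⟨hs, hys⟩, -⟩, hy4⟩
    refine ⟨s, hG.1 m s hs, hys, ?_⟩
    rintro η ⟨z, hzs, hz1, hz2, hz3, hz4⟩
    have h1 : z ∈ U x := hy4 ⟨s, ⟨hs, hys⟩, hzs⟩
    have h2 : y ∈ U η := hz4 ⟨s, ⟨hs, hzs⟩, hys⟩
    rcases trichotomous_of r η x with h | h | h
    · exact absurd h2 (hy2 η h)
    · exact h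
    · exact absurd h1 (hz2 x h)
  have hcl : ∀ m x, ∃ x', closure (H m x) ⊆ nb x' := fun m x =>
    ⟨x, (closure_mono fun y hy => hy.1).trans (hUcl x)⟩
  obtain ⟨A, hA, hAc⟩ := connected_case nb hno hnm (fun x => by
    haveI := hns x
    exact exists_locBase (hno x)) H hcov hH hcl
  haveI : Countable A := hA.to_subtype
  haveI : ∀ a : A, SecondCountableTopology (nb a.1) := fun a => hns a.1
  refine TopologicalSpace.secondCountableTopology_of_countable_cover (U := fun a : A => nb a.1)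
    (fun a => hno a.1) ?_
  rw [← hAc, biUnion_eq_iUnion]

/-- A Hausdorff, locally compact, locally connected, locally second countable, hereditarily normal,
quasi-developable space is metrizable. -/
theorem main {X : Type*} [TopologicalSpace X] [T2Space X] [LocallyCompactSpace X]
    [LocallyConnectedSpace X] [CompletelyNormalSpace X]
    (hsc : ∀ x : X, ∃ G : Set X, IsOpen G ∧ x ∈ G ∧ SecondCountableTopology G)
    (G : ℕ → Set (Set X)) (hG : QuasiDev G) : MetrizableSpace X := by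
  apply Pool.Agent.Helper761.BB.metrizable_of_components
  intro x
  choose N hNo hNm hNs using hsc
  have hCo : IsOpen (connectedComponent x) := isOpen_connectedComponent
  haveI : LocallyConnectedSpace (connectedComponent x) := hCo.locallyConnectedSpace
  haveI : LocallyCompactSpace (connectedComponent x) := hCo.locallyCompactSpace
  haveI : ConnectedSpace (connectedComponent x) :=
    isConnected_iff_connectedSpace.1 isConnected_connectedComponent
  let pre : Set X → Set (connectedComponent x) := fun U => Subtype.val ⁻¹' U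
  refine connected_qd ?_ (fun k => pre '' G k) ⟨?_, ?_⟩
  · intro y
    refine ⟨pre (N y.1), (hNo y.1).preimage continuous_subtype_val, hNm y.1, ?_⟩
    let f : pre (N y.1) → N y.1 := fun z => ⟨z.1.1, z.2⟩
    have hf : Continuous f := by
      apply Continuous.subtype_mk
      exact continuous_subtype_val.comp continuous_subtype_val
    have hgf : IsInducing ((Subtype.val : N y.1 → X) ∘ f) := by
      change IsInducing (fun z : pre (N y.1) => z.1.1)
      exact IsInducing.subtypeVal.comp IsInducing.subtypeVal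
    have hfi : IsInducing f := IsInducing.of_comp hf continuous_subtype_val hgf
    haveI := hNs y.1
    exact hfi.secondCountableTopology
  · rintro k _ ⟨s, hs, rfl⟩
    exact (hG.1 k s hs).preimage continuous_subtype_val
  · intro y U hU hyU
    obtain ⟨U', hU', rfl⟩ := isOpen_induced_iff.1 hU
    obtain ⟨k, ⟨s, ⟨hs, hys⟩, -⟩, hk2⟩ := hG.2 y.1 U' hU' hyU
    refine ⟨k, ⟨pre s, ⟨⟨s, hs, rfl⟩, hys⟩, hys⟩, ?_⟩
    rintro z ⟨_, ⟨⟨s', hs', rfl⟩, hys'⟩, hzs'⟩
    exact hk2 ⟨s', ⟨hs', hys'⟩, hzs'⟩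

end Pool.Agent.Helper761.QD
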