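import Mathlib
import Pool.Agent.Helper761.QDev4

set_option autoImplicit false

namespace Pool.Agent.Helper761.QD

open Set Topology TopologicalSpace

/-- Countable paracompactness, in the form: each countable open cover has a locally finite open
shrinking. -/
def CP (Y : Type*) [TopologicalSpace Y] : Prop :=
  ∀ U : ℕ → Set Y, (∀ n, IsOpen (U n)) → (⋃ n, U n) = univ →
    ∃ V : ℕ → Set Y, (∀ n, IsOpen (V n)) ∧ (∀ n, V n ⊆ U n) ∧ (⋃ n, V n) = univ ∧ LocallyFinite V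

/-- Open expansions of decreasing sequences of relatively closed subsets of open sets. -/
def CPO (X : Type*) [TopologicalSpace X] : Prop :=
  ∀ (Z : Set X) (F : ℕ → Set X), IsOpen Z → (∀ n, F n ⊆ Z) → (∀ n, IsOpen (Z \ F n)) →
    (∀ n, F (n + 1) ⊆ F n) → (⋂ n, F n) = ∅ →
    ∃ U : ℕ → Set X, (∀ n, IsOpen (U n)) ∧ (∀ n, F n ⊆ U n) ∧ ∀ z ∈ Z, ∃ n, z ∉ closure (U n)

theorem cpo_of_cp {X : Type*} [TopologicalSpace X] (h : ∀ s : Set X, IsOpen s → CP s) : CPO X := by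
  intro Z F hZ hFZ hFo hFm hF0
  have hanti : ∀ {i j : ℕ}, i ≤ j → F j ⊆ F i := fun {i j} hij =>
    antitone_nat_of_succ_le (f := F) hFm hij
  obtain ⟨V, hVo, hVs, hVc, hVf⟩ := h Z hZ (fun n => Subtype.val ⁻¹' (Z \ F n))
    (fun n => (hFo n).preimage continuous_subtype_val) (by
      rw [eq_univ_iff_forall]
      intro z
      by_contra hcon
      have h1 : z.1 ∈ ⋂ n, F n := by
        rw [mem_iInter]
        intro n
        by_contra h2
        exact hcon (mem_iUnion.2 ⟨n, z.2, h2⟩)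
      rw [hF0] at h1
      exact h1)
  refine ⟨fun n => ⋃ j ∈ Ioi n, Subtype.val '' (V j), ?_, ?_, ?_⟩
  · intro n
    exact isOpen_biUnion fun j _ => hZ.isOpenMap_subtype_val _ (hVo j)
  · intro n z hz
    obtain ⟨j, hj⟩ := mem_iUnion.1 (hVc ▸ mem_univ (⟨z, hFZ n hz⟩ : Z) :
      (⟨z, hFZ n hz⟩ : Z) ∈ ⋃ n, V n)
    rw [mem_iUnion₂]
    refine ⟨j, ?_, ⟨_, hj, rfl⟩⟩
    have h1 := hVs j hj
    rw [mem_Ioi]
    by_contra hle
    push Not at hle
    exact h1.2 (hanti hle hz)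
  · intro z hz
    obtain ⟨N, hN, hNf⟩ := hVf ⟨z, hz⟩
    obtain ⟨n, hn⟩ := hNf.bddAbove
    refine ⟨n, ?_⟩
    intro hcl
    obtain ⟨N', hN'N, hN'o, hzN'⟩ := mem_nhds_iff.1 hN
    obtain ⟨y, hy1, hy2⟩ := mem_closure_iff.1 hcl (Subtype.val '' N')
      (hZ.isOpenMap_subtype_val _ hN'o) ⟨_, hzN', rfl⟩
    rw [mem_iUnion₂] at hy2
    obtain ⟨j, hj, w, hw, rfl⟩ := hy2
    obtain ⟨w', hw', hww'⟩ := hy1
    have h2 : w' = w := Subtype.ext hww'
    subst h2
    have h3 : j ≤ n := hn ⟨w', hw, hN'N hw'⟩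
    exact absurd hj (not_lt.2 h3)

/-- Countably many real functions separating points from compacta in an open second countable
set. -/
theorem exists_funs {X : Type*} [TopologicalSpace X] [T3Space X] {N : Set X} (hN : IsOpen N)
    [SecondCountableTopology N] :
    ∃ f : ℕ → X → ℝ, (∀ k, ∀ x ∈ N, ContinuousAt (f k) x) ∧
      ∀ p ∈ N, ∀ C ⊆ N, IsCompact C → p ∉ C → ∃ k, f k p = 1 ∧ ∀ z ∈ C, f k z = 0 := by
  classical
  obtain ⟨𝒷, hb⟩ := exists_locBase hN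
  obtain ⟨P, Q, hPo, hQo, hPQ, hpair⟩ := exists_pairs hb
  have hf : ∀ k, ∃ g : C(N, ℝ), EqOn g 0 (Subtype.val ⁻¹' closure (Q k)) ∧
      EqOn g 1 (Subtype.val ⁻¹' closure (P k)) := by
    intro k
    obtain ⟨g, h1, h2, -⟩ := exists_continuous_zero_one_of_isClosed
      (isClosed_closure.preimage continuous_subtype_val : IsClosed ((Subtype.val : N → X) ⁻¹' closure (Q k)))
      (isClosed_closure.preimage continuous_subtype_val : IsClosed ((Subtype.val : N → X) ⁻¹' closure (P k)))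
      ((hPQ k).symm.preimage _)
    exact ⟨g, h1, h2⟩
  choose g hg0 hg1 using hf
  refine ⟨fun k x => if h : x ∈ N then g k ⟨x, h⟩ else 0, ?_, ?_⟩
  · intro k x hx
    have h1 : ContinuousOn (fun x => if h : x ∈ N then g k ⟨x, h⟩ else 0) N := by
      rw [continuousOn_iff_continuous_restrict]
      refine (g k).continuous.congr ?_
      intro z
      change g k z = if h : z.1 ∈ N then g k ⟨z.1, h⟩ else 0
      rw [dif_pos z.2]
    exact h1.continuousAt (hN.mem_nhds hx)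
  · intro p hp C hC hCc hpC
    obtain ⟨k, hk1, hk2⟩ := hpair p hp C hC hCc hpC
    refine ⟨k, ?_, ?_⟩
    · simp only [dif_pos hp]
      exact hg1 k (show (⟨p, hp⟩ : N) ∈ _ from subset_closure hk1)
    · intro z hz
      simp only [dif_pos (hC hz)]
      exact hg0 k (show (⟨z, hC hz⟩ : N) ∈ _ from subset_closure (hk2 hz))

theorem sep_of_cpo {X : Type*} [TopologicalSpace X] [T3Space X] [LocallyCompactSpace X]
    (hX : CPO X) (nb : X → Set X) (hno : ∀ x, IsOpen (nb x))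
    (hns : ∀ x, SecondCountableTopology (nb x))
    {κ : Type*} (H : ℕ → κ → Set X)
    (hH : ∀ m ξ, ∀ x ∈ H m ξ, ∃ G, IsOpen G ∧ x ∈ G ∧ ∀ η, (G ∩ H m η).Nonempty → η = ξ)
    (c : ℕ → κ → X) (hcc : ∀ m ξ, closure (H m ξ) ⊆ nb (c m ξ))
    (Z : ℕ → Set X) (hZdef : ∀ m z, z ∈ Z m ↔ ∃ G, IsOpen G ∧ z ∈ G ∧
      ∀ ξ η, (G ∩ H m ξ).Nonempty → (G ∩ H m η).Nonempty → ξ = η) :
    ∃ (V V' : ℕ → ℕ × ℕ → Set X), (∀ m k, IsOpen (V m k)) ∧ (∀ m k, IsOpen (V' m k)) ∧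
      (∀ m k, Disjoint (V m k) (V' m k)) ∧
      (∀ m ξ p (W F : Set X), p ∈ H m ξ → IsCompact W → p ∈ interior W → IsClosed F →
      W ∩ F ⊆ closure (H m ξ) → W ⊆ Z m →
      ∃ k, ∃ W' : Set X, IsCompact W' ∧ W' ⊆ W ∧ p ∈ interior W' ∧ p ∈ V m k ∧
        frontier W' ∩ F ⊆ V' m k) := by
  have hfun := fun x => by
    haveI := hns x
    exact exists_funs (hno x)
  choose f hfc hfs using hfun
  have hZo : ∀ m, IsOpen (Z m) := by
    intro m
    rw [isOpen_iff_mem_nhds]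
    intro z hz
    rw [hZdef] at hz
    obtain ⟨G, hG, hzG, hu⟩ := hz
    refine Filter.mem_of_superset (hG.mem_nhds hzG) ?_
    intro y hy
    rw [hZdef]
    exact ⟨G, hG, hy, hu⟩
  have huniq : ∀ m, ∀ z ∈ Z m, ∀ ξ η, z ∈ closure (H m ξ) → z ∈ closure (H m η) → ξ = η := by
    intro m z hz ξ η h1 h2
    rw [hZdef] at hz
    obtain ⟨G, hG, hzG, hu⟩ := hz
    exact hu ξ η (mem_closure_iff.1 h1 G hG hzG) (mem_closure_iff.1 h2 G hG hzG)
  -- general closedness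
  have hclo : ∀ m (T : κ → Set X), (∀ ξ, ∀ z ∈ closure (H m ξ), z ∈ Z m →
      z ∈ closure (closure (H m ξ) ∩ T ξ ∩ Z m) → z ∈ T ξ) →
      IsOpen (Z m \ {z | z ∈ Z m ∧ ∃ ξ, z ∈ closure (H m ξ) ∧ z ∈ T ξ}) := by
    intro m T hT
    rw [← isClosed_compl_iff, ← closure_subset_iff_isClosed]
    intro z hz
    by_contra hcon
    rw [mem_compl_iff, not_not] at hcon
    obtain ⟨hzZ, hzn⟩ := hcon
    have hzZ' := hzZ
    rw [hZdef] at hzZ'
    obtain ⟨G, hG, hzG, hu⟩ := hzZ'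
    have key : ∀ G' : Set X, IsOpen G' → z ∈ G' → ∃ y ∈ G' ∩ G, y ∈ Z m ∧
        ∃ ξ, y ∈ closure (H m ξ) ∧ y ∈ T ξ := by
      intro G' hG' hzG'
      obtain ⟨y, hy1, hy2⟩ := mem_closure_iff.1 hz ((G' ∩ G) ∩ Z m) ((hG'.inter hG).inter (hZo m))
        ⟨⟨hzG', hzG⟩, hzZ⟩
      refine ⟨y, hy1.1, hy1.2, ?_⟩
      by_contra h3
      exact hy2 ⟨hy1.2, fun h4 => h3 h4.2⟩
    obtain ⟨y0, hy0, -, ξ, hξ1, hξ2⟩ := key univ isOpen_univ (mem_univ z)
    have hall : ∀ y ∈ G, ∀ η, y ∈ closure (H m η) → η = ξ := by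
      intro y hy η hη
      exact hu η ξ (mem_closure_iff.1 hη G hG hy) (mem_closure_iff.1 hξ1 G hG hy0.2)
    have hzcl : z ∈ closure (closure (H m ξ) ∩ T ξ ∩ Z m) := by
      rw [mem_closure_iff]
      intro G' hG' hzG'
      obtain ⟨y, hy, hyZ, η, hη1, hη2⟩ := key G' hG' hzG'
      have := hall y hy.2 η hη1
      subst this
      exact ⟨y, hy.1, ⟨⟨hη1, hη2⟩, hyZ⟩⟩
    have hzH : z ∈ closure (H m ξ) := by
      have h5 : closure (closure (H m ξ) ∩ T ξ ∩ Z m) ⊆ closure (H m ξ) :=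
        closure_minimal (fun y hy => hy.1.1) isClosed_closure
      exact h5 hzcl
    exact hzn ⟨hzZ, ξ, hzH, hT ξ z hzH hzZ hzcl⟩
  -- limits of values
  have hlim : ∀ m ξ k (S : Set ℝ), IsClosed S → ∀ z ∈ closure (H m ξ), z ∈ Z m →
      z ∈ closure (closure (H m ξ) ∩ {z | f (c m ξ) k z ∈ S} ∩ Z m) →
      z ∈ {z | f (c m ξ) k z ∈ S} := by
    intro m ξ k S hS z hz _ hzcl
    have h1 : ContinuousAt (f (c m ξ) k) z := hfc _ k z (hcc m ξ hz)
    by_contra h2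
    have h3 : {y | f (c m ξ) k y ∈ Sᶜ} ∈ 𝓝 z := h1 (hS.isOpen_compl.mem_nhds h2)
    obtain ⟨y, hy1, hy2⟩ := mem_closure_iff_nhds.1 hzcl _ h3
    exact hy1 hy2.1.2
  obtain ⟨A, hA⟩ : ∃ A : ℕ → ℕ → Set X, ∀ m k, A m k =
      {z | z ∈ Z m ∧ ∃ ξ, z ∈ closure (H m ξ) ∧ z ∈ {z | f (c m ξ) k z ∈ ({0} : Set ℝ)}} :=
    ⟨_, fun _ _ => rfl⟩
  have hZA : ∀ m k, IsOpen (Z m \ A m k) := by
    intro m k
    rw [hA]
    exact hclo m _ (fun ξ => hlim m ξ k {0} isClosed_singleton)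
  obtain ⟨B, hB⟩ : ∃ B : ℕ → ℕ → ℕ → Set X, ∀ m k n, B m k n =
      {z | z ∈ Z m ∧ ∃ ξ, z ∈ closure (H m ξ) ∧
        z ∈ {z | f (c m ξ) k z ∈ Icc (0 : ℝ) (1 / ((n : ℝ) + 1))}} := ⟨_, fun _ _ _ => rfl⟩
  have hZB : ∀ m k n, IsOpen (Z m \ B m k n) := by
    intro m k n
    rw [hB]
    exact hclo m _ (fun ξ => hlim m ξ k _ isClosed_Icc)
  have hU : ∀ m k, ∃ U : ℕ → Set X, (∀ n, IsOpen (U n)) ∧ (∀ n, B m k n \ A m k ⊆ U n) ∧
      ∀ z ∈ Z m \ A m k, ∃ n, z ∉ closure (U n) := by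
    intro m k
    refine hX (Z m \ A m k) (fun n => B m k n \ A m k) (hZA m k) ?_ ?_ ?_ ?_
    · rintro n z ⟨hz1, hz2⟩
      rw [hB] at hz1
      exact ⟨hz1.1, hz2⟩
    · intro n
      have h1 : (Z m \ A m k) \ (B m k n \ A m k) = (Z m \ A m k) ∩ (Z m \ B m k n) := by
        ext z
        simp only [mem_diff, mem_inter_iff]
        tauto
      rw [h1]
      exact (hZA m k).inter (hZB m k n)
    · rintro n z ⟨hz1, hz2⟩
      refine ⟨?_, hz2⟩
      rw [hB] at hz1 ⊢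
      obtain ⟨hz3, ξ, hz4, hz5, hz6⟩ := hz1
      refine ⟨hz3, ξ, hz4, hz5, hz6.trans ?_⟩
      apply one_div_le_one_div_of_le (by positivity)
      push_cast
      linarith
    · rw [eq_empty_iff_forall_notMem]
      intro z hz
      rw [mem_iInter] at hz
      obtain ⟨h0, h0'⟩ := hz 0
      rw [hB] at h0
      obtain ⟨hzZ, ξ, hzH, hz0, -⟩ := h0
      apply h0'
      rw [hA]
      refine ⟨hzZ, ξ, hzH, ?_⟩
      have h1 : ∀ n : ℕ, f (c m ξ) k z ≤ 1 / ((n : ℝ) + 1) := by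
        intro n
        obtain ⟨hn, -⟩ := hz n
        rw [hB] at hn
        obtain ⟨-, η, hη, -, h3⟩ := hn
        rw [huniq m z hzZ ξ η hzH hη]
        exact h3
      have h2 : f (c m ξ) k z ≤ 0 := by
        by_contra h3
        push Not at h3
        obtain ⟨n, hn⟩ := exists_nat_one_div_lt h3
        exact absurd (h1 n) (not_le.2 hn)
      exact le_antisymm h2 hz0
  choose U hUo hUB hUcl using hU
  refine ⟨fun m k => (closure (U m k.1 k.2))ᶜ, fun m k => U m k.1 k.2,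
    fun m k => isClosed_closure.isOpen_compl, fun m k => hUo _ _ _, ?_, ?_⟩
  · intro m k
    rw [Set.disjoint_left]
    intro z hz hz'
    exact hz (subset_closure hz')
  · intro m ξ p W F hp hWc hpW hF hWF hWZ
    have hpn : p ∈ nb (c m ξ) := hcc m ξ (subset_closure hp)
    have hpZ : p ∈ Z m := hWZ (interior_subset hpW)
    obtain ⟨W0, hW0c, hW0i, hW0s⟩ := exists_compact_subset
      (isOpen_interior.inter (hno (c m ξ))) (⟨hpW, hpn⟩ : p ∈ interior W ∩ nb (c m ξ))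
    have hW0W : W0 ⊆ W := fun z hz => interior_subset (hW0s hz).1
    have hCc : IsCompact (frontier W0 ∩ F) :=
      hW0c.of_isClosed_subset (isClosed_frontier.inter hF)
        (inter_subset_left.trans hW0c.isClosed.frontier_subset)
    have hCn : frontier W0 ∩ F ⊆ nb (c m ξ) := fun z hz =>
      (hW0s (hW0c.isClosed.frontier_subset hz.1)).2
    obtain ⟨k, hk1, hk0⟩ := hfs (c m ξ) p hpn _ hCn hCc (fun h => h.1.2 hW0i)
    have hpA : p ∈ Z m \ A m k := by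
      refine ⟨hpZ, ?_⟩
      rw [hA]
      rintro ⟨-, η, hη, h0⟩
      rw [← huniq m p hpZ ξ η (subset_closure hp) hη] at h0
      have h1 : f (c m ξ) k p = 0 := h0
      rw [hk1] at h1
      exact one_ne_zero h1
    obtain ⟨n, hn⟩ := hUcl m k p hpA
    have hcont : ContinuousOn (f (c m ξ) k) W0 := fun z hz =>
      (hfc (c m ξ) k z (hW0s hz).2).continuousWithinAt
    have hW'cl : IsClosed (W0 ∩ (f (c m ξ) k) ⁻¹' Ici (1 / ((n : ℝ) + 2))) :=
      hcont.preimage_isClosed_of_isClosed hW0c.isClosed isClosed_Ici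
    have hlt : (1 : ℝ) / ((n : ℝ) + 2) < 1 := by
      rw [div_lt_one (by positivity)]
      have : (0 : ℝ) ≤ n := by positivity
      linarith
    refine ⟨(k, n), W0 ∩ (f (c m ξ) k) ⁻¹' Ici (1 / ((n : ℝ) + 2)),
      hW0c.of_isClosed_subset hW'cl inter_subset_left, inter_subset_left.trans hW0W, ?_, hn, ?_⟩
    · rw [mem_interior_iff_mem_nhds]
      have h1 : (f (c m ξ) k) ⁻¹' Ioi (1 / ((n : ℝ) + 2)) ∈ 𝓝 p := by
        apply hfc (c m ξ) k p hpn
        rw [hk1]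
        exact Ioi_mem_nhds hlt
      refine Filter.mem_of_superset (Filter.inter_mem (mem_interior_iff_mem_nhds.1 hW0i) h1) ?_
      rintro z ⟨hz1, hz2⟩
      have hz3 : 1 / ((n : ℝ) + 2) < f (c m ξ) k z := hz2
      exact ⟨hz1, show 1 / ((n : ℝ) + 2) ≤ f (c m ξ) k z from le_of_lt hz3⟩
    · rintro z ⟨hz1, hzF⟩
      have hzW' := hW'cl.frontier_subset hz1
      have hzZ : z ∈ Z m := hWZ (hW0W hzW'.1)
      have hzH : z ∈ closure (H m ξ) := hWF ⟨hW0W hzW'.1, hzF⟩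
      have hz2 : (1 : ℝ) / ((n : ℝ) + 2) ≤ f (c m ξ) k z := hzW'.2
      have hpos : (0 : ℝ) < 1 / ((n : ℝ) + 2) := by positivity
      have hzi : z ∈ interior W0 := by
        by_contra hcon
        have h0 := hk0 z ⟨⟨subset_closure hzW'.1, hcon⟩, hzF⟩
        rw [h0] at hz2
        linarith
      have hle : f (c m ξ) k z ≤ 1 / ((n : ℝ) + 2) := by
        by_contra hcon
        push Not at hcon
        apply hz1.2
        rw [mem_interior_iff_mem_nhds]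
        have h1 : (f (c m ξ) k) ⁻¹' Ioi (1 / ((n : ℝ) + 2)) ∈ 𝓝 z :=
          hfc (c m ξ) k z (hW0s hzW'.1).2 (Ioi_mem_nhds hcon)
        refine Filter.mem_of_superset (Filter.inter_mem (mem_interior_iff_mem_nhds.1 hzi) h1) ?_
        rintro y ⟨hy1, hy2⟩
        have hy3 : 1 / ((n : ℝ) + 2) < f (c m ξ) k y := hy2
        exact ⟨hy1, show 1 / ((n : ℝ) + 2) ≤ f (c m ξ) k y from le_of_lt hy3⟩
      apply hUB m k n
      constructor
      · rw [hB]
        refine ⟨hzZ, ξ, hzH, ?_, hle.trans ?_⟩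
        · linarith
        · apply one_div_le_one_div_of_le (by positivity)
          linarith
      · rw [hA]
        rintro ⟨-, η, hη, h0⟩
        rw [← huniq m z hzZ ξ η hzH hη] at h0
        have h1 : f (c m ξ) k z = 0 := h0
        rw [h1] at hz2
        linarith

end Pool.Agent.Helper761.QD
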