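import Mathlib
import Pool.Agent.Helper761.QDev5

set_option autoImplicit false

namespace Pool.Agent.Helper761.QD

open Set Topology TopologicalSpace

theorem exists_H {X : Type*} [TopologicalSpace X] [T3Space X] (nb : X → Set X)
    (hno : ∀ x, IsOpen (nb x)) (hnm : ∀ x, x ∈ nb x) (G : ℕ → Set (Set X)) (hG : QuasiDev G) :
    ∃ H : ℕ → X → Set X, (∀ x, ∃ m ξ, x ∈ H m ξ) ∧
      (∀ m ξ, ∀ x ∈ H m ξ, ∃ G, IsOpen G ∧ x ∈ G ∧ ∀ η, (G ∩ H m η).Nonempty → η = ξ) ∧
      ∀ m x, closure (H m x) ⊆ nb x := by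
  have hU : ∀ x : X, ∃ U : Set X, IsOpen U ∧ x ∈ U ∧ closure U ⊆ nb x := by
    intro x
    obtain ⟨s, hs1, hs2, hs3⟩ := exists_mem_nhds_isClosed_subset ((hno x).mem_nhds (hnm x))
    exact ⟨interior s, isOpen_interior, mem_interior_iff_mem_nhds.2 hs1,
      (closure_minimal interior_subset hs2).trans hs3⟩
  choose U hUo hUm hUcl using hU
  let r : X → X → Prop := WellOrderingRel
  haveI hwo : IsWellOrder X r := WellOrderingRel.isWellOrder
  refine ⟨fun m x => {y | y ∈ U x ∧ (∀ x', r x' x → y ∉ U x') ∧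
    y ∈ ⋃₀ {s ∈ G m | y ∈ s} ∧ ⋃₀ {s ∈ G m | y ∈ s} ⊆ U x}, ?_, ?_, ?_⟩
  · intro y
    obtain ⟨x, hx, hmin⟩ := WellFounded.has_min (hwo.wf) {x | y ∈ U x} ⟨y, hUm y⟩
    obtain ⟨m, hm1, hm2⟩ := hG.2 y (U x) (hUo x) hx
    exact ⟨m, x, hx, fun x' hx' h => hmin x' h hx', hm1, hm2⟩
  · rintro m x y ⟨hy1, hy2, ⟨s, ⟨hs, hys⟩, -⟩, hy4⟩
    refine ⟨s, hG.1 m s hs, hys, ?_⟩
    rintro η ⟨z, hzs, hz1, hz2, hz3, hz4⟩
    have h1 : z ∈ U x := hy4 ⟨s, ⟨hs, hys⟩, hzs⟩
    have h2 : y ∈ U η := hz4 ⟨s, ⟨hs, hzs⟩, hys⟩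
    rcases trichotomous_of r η x with h | h | h
    · exact absurd h2 (hy2 η h)
    · exact h
    · exact absurd h1 (hz2 x h)
  · intro m x
    exact (closure_mono fun y hy => hy.1).trans (hUcl x)

theorem connected_qd_cp {X : Type*} [TopologicalSpace X] [T3Space X] [LocallyCompactSpace X]
    [LocallyConnectedSpace X] [ConnectedSpace X]
    (hsc : ∀ x : X, ∃ G : Set X, IsOpen G ∧ x ∈ G ∧ SecondCountableTopology G) (hX : CPO X)
    (G : ℕ → Set (Set X)) (hG : QuasiDev G) : SecondCountableTopology X := by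
  choose nb hno hnm hns using hsc
  obtain ⟨H, hcov, hH, hcl⟩ := exists_H nb hno hnm G hG
  obtain ⟨V, V', hVo, hVo', hVd, hsep⟩ := sep_of_cpo hX nb hno hns H hH (fun _ x => x) hcl
    (fun m => {z | ∃ G, IsOpen G ∧ z ∈ G ∧
      ∀ ξ η, (G ∩ H m ξ).Nonempty → (G ∩ H m η).Nonempty → ξ = η}) (fun _ _ => Iff.rfl)
  obtain ⟨A, hA, hAc⟩ := connected_case' nb hno hnm (fun x => by
    haveI := hns x
    exact exists_locBase (hno x)) H hcov hH (fun _ x => x) hcl _ (fun _ _ => Iff.rfl)
    V V' hVo hVo' hVd hsep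
  haveI : Countable A := hA.to_subtype
  haveI : ∀ a : A, SecondCountableTopology (nb a.1) := fun a => hns a.1
  refine TopologicalSpace.secondCountableTopology_of_countable_cover (U := fun a : A => nb a.1)
    (fun a => hno a.1) ?_
  rw [← hAc, biUnion_eq_iUnion]

theorem cpo_subtype {X : Type*} [TopologicalSpace X] (h : CPO X) (C : Set X) (hC : IsOpen C) :
    CPO C := by
  intro Z F hZ hFZ hFo hFm hF0
  have himg : ∀ n, Subtype.val '' Z \ Subtype.val '' (F n) =
      (Subtype.val '' (Z \ F n) : Set X) := by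
    intro n
    rw [image_diff Subtype.val_injective]
  obtain ⟨U, hUo, hUF, hUc⟩ := h (Subtype.val '' Z) (fun n => Subtype.val '' F n)
    (hC.isOpenMap_subtype_val _ hZ) (fun n => image_mono (hFZ n))
    (fun n => by
      rw [himg]
      exact hC.isOpenMap_subtype_val _ (hFo n))
    (fun n => image_mono (hFm n)) (by
      rw [eq_empty_iff_forall_notMem]
      intro z hz
      rw [mem_iInter] at hz
      obtain ⟨w, hw, rfl⟩ := hz 0
      have h1 : w ∈ ⋂ n, F n := by
        rw [mem_iInter]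
        intro n
        obtain ⟨w', hw', hww'⟩ := hz n
        have h2 : w' = w := Subtype.ext hww'
        rw [← h2]
        exact hw'
      rw [hF0] at h1
      exact h1)
  refine ⟨fun n => Subtype.val ⁻¹' U n, fun n => (hUo n).preimage continuous_subtype_val,
    fun n z hz => hUF n ⟨z, hz, rfl⟩, ?_⟩
  intro z hz
  obtain ⟨n, hn⟩ := hUc z.1 ⟨z, hz, rfl⟩
  exact ⟨n, fun hcl => hn (continuous_subtype_val.closure_preimage_subset _ hcl)⟩

/-- A Hausdorff, locally compact, locally connected, locally second countable, quasi-developable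
space all of whose open subspaces are countably paracompact is metrizable. -/
theorem main_cp {X : Type*} [TopologicalSpace X] [T2Space X] [LocallyCompactSpace X]
    [LocallyConnectedSpace X]
    (hsc : ∀ x : X, ∃ G : Set X, IsOpen G ∧ x ∈ G ∧ SecondCountableTopology G)
    (hcp : ∀ s : Set X, IsOpen s → CP s)
    (G : ℕ → Set (Set X)) (hG : QuasiDev G) : MetrizableSpace X := by
  have hX : CPO X := cpo_of_cp hcp
  apply Pool.Agent.Helper761.BB.metrizable_of_components
  intro x
  choose N hNo hNm hNs using hsc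
  have hCo : IsOpen (connectedComponent x) := isOpen_connectedComponent
  haveI : LocallyConnectedSpace (connectedComponent x) := hCo.locallyConnectedSpace
  haveI : LocallyCompactSpace (connectedComponent x) := hCo.locallyCompactSpace
  haveI : ConnectedSpace (connectedComponent x) :=
    isConnected_iff_connectedSpace.1 isConnected_connectedComponent
  let pre : Set X → Set (connectedComponent x) := fun U => Subtype.val ⁻¹' U
  refine connected_qd_cp ?_ (cpo_subtype hX _ hCo) (fun k => pre '' G k) ⟨?_, ?_⟩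
  · intro y
    refine ⟨pre (N y.1), (hNo y.1).preimage continuous_subtype_val, hNm y.1, ?_⟩
    let f : pre (N y.1) → N y.1 := fun z => ⟨z.1.1, z.2⟩
    have hf : Continuous f := by
      apply Continuous.subtype_mk
      exact continuous_subtype_val.comp continuous_subtype_val
    have hgf : IsInducing ((Subtype.val : N y.1 → X) ∘ f) := by
      change IsInducing (fun z : pre (N y.1) => z.1.1)
      exact IsInducing.subtypeVal.comp IsInducing.subtypeVal
    have hfi : IsInducing f := IsInducing.of_comp hf continuous_subtype_val hgf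
    haveI := hNs y.1
    exact hfi.secondCountableTopology
  · rintro k _ ⟨s, hs, rfl⟩
    exact (hG.1 k s hs).preimage continuous_subtype_val
  · intro y U hU hyU
    obtain ⟨U', hU', rfl⟩ := isOpen_induced_iff.1 hU
    obtain ⟨k, ⟨s, ⟨hs, hys⟩, -⟩, hk2⟩ := hG.2 y.1 U' hU' hyU
    refine ⟨k, ⟨pre s, ⟨⟨s, hs, rfl⟩, hys⟩, hys⟩, ?_⟩
    rintro z ⟨_, ⟨⟨s', hs', rfl⟩, hys'⟩, hzs'⟩
    exact hk2 ⟨s', ⟨hs', hys'⟩, hzs'⟩

end Pool.Agent.Helper761.QD
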