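import Mathlib
import Pool.Agent.Helper761.Omega1
import Pool.Agent.Helper761.BaloghBennett
import Pool.Agent.Helper761.CompMet

set_option autoImplicit false

namespace Pool.Agent.Helper761.SS

open Set Topology TopologicalSpace
open Pool.Agent.Helper761.Om Pool.Agent.Helper761.BB

/-- An assignment of countably many open sets to each point such that the sets attached to the
points of `D` separate each point of the closure of `D` from every other point. -/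
structure StarSep (X : Type*) [TopologicalSpace X] (S : X → Set (Set X)) : Prop where
  ctb : ∀ d, (S d).Countable
  opn : ∀ d, ∀ U ∈ S d, IsOpen U
  sep : ∀ (D : Set X) (p b : X), p ∈ closure D → p ≠ b → ∃ d ∈ D, ∃ U ∈ S d, p ∈ U ∧ b ∉ U

theorem connected_case {X : Type*} [TopologicalSpace X] [T2Space X] [LocallyCompactSpace X]
    [LocallyConnectedSpace X] [ConnectedSpace X] [CompletelyNormalSpace X]
    (nb : X → Set X) (hno : ∀ x, IsOpen (nb x)) (hnm : ∀ x, x ∈ nb x)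
    (hnd : ∀ x, ∃ D : Set X, D.Countable ∧ nb x ⊆ closure D)
    (SS : X → Set (Set X)) (hSS : StarSep X SS) :
    ∃ A : Set X, A.Countable ∧ (⋃ a ∈ A, nb a) = univ := by
  by_contra hcon
  push Not at hcon
  obtain ⟨ι, _, _, hc, hu⟩ := exists_omega1
  haveI : Nonempty ι := by
    obtain ⟨b, _⟩ := hu ∅ countable_empty
    exact ⟨b⟩
  choose D hDc hD using hnd
  have hdense : ∀ G : Set X, IsOpen G → ∀ x, (G ∩ nb x).Nonempty → ∃ d ∈ D x, d ∈ G ∧ d ∈ nb x := by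
    rintro G hG x ⟨y, hyG, hyn⟩
    obtain ⟨d, hd1, hd2⟩ := mem_closure_iff.1 (hD x hyn) (G ∩ nb x) (hG.inter (hno x)) ⟨hyG, hyn⟩
    exact ⟨d, hd2, hd1.1, hd1.2⟩
  have hPex : ∀ O : Set X, ∃ x : X, (closure O \ O).Nonempty → x ∈ closure O \ O := by
    intro O
    by_cases h : (closure O \ O).Nonempty
    · exact ⟨h.some, fun _ => h.some_mem⟩
    · exact ⟨Classical.arbitrary X, fun h' => absurd h' h⟩
  choose P hP using hPex
  obtain ⟨p, hp⟩ := exists_rec (ι := ι) nb P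
  obtain ⟨O, hOdef⟩ : ∃ O : ι → Set X, ∀ α, O α = ⋃ β ∈ Iio α, nb (p β) := ⟨_, fun _ => rfl⟩
  have hOo : ∀ α, IsOpen (O α) := by
    intro α
    rw [hOdef]
    exact isOpen_biUnion fun β _ => hno _
  have hnbO : ∀ {α β : ι}, α < β → nb (p α) ⊆ O β := by
    intro α β h
    rw [hOdef]
    exact subset_biUnion_of_mem (u := fun β => nb (p β)) h
  have hOm : ∀ {α β : ι}, α ≤ β → O α ⊆ O β := by
    intro α β h
    rw [hOdef α]
    exact iUnion₂_subset fun γ hγ => hnbO (lt_of_lt_of_le hγ h)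
  have hOmem : ∀ {α : ι} {x : X}, x ∈ O α → ∃ β < α, x ∈ nb (p β) := by
    intro α x hx
    rw [hOdef, mem_iUnion₂] at hx
    obtain ⟨β, hβ, hx⟩ := hx
    exact ⟨β, hβ, hx⟩
  have hpO : ∀ α, (∃ a, a < α) → p α ∈ closure (O α) ∧ p α ∉ O α := by
    rintro α ⟨a, ha⟩
    have h1 : (closure (O α) \ O α).Nonempty := by
      by_contra hemp
      rw [Set.not_nonempty_iff_eq_empty, Set.diff_eq_empty] at hemp
      have hcl : IsClosed (O α) := by
        rw [← closure_eq_iff_isClosed]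
        exact Subset.antisymm hemp subset_closure
      rcases isClopen_iff.1 ⟨hcl, hOo α⟩ with h | h
      · have : p a ∈ O α := hnbO ha (hnm _)
        rw [h] at this
        exact this
      · apply hcon (p '' Iio α) ((hc α).image p)
        rw [biUnion_image, ← hOdef, h]
    have h2 := hP _ h1
    rw [hp α, ← hOdef]
    exact h2
  -- the countable subfamilies
  obtain ⟨DD, hDDdef⟩ : ∃ DD : ι → Set X, ∀ α, DD α = ⋃ β ∈ Iio α, D (p β) := ⟨_, fun _ => rfl⟩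
  have hDDm : ∀ {α : ι} {d : X}, d ∈ DD α ↔ ∃ β < α, d ∈ D (p β) := by
    intro α d
    rw [hDDdef, mem_iUnion₂]
    exact ⟨fun ⟨β, h1, h2⟩ => ⟨β, h1, h2⟩, fun ⟨β, h1, h2⟩ => ⟨β, h1, h2⟩⟩
  have hDDd : ∀ α (G : Set X), IsOpen G → (G ∩ O α).Nonempty → ∃ d ∈ DD α, d ∈ G := by
    rintro α G hG ⟨y, hyG, hyO⟩
    obtain ⟨β, hβ, hy⟩ := hOmem hyO
    obtain ⟨d, hd, hdG, _⟩ := hdense G hG (p β) ⟨y, hyG, hy⟩
    exact ⟨d, hDDm.2 ⟨β, hβ, hd⟩, hdG⟩
  have hDDcl : ∀ α, closure (O α) ⊆ closure (DD α) := by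
    intro α x hx
    rw [mem_closure_iff]
    intro G hG hxG
    obtain ⟨d, hd, hdG⟩ := hDDd α G hG (mem_closure_iff.1 hx G hG hxG)
    exact ⟨d, hdG, hd⟩
  obtain ⟨UU, hUU⟩ : ∃ UU : ι → Set (Set X), ∀ α U, U ∈ UU α ↔ ∃ d ∈ DD α, U ∈ SS d :=
    ⟨fun α => {U | ∃ d ∈ DD α, U ∈ SS d}, fun _ _ => Iff.rfl⟩
  have hUUo : ∀ {α : ι} {U : Set X}, U ∈ UU α → IsOpen U := by
    intro α U hU
    rw [hUU] at hU
    obtain ⟨d, _, hU⟩ := hU
    exact hSS.opn d U hU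
  have hUUm : ∀ {α β : ι}, α ≤ β → UU α ⊆ UU β := by
    intro α β h U hU
    rw [hUU] at hU ⊢
    obtain ⟨d, hd, hU⟩ := hU
    obtain ⟨γ, hγ, hd⟩ := hDDm.1 hd
    exact ⟨d, hDDm.2 ⟨γ, lt_of_lt_of_le hγ h, hd⟩, hU⟩
  have hUUc : ∀ α, (UU α).Countable := by
    intro α
    have h1 : UU α ⊆ ⋃ β ∈ Iio α, ⋃ d ∈ D (p β), SS d := by
      intro U hU
      rw [hUU] at hU
      obtain ⟨d, hd, hU⟩ := hU
      obtain ⟨β, hβ, hd⟩ := hDDm.1 hd
      rw [mem_iUnion₂]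
      refine ⟨β, hβ, ?_⟩
      rw [mem_iUnion₂]
      exact ⟨d, hd, hU⟩
    exact Countable.mono h1
      ((hc α).biUnion fun β _ => (hDc (p β)).biUnion fun d _ => hSS.ctb d)
  have hUUlim : ∀ {δ : ι} {U : Set X}, Lim δ → U ∈ UU δ → ∃ β < δ, U ∈ UU β := by
    intro δ U hL hU
    rw [hUU] at hU
    obtain ⟨d, hd, hU⟩ := hU
    obtain ⟨γ, hγ, hd⟩ := hDDm.1 hd
    obtain ⟨β, hβ1, hβ2⟩ := hL.2 γ hγ
    exact ⟨β, hβ2, (hUU _ _).2 ⟨d, hDDm.2 ⟨γ, hβ1, hd⟩, hU⟩⟩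
  obtain ⟨V0, V1, hV⟩ := sep_exists X
  obtain ⟨V, hVdef⟩ : ∃ V : Finset (Set X × Set X) → Set X, ∀ F, V F = ⋂ q ∈ F, V0 q.1 q.2 :=
    ⟨_, fun _ => rfl⟩
  -- the sets of codes
  obtain ⟨Es, hEs⟩ : ∃ Es : ι → Set (Finset (Set X × Set X) × X), ∀ α e, e ∈ Es α ↔
      (∀ q ∈ e.1, q.1 ∈ UU α ∧ q.2 ∈ UU α) ∧ e.2 ∈ ⋃ β ∈ Iio α, D (p β) :=
    ⟨fun α => {e | (∀ q ∈ e.1, q.1 ∈ UU α ∧ q.2 ∈ UU α) ∧ e.2 ∈ ⋃ β ∈ Iio α, D (p β)},
      fun _ _ => Iff.rfl⟩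
  have hEsc : ∀ α, (Es α).Countable := by
    intro α
    have h1 : {F : Finset (Set X × Set X) | ∀ q ∈ F, q.1 ∈ UU α ∧ q.2 ∈ UU α}.Countable := by
      have h2 : (UU α ×ˢ UU α).Countable := (hUUc α).prod (hUUc α)
      have h3 : {t : Set (Set X × Set X) | t.Finite ∧ t ⊆ UU α ×ˢ UU α}.Countable :=
        Set.countable_setOf_finite_subset h2
      have h4 := h3.preimage_of_injOn (f := fun F : Finset (Set X × Set X) => (F : Set _))
        (Finset.coe_injective.injOn)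
      refine h4.mono ?_
      intro F hF
      refine ⟨F.finite_toSet, ?_⟩
      intro q hq
      exact hF q hq
    have h2 : (⋃ β ∈ Iio α, D (p β)).Countable := (hc α).biUnion fun β _ => hDc _
    refine (h1.prod h2).mono ?_
    intro e he
    rw [hEs] at he
    exact he
  have hEsm : ∀ {α β : ι}, α ≤ β → Es α ⊆ Es β := by
    intro α β h e he
    rw [hEs] at he ⊢
    refine ⟨fun q hq => ⟨hUUm h (he.1 q hq).1, hUUm h (he.1 q hq).2⟩, ?_⟩
    have h2 := he.2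
    rw [mem_iUnion₂] at h2 ⊢
    obtain ⟨γ, hγ, h2⟩ := h2
    exact ⟨γ, lt_of_lt_of_le hγ h, h2⟩
  -- the relation
  obtain ⟨R, hR⟩ : ∃ R : ι → Finset (Set X × Set X) × X → Prop, ∀ δ e, R δ e ↔
      ∃ W N : Set X, IsOpen (V e.1) ∧ IsCompact W ∧ W ⊆ nb (p δ) ∧ N ⊆ interior W ∧ IsPreconnected N ∧
        p δ ∈ N ∧ N ⊆ V e.1 ∧ e.2 ∈ N ∧ e.2 ∈ O δ ∧
        Disjoint (V e.1) (frontier W ∩ closure (O δ)) := ⟨_, fun _ _ => Iff.rfl⟩
  have hf : ∀ δ, Lim δ → ∃ β < δ, ∃ e ∈ Es β, R δ e := by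
    intro δ hL
    obtain ⟨hp1, hp2⟩ := hpO δ hL.1
    obtain ⟨W, hWc, hWi, hWn⟩ := exists_compact_subset (hno (p δ)) (hnm (p δ))
    have hBc : IsCompact (frontier W ∩ closure (O δ)) := by
      refine hWc.of_isClosed_subset (isClosed_frontier.inter isClosed_closure) ?_
      intro x hx
      exact hWc.isClosed.frontier_subset hx.1
    obtain ⟨β, hβ, F, hF1, hF2, hF3⟩ : ∃ β < δ, ∃ F : Finset (Set X × Set X),
        (∀ q ∈ F, q.1 ∈ UU β ∧ q.2 ∈ UU β) ∧ p δ ∈ V F ∧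
          Disjoint (V F) (frontier W ∩ closure (O δ)) := by
      refine hBc.induction_on (p := fun s => ∃ β < δ, ∃ F : Finset (Set X × Set X),
        (∀ q ∈ F, q.1 ∈ UU β ∧ q.2 ∈ UU β) ∧ p δ ∈ V F ∧ Disjoint (V F) s) ?_ ?_ ?_ ?_
      · obtain ⟨a, ha⟩ := hL.1
        refine ⟨a, ha, ∅, by simp, ?_, disjoint_empty _⟩
        rw [hVdef]
        simp
      · rintro s t hst ⟨β, hβ, F, h1, h2, h3⟩
        exact ⟨β, hβ, F, h1, h2, h3.mono_right hst⟩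
      · classical
        rintro s t ⟨β, hβ, F, h1, h2, h3⟩ ⟨β', hβ', F', h1', h2', h3'⟩
        have hVu : V (F ∪ F') = V F ∩ V F' := by
          rw [hVdef, hVdef, hVdef]
          ext x
          simp only [mem_iInter, Finset.mem_union, mem_inter_iff]
          constructor
          · intro h
            exact ⟨fun q hq => h q (Or.inl hq), fun q hq => h q (Or.inr hq)⟩
          · rintro ⟨h, h'⟩ q (hq | hq)
            · exact h q hq
            · exact h' q hq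
        refine ⟨max β β', max_lt hβ hβ', F ∪ F', ?_, ?_, ?_⟩
        · intro q hq
          rcases Finset.mem_union.1 hq with hq | hq
          · exact ⟨hUUm (le_max_left _ _) (h1 q hq).1, hUUm (le_max_left _ _) (h1 q hq).2⟩
          · exact ⟨hUUm (le_max_right _ _) (h1' q hq).1, hUUm (le_max_right _ _) (h1' q hq).2⟩
        · rw [hVu]
          exact ⟨h2, h2'⟩
        · rw [hVu, disjoint_union_right]
          exact ⟨h3.mono_left inter_subset_left, h3'.mono_left inter_subset_right⟩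
      · rintro b ⟨hb1, hb2⟩
        have hne : p δ ≠ b := by
          rintro rfl
          exact hb1.2 hWi
        obtain ⟨d, hd, U, hU, hpU, hbU⟩ := hSS.sep (DD δ) _ _ (hDDcl δ hp1) hne
        obtain ⟨d', hd', U', hU', hbU', hpU'⟩ := hSS.sep (DD δ) _ _ (hDDcl δ hb2) hne.symm
        have hUm : U ∈ UU δ := by
          rw [hUU]
          exact ⟨d, hd, hU⟩
        have hUm' : U' ∈ UU δ := by
          rw [hUU]
          exact ⟨d', hd', hU'⟩
        obtain ⟨β, hβ, hUβ⟩ := hUUlim hL hUm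
        obtain ⟨β', hβ', hUβ'⟩ := hUUlim hL hUm'
        obtain ⟨hV0o, hV1o, hV0, hV1, hdis⟩ := hV U U' (hUUo hUm) (hUUo hUm')
        refine ⟨V1 U U', mem_nhdsWithin_of_mem_nhds (hV1o.mem_nhds (hV1 ⟨hbU', hbU⟩)),
          max β β', max_lt hβ hβ', {(U, U')}, ?_, ?_, ?_⟩
        · intro q hq
          rw [Finset.mem_singleton] at hq
          subst hq
          exact ⟨hUUm (le_max_left _ _) hUβ, hUUm (le_max_right _ _) hUβ'⟩
        · rw [hVdef]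
          simp only [Finset.mem_singleton, iInter_iInter_eq_left]
          exact hV0 ⟨hpU, hpU'⟩
        · rw [hVdef]
          simp only [Finset.mem_singleton, iInter_iInter_eq_left]
          exact hdis
    have hVo : IsOpen (V F) := by
      rw [hVdef]
      refine isOpen_biInter_finset fun q hq => ?_
      exact (hV q.1 q.2 (hUUo (hF1 q hq).1) (hUUo (hF1 q hq).2)).1
    obtain ⟨N, hNsub, hNo, hpN, hNc⟩ :=
      locallyConnectedSpace_iff_subsets_isOpen_isConnected.1 (inferInstance : LocallyConnectedSpace X)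
        (p δ) (V F ∩ interior W) ((hVo.inter isOpen_interior).mem_nhds ⟨hF2, hWi⟩)
    obtain ⟨y, hyN, hyO⟩ := mem_closure_iff.1 hp1 N hNo hpN
    obtain ⟨γ, hγ, hyγ⟩ := hOmem hyO
    obtain ⟨d, hd, hdN, hdn⟩ := hdense N hNo (p γ) ⟨y, hyN, hyγ⟩
    obtain ⟨γ', hγ1, hγ2⟩ := hL.2 γ hγ
    refine ⟨max β γ', max_lt hβ hγ2, (F, d), ?_, ?_⟩
    · rw [hEs]
      refine ⟨fun q hq => ⟨hUUm (le_max_left _ _) (hF1 q hq).1,
        hUUm (le_max_left _ _) (hF1 q hq).2⟩, ?_⟩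
      rw [mem_iUnion₂]
      exact ⟨γ, lt_of_lt_of_le hγ1 (le_max_right _ _), hd⟩
    · rw [hR]
      exact ⟨W, N, hVo, hWc, hWn, fun z hz => (hNsub hz).2, hNc.isPreconnected, hpN,
        fun z hz => (hNsub hz).1, hdN, hnbO hγ hdn, hF3⟩
  obtain ⟨⟨F, x⟩, hS⟩ := pressing hc hu Es hEsc R hf
  -- the components
  obtain ⟨K, hK⟩ : ∃ K : ι → Set X, ∀ δ, K δ = connectedComponentIn (V F ∩ O δ) x :=
    ⟨_, fun _ => rfl⟩
  obtain ⟨S, hSdef⟩ : ∃ S : ι → Prop, ∀ δ, S δ ↔ Lim δ ∧ R δ (F, x) := ⟨_, fun _ => Iff.rfl⟩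
  have hSunb : ∀ b, ∃ δ, b < δ ∧ S δ := by
    intro b
    obtain ⟨δ, h1, h2, h3⟩ := hS b
    exact ⟨δ, h1, (hSdef δ).2 ⟨h2, h3⟩⟩
  have hKm : ∀ {δ δ' : ι}, δ ≤ δ' → K δ ⊆ K δ' := by
    intro δ δ' h
    rw [hK, hK]
    exact connectedComponentIn_mono _ (inter_subset_inter_right _ (hOm h))
  have hKO : ∀ δ, K δ ⊆ O δ := by
    intro δ
    rw [hK]
    exact (connectedComponentIn_subset _ _).trans inter_subset_right
  have hKcl : ∀ δ, S δ → IsCompact (closure (K δ)) ∧ closure (K δ) ⊆ nb (p δ) := by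
    intro δ hδ
    rw [hSdef, hR] at hδ
    obtain ⟨_, W, N, hVo, hWc, hWn, hNi, hNp, hpN, hNV, hxN, hxO, hdis⟩ := hδ
    have h1 : K δ ⊆ interior W := by
      apply subset_interior_of_preconnected
      · rw [hK]
        exact isPreconnected_connectedComponentIn
      · refine ⟨x, ?_, hNi hxN⟩
        rw [hK]
        exact mem_connectedComponentIn ⟨hNV hxN, hxO⟩
      · rw [Set.disjoint_left]
        intro z hz hzf
        have hz2 : z ∈ V F ∩ O δ := by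
          rw [hK] at hz
          exact connectedComponentIn_subset _ _ hz
        exact (Set.disjoint_left.1 hdis) hz2.1 ⟨hzf, subset_closure hz2.2⟩
    have h2 : closure (K δ) ⊆ W := closure_minimal (h1.trans interior_subset) hWc.isClosed
    exact ⟨hWc.of_isClosed_subset isClosed_closure h2, h2.trans hWn⟩
  have hKo : ∀ δ, IsOpen (K δ) := by
    intro δ
    obtain ⟨δ1, _, hδ1⟩ := hSunb δ
    rw [hSdef, hR] at hδ1
    obtain ⟨_, W, N, hVo, _⟩ := hδ1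
    rw [hK]
    exact (hVo.inter (hOo δ)).connectedComponentIn
  have hpK : ∀ δ δ', S δ → δ < δ' → p δ ∈ K δ' := by
    intro δ δ' hδ hlt
    rw [hSdef, hR] at hδ
    obtain ⟨_, W, N, hVo, hWc, hWn, hNi, hNp, hpN, hNV, hxN, hxO, hdis⟩ := hδ
    rw [hK]
    refine hNp.subset_connectedComponentIn hxN ?_ hpN
    intro z hz
    exact ⟨hNV hz, hnbO hlt (hWn (interior_subset (hNi hz)))⟩
  -- closing off
  have hnext : ∀ b, ∃ s, b < s ∧ S s ∧ ∀ ℱ : Set (Set X), ℱ.Finite → ℱ ⊆ UU b →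
      (∃ β, S β ∧ ¬ closure (K β) ⊆ ⋃₀ ℱ) → ¬ closure (K s) ⊆ ⋃₀ ℱ := by
    intro b
    have hT : {ℱ : Set (Set X) | ℱ.Finite ∧ ℱ ⊆ UU b}.Countable :=
      Set.countable_setOf_finite_subset (hUUc b)
    have hex : ∀ ℱ : Set (Set X), ∃ β : ι, (∃ β, S β ∧ ¬ closure (K β) ⊆ ⋃₀ ℱ) →
        ¬ closure (K β) ⊆ ⋃₀ ℱ := by
      intro ℱ
      by_cases h : ∃ β, S β ∧ ¬ closure (K β) ⊆ ⋃₀ ℱ
      · obtain ⟨β, hβ1, hβ2⟩ := h
        exact ⟨β, fun _ => hβ2⟩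
      · exact ⟨Classical.arbitrary ι, fun h' => absurd h' h⟩
    choose B hB using hex
    obtain ⟨b', hb'⟩ := hu (insert b (B '' {ℱ : Set (Set X) | ℱ.Finite ∧ ℱ ⊆ UU b}))
      ((hT.image B).insert b)
    obtain ⟨s, hs1, hs2⟩ := hSunb b'
    refine ⟨s, (hb' b (mem_insert _ _)).trans hs1, hs2, ?_⟩
    intro ℱ hfin hsub hbad hcov
    apply hB ℱ hbad
    refine Subset.trans (closure_mono (hKm ?_)) hcov
    exact ((hb' _ (mem_insert_of_mem _ (mem_image_of_mem B ⟨hfin, hsub⟩))).trans hs1).le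
  choose next hn1 hn2 hn3 using hnext
  obtain ⟨σ, hσ0⟩ : ∃ σ : ℕ → ι, ∀ n, σ n = next^[n] (Classical.arbitrary ι) := ⟨_, fun _ => rfl⟩
  have hσ : ∀ n, σ (n + 1) = next (σ n) := by
    intro n
    rw [hσ0, hσ0, Function.iterate_succ_apply']
  have hσlt : ∀ n, σ n < σ (n + 1) := fun n => by rw [hσ]; exact hn1 _
  have hσm : StrictMono σ := strictMono_nat_of_lt_succ hσlt
  have hσS : ∀ n, S (σ (n + 1)) := fun n => by rw [hσ]; exact hn2 _
  obtain ⟨b, hb⟩ := hu (range σ) (countable_range σ)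
  obtain ⟨δ, hbδ, hSδ⟩ := hSunb b
  obtain ⟨γ, hδγ, hSγ⟩ := hSunb δ
  obtain ⟨γ', hγγ', hSγ'⟩ := hSunb γ
  have hσδ : ∀ n, σ n < δ := fun n => (hb _ ⟨n, rfl⟩).trans hbδ
  obtain ⟨Y, hY⟩ : ∃ Y : Set X, Y = closure (⋃ n, closure (K (σ (n + 1)))) := ⟨_, rfl⟩
  have hYsub : Y ⊆ closure (K δ) := by
    rw [hY]
    refine closure_minimal ?_ isClosed_closure
    exact iUnion_subset fun n => closure_mono (hKm (hσδ _).le)
  have hYc : IsCompact Y := by
    refine (hKcl δ hSδ).1.of_isClosed_subset ?_ hYsub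
    rw [hY]
    exact isClosed_closure
  have hqY : ∀ y ∈ Y, y ≠ p γ := by
    rintro y hy rfl
    have h1 : p γ ∈ O γ := hnbO hδγ ((hKcl δ hSδ).2 (hYsub hy))
    exact (hpO γ ⟨_, hδγ⟩).2 h1
  obtain ⟨ℱ, hfin, ⟨n, hn⟩, hq, hcov⟩ : ∃ ℱ : Set (Set X), ℱ.Finite ∧
      (∃ n, ℱ ⊆ UU (σ (n + 1))) ∧ p γ ∉ ⋃₀ ℱ ∧ Y ⊆ ⋃₀ ℱ := by
    refine hYc.induction_on (p := fun s => ∃ ℱ : Set (Set X), ℱ.Finite ∧
      (∃ n, ℱ ⊆ UU (σ (n + 1))) ∧ p γ ∉ ⋃₀ ℱ ∧ s ⊆ ⋃₀ ℱ) ?_ ?_ ?_ ?_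
    · exact ⟨∅, finite_empty, ⟨0, empty_subset _⟩, by simp, empty_subset _⟩
    · rintro s t hst ⟨ℱ, h1, h2, h3, h4⟩
      exact ⟨ℱ, h1, h2, h3, hst.trans h4⟩
    · rintro s t ⟨ℱ, h1, ⟨n, h2⟩, h3, h4⟩ ⟨ℱ', h1', ⟨n', h2'⟩, h3', h4'⟩
      refine ⟨ℱ ∪ ℱ', h1.union h1', ⟨max n n', union_subset
        (h2.trans (hUUm (hσm.monotone (by simp)))) (h2'.trans (hUUm (hσm.monotone (by simp))))⟩,
        ?_, ?_⟩
      · rw [sUnion_union]
        rintro (h | h)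
        · exact h3 h
        · exact h3' h
      · rw [sUnion_union]
        exact union_subset_union h4 h4'
    · intro y hy
      have hy2 : y ∈ closure (⋃ n, (DD (σ (n + 1)) ∩ K (σ (n + 1)))) := by
        rw [mem_closure_iff]
        intro U hU hyU
        rw [hY] at hy
        obtain ⟨z, hzU, hz⟩ := mem_closure_iff.1 hy U hU hyU
        obtain ⟨n, hzn⟩ := mem_iUnion.1 hz
        obtain ⟨w, hwU, hw⟩ := mem_closure_iff.1 hzn U hU hzU
        obtain ⟨d, hd, hdU, hdK⟩ := hDDd (σ (n + 1)) (U ∩ K (σ (n + 1))) (hU.inter (hKo _))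
          ⟨w, ⟨hwU, hw⟩, hKO _ hw⟩
        exact ⟨d, hdU, mem_iUnion.2 ⟨n, hd, hdK⟩⟩
      obtain ⟨d, hd, U, hU, hyU, hqU⟩ := hSS.sep _ _ _ hy2 (hqY y hy)
      refine ⟨U, mem_nhdsWithin_of_mem_nhds ((hSS.opn d U hU).mem_nhds hyU), {U}, finite_singleton U,
        ?_, ?_, ?_⟩
      · obtain ⟨n, hdn, _⟩ := mem_iUnion.1 hd
        refine ⟨n, singleton_subset_iff.2 ?_⟩
        rw [hUU]
        exact ⟨d, hdn, hU⟩
      · rw [sUnion_singleton]
        exact hqU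
      · rw [sUnion_singleton]
  have h1 : ¬ closure (K (next (σ (n + 1)))) ⊆ ⋃₀ ℱ := by
    apply hn3 (σ (n + 1)) ℱ hfin hn
    refine ⟨γ', hSγ', ?_⟩
    intro h
    exact hq (h (subset_closure (hpK γ γ' hSγ hγγ')))
  apply h1
  rw [← hσ]
  refine Subset.trans ?_ hcov
  rw [hY]
  refine Subset.trans ?_ subset_closure
  exact subset_iUnion (fun n => closure (K (σ (n + 1)))) (n + 1)

end Pool.Agent.Helper761.SS
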