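import Mathlib
import Pool.Agent.Helper761.StarSep

set_option autoImplicit false

namespace Pool.Agent.Helper761.SS

open Set Topology TopologicalSpace

/-- A Hausdorff, locally compact, locally connected, locally second countable, hereditarily normal
space with a separating assignment is metrizable. -/
theorem main {X : Type*} [TopologicalSpace X] [T2Space X] [LocallyCompactSpace X]
    [LocallyConnectedSpace X] [CompletelyNormalSpace X]
    (hsc : ∀ x : X, ∃ G : Set X, IsOpen G ∧ x ∈ G ∧ SecondCountableTopology G)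
    (S : X → Set (Set X)) (hS : StarSep X S) : MetrizableSpace X := by
  apply Pool.Agent.Helper761.BB.metrizable_of_components
  intro x
  choose G hGo hGm hGs using hsc
  have hCo : IsOpen (connectedComponent x) := isOpen_connectedComponent
  haveI : LocallyConnectedSpace (connectedComponent x) := hCo.locallyConnectedSpace
  haveI : LocallyCompactSpace (connectedComponent x) := hCo.locallyCompactSpace
  haveI : ConnectedSpace (connectedComponent x) :=
    isConnected_iff_connectedSpace.1 isConnected_connectedComponent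
  let nb : connectedComponent x → Set (connectedComponent x) := fun y => Subtype.val ⁻¹' (G y.1)
  have hno : ∀ y, IsOpen (nb y) := fun y => (hGo y.1).preimage continuous_subtype_val
  have hnm : ∀ y, y ∈ nb y := fun y => hGm y.1
  have hns : ∀ y, SecondCountableTopology (nb y) := by
    intro y
    let f : nb y → G y.1 := fun z => ⟨z.1.1, z.2⟩
    have hf : Continuous f := by
      apply Continuous.subtype_mk
      exact continuous_subtype_val.comp continuous_subtype_val
    have hgf : IsInducing ((Subtype.val : G y.1 → X) ∘ f) := by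
      change IsInducing (fun z : nb y => z.1.1)
      exact IsInducing.subtypeVal.comp IsInducing.subtypeVal
    have hfi : IsInducing f := IsInducing.of_comp hf continuous_subtype_val hgf
    haveI := hGs y.1
    exact hfi.secondCountableTopology
  have hnd : ∀ y, ∃ D : Set (connectedComponent x), D.Countable ∧ nb y ⊆ closure D := by
    intro y
    haveI := hns y
    obtain ⟨D, hDc, hD⟩ := TopologicalSpace.exists_countable_dense (nb y)
    exact ⟨Subtype.val '' D, hDc.image _, Subtype.dense_iff.1 hD⟩
  have hS' : StarSep (connectedComponent x)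
      (fun y => (fun U : Set X => (Subtype.val ⁻¹' U : Set (connectedComponent x))) '' S y.1) := by
    refine ⟨fun d => (hS.ctb d.1).image _, ?_, ?_⟩
    · rintro d _ ⟨U, hU, rfl⟩
      exact (hS.opn d.1 U hU).preimage continuous_subtype_val
    · intro D p b hp hpb
      obtain ⟨_, ⟨d, hd, rfl⟩, U, hU, hpU, hbU⟩ := hS.sep (Subtype.val '' D) p.1 b.1
        (image_closure_subset_closure_image continuous_subtype_val (mem_image_of_mem _ hp))
        (fun h => hpb (Subtype.ext h))
      exact ⟨d, hd, _, ⟨U, hU, rfl⟩, hpU, hbU⟩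
  obtain ⟨A, hA, hcov⟩ := connected_case nb hno hnm hnd _ hS'
  haveI : Countable A := hA.to_subtype
  haveI : ∀ a : A, SecondCountableTopology (nb a.1) := fun a => hns a.1
  refine TopologicalSpace.secondCountableTopology_of_countable_cover (U := fun a : A => nb a.1)
    (fun a => hno a.1) ?_
  rw [← hcov, biUnion_eq_iUnion]

/-- A sequence of open covers witnessing a strong G-delta diagonal gives a separating
assignment. -/
theorem starSep_of_gstar {X : Type*} [TopologicalSpace X] (G : ℕ → Set (Set X))
    (hGo : ∀ k, ∀ s ∈ G k, IsOpen s) (hGc : ∀ k, ⋃₀ G k = univ)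
    (hG : ∀ x y : X, x ≠ y → ∃ k, y ∉ closure (⋃₀ {s ∈ G k | x ∈ s})) :
    StarSep X (fun d => range (fun k => ⋃₀ {s ∈ G k | d ∈ s})) := by
  refine ⟨fun d => countable_range _, ?_, ?_⟩
  · rintro d _ ⟨k, rfl⟩
    exact isOpen_sUnion fun s hs => hGo k s hs.1
  · intro D p b hp hpb
    obtain ⟨k, hk⟩ := hG b p hpb.symm
    obtain ⟨s, hs, hps⟩ := mem_sUnion.1 ((hGc k).symm ▸ mem_univ p : p ∈ ⋃₀ G k)
    obtain ⟨d, ⟨hd1, hd2⟩, hdD⟩ := mem_closure_iff.1 hp
      ((closure (⋃₀ {s ∈ G k | b ∈ s}))ᶜ ∩ s) (isClosed_closure.isOpen_compl.inter (hGo k s hs))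
      ⟨hk, hps⟩
    refine ⟨d, hdD, _, ⟨k, rfl⟩, ⟨s, ⟨hs, hd2⟩, hps⟩, ?_⟩
    rintro ⟨s', ⟨hs', hds'⟩, hbs'⟩
    exact hd1 (subset_closure ⟨s', ⟨hs', hbs'⟩, hds'⟩)

end Pool.Agent.Helper761.SS
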